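import Pool.Agent.Lib_helper46.GA.X13

/-! LSP2.5 (balanced windows): definitions. -/

set_option autoImplicit false

namespace Pool.Agent.GA

open Finset Complex Metric Filter
open scoped ArithmeticFunction.vonMangoldt Classical Topology

/-- characters of all moduli -/
abbrev Sg : Type := Σ q : ℕ, DirichletCharacter ℂ q

/-- no real character of conductor at most `D` has a real zero larger than `1 - w` -/
def Free (w : ℝ) (D : ℕ) : Prop :=
  ∀ q ∈ Icc 1 D, ∀ χ ∈ Prm q, χ ^ 2 = 1 → ∀ β : ℝ, LF χ (β : ℂ) = 0 → β ≤ 1 - w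

/-- `e` is a real primitive character if its conductor is at most `D` (there is no exceptional
character if `e.1` is `0`) -/
def Exc (D : ℕ) (e : Sg) : Prop := e.1 ∈ Icc 1 D → e.2 ∈ Prm e.1 ∧ e.2 ^ 2 = 1

/-- the zeros in the rectangle with real part larger than `1 - w` -/
noncomputable def zx (f : ℂ → ℂ) (w T : ℝ) : Finset ℂ :=
  (zr f (1 / 16) T).filter (fun ρ => 1 - w < ρ.re)

end Pool.Agent.GA
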