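import Pool.Agent.Lib_helper41.LSP25.Defs

/-! LSP2.5: the conclusion for one window. -/

set_option autoImplicit false

namespace Pool.Agent.GA

open Finset Complex Metric Filter
open scoped ArithmeticFunction.vonMangoldt Classical Topology

/-- the conclusion for one window -/
def WX (D : ℕ) (e : Sg) (ε : (q : ℕ) → DirichletCharacter ℂ q → ℝ) (E : ℝ → ℝ) (P : Finset ℕ)
    (u : ℕ → ℝ) : Prop :=
  (∀ q ∈ Icc 1 D, ∀ χ ∈ Prm q, (⟨q, χ⟩ : Sg) ≠ e →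
    ‖∑ p ∈ P, ((u p : ℝ) : ℂ) * χ (p : ZMod q)‖ ≤ ε q χ) ∧
  (e.1 ∈ Icc 1 D → ∀ w : ℝ, 0 ≤ w → Free w D →
    ‖∑ p ∈ P, ((u p : ℝ) : ℂ) * e.2 (p : ZMod e.1)‖ ≤ E w)

end Pool.Agent.GA
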