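import Pool.Agent.Lib_helper68.LSP2.QD
import Pool.Agent.Lib_helper41.LSP25.ArG

/-! LSP2.5: the second moment for every predicate that has windows. -/

set_option autoImplicit false

namespace Pool.Agent.LSP

open Pool.Agent.LEV Pool.Agent.LVB Pool.Agent.KSL
open Pool.Agent.FG61 (mu phi cc ff AA Lam)
open Complex MeasureTheory Filter Topology UpperHalfPlane ModularGroup ProbabilityTheory
open scoped MatrixGroups Modular ENNReal ModularForm ComplexConjugate ContDiff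

/-- the second moment at every level, for a predicate that has windows -/
theorem qdata_gen (hq : M2Q) (hcr : M2C) (hmn : M2M) {Gd : ℝ → ℕ → Prop}
    (hwx : WinEx (1 / 80) Gd) (C₀ C₁ : ℕ) :
    ∃ κ q : ℝ, 0 < κ ∧ κ ≤ 1 / 80000 ∧ 1 / 2 < q ∧ q ≤ 1 ∧ QData q C₀ C₁ (Gd κ) := by
  obtain ⟨v, hv⟩ : ∃ v : ℝ, v = 1 / 80 := ⟨_, rfl⟩
  have hv0 : 0 < v := by rw [hv]; norm_num
  have hv1 : v ≤ 1 / 80 := hv.le
  obtain ⟨Ca, hCa, c, hc, A, hA, har⟩ := arith2_gen hq hcr (hv ▸ hwx) 1 hv0 hv1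
  obtain ⟨Cm, hCm, hm2⟩ := hmn 1 hv0 hv1
  obtain ⟨K, hKa, hKm, hK1⟩ : ∃ K : ℝ, Ca ≤ K ∧ Cm ≤ K ∧ 1 ≤ K :=
    ⟨max Ca Cm, le_max_left _ _, le_max_right _ _, hCa.trans (le_max_left _ _)⟩
  obtain ⟨κ, hκ0, hAκ, hκ1, hexp⟩ := qd_par hK1 hc hA
  rw [← hv] at hAκ hκ1 hexp
  have hκ2 : κ ≤ 1 / 80000 := by linarith
  obtain ⟨t, ht⟩ : ∃ t : ℝ, t = κ / K := ⟨_, rfl⟩
  have hK0 : 0 < K := by linarith
  have ht0 : 0 < t := by rw [ht]; positivity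
  have htκ : t ≤ κ := by
    rw [ht]
    exact div_le_self hκ0.le hK1
  have htK : K * t = κ := by rw [ht]; field_simp
  have ht1 : t ≤ 1 := by linarith
  obtain ⟨γ, hγ⟩ : ∃ γ : ℝ, γ = t * κ * (κ / (K * v)) := ⟨_, rfl⟩
  have hγ0 : 0 < γ := by rw [hγ]; positivity
  have hκv : κ / v ≤ 1 / 1000 := by
    rw [div_le_iff₀ hv0]
    linarith
  have hκKv : κ / (K * v) ≤ 1 := by
    rw [div_le_one (by positivity)]
    nlinarith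
  have hγ1 : γ ≤ 1 / 4 := by
    rw [hγ]
    have h2 : t * κ ≤ 1 / 4 := by nlinarith
    calc t * κ * (κ / (K * v)) ≤ 1 / 4 * 1 := mul_le_mul h2 hκKv (by positivity) (by norm_num)
      _ = 1 / 4 := by norm_num
  -- the error of the characters
  have hηγ : Ca * t * Real.exp (-(c * v / κ)) ≤ γ := by
    calc Ca * t * Real.exp (-(c * v / κ)) ≤ K * t * (κ ^ 2 / (K ^ 2 * v)) := by
          have h3 : 0 ≤ Ca * t := by positivity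
          exact mul_le_mul (mul_le_mul_of_nonneg_right hKa ht0.le) hexp (Real.exp_pos _).le
            (by positivity)
      _ = γ := by
          rw [hγ]
          field_simp
  -- the kernel
  have hpi : 3 < Real.pi := Real.pi_gt_three
  obtain ⟨e', he'0, he'K, he'1⟩ : ∃ e' : ℝ, 0 < e' ∧ e' ≤ γ / K ∧ e' ≤ 1 / 2 :=
    ⟨min (γ / K) (1 / 2), by positivity, min_le_left _ _, min_le_right _ _⟩
  obtain ⟨κ₁, hκ₁0, hκ₁K, hκ₁κ⟩ : ∃ κ₁ : ℝ, 0 < κ₁ ∧ κ₁ ≤ γ / K ∧ κ₁ ≤ κ :=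
    ⟨min (γ / K) κ, by positivity, min_le_left _ _, min_le_right _ _⟩
  obtain ⟨T, ρ, g, G, hρ, hg, hd, hI⟩ := kernel_existsL_pr he'0
  have hI1 : ∫ u in Set.Ioi (0 : ℝ), g u ≤ 1 := by
    have h2 : 1 / Real.pi ≤ 1 / 3 := one_div_le_one_div_of_le (by norm_num) hpi.le
    linarith
  obtain ⟨B₀, hB₀⟩ := exists_nat_ge (1 + T ^ 2)
  have hq1 : 1 / 2 < 2 / (4 - 4 * γ) := by
    rw [div_lt_div_iff₀ (by norm_num) (by linarith)]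
    linarith
  have hq2 : 2 / (4 - 4 * γ) ≤ 1 := by
    rw [div_le_one (by linarith)]
    linarith
  refine ⟨κ, 2 / (4 - 4 * γ), hκ0, hκ2, hq1, hq2, fun e C he hC => ?_⟩
  -- small errors
  obtain ⟨σ, hσ0, hσe, hσ1⟩ : ∃ σ : ℝ, 0 < σ ∧ σ ≤ e / 16 ∧ σ ≤ 1 :=
    ⟨min (e / 16) 1, by positivity, min_le_left _ _, min_le_right _ _⟩
  obtain ⟨δ, hδ0, hδ⟩ : ∃ δ : ℝ, 0 < δ ∧ δ * (C + 1) = e / 16 :=
    ⟨e / 16 / (C + 1), by positivity, by field_simp⟩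
  obtain ⟨ε₁, hε₁, har1⟩ := har κ κ₁ hκ0 hAκ hκ₁0 hκ₁κ hρ hg hd hI1 hB₀ (C₀ + 1) C₁ δ hδ0
  obtain ⟨ε₁', hε₁', hm21⟩ := hm2 hρ hg hd hI1 κ κ₁ hκ0 hκ1 hκ₁0 hκ₁κ δ hδ0
  obtain ⟨ε₂, hε₂0, hε₂1, hε₂2, hε₂3⟩ : ∃ ε₂ : ℝ, 0 < ε₂ ∧ ε₂ ≤ ε₁ ∧ ε₂ ≤ ε₁' ∧ ε₂ ≤ κ₁ / 1000 :=
    ⟨min (min ε₁ ε₁') (κ₁ / 1000), by positivity, (min_le_left _ _).trans (min_le_left _ _),
      (min_le_left _ _).trans (min_le_right _ _), min_le_right _ _⟩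
  obtain ⟨X₁, hX₁⟩ := har1 ε₂ hε₂0 hε₂1
  obtain ⟨X₂, hX₂⟩ := hm21 ε₂ hε₂0 hε₂2
  have hch : ∀ X : ℕ, ∃ θ : ℕ → ℝ, X₁ ≤ X → Gd κ X →
      (∀ p ∈ PB κ v X, 0 ≤ θ p ∧ θ p ≤ 1) ∧
      κ / (Ca * v) ≤ ∑ p ∈ PB κ v X, θ p / p ∧ ∑ p ∈ PB κ v X, θ p / p ≤ κ / v ∧
      ∀ a : ℕ → ℝ, Sht (zz X) (KA ε₂ X) a → cn (zz X) (KA ε₂ X) a ≤ 1 →
      (∀ k : ℕ, |a k| * Real.sqrt k ≤ Real.log X ^ (C₀ + 1) * tau k ^ C₁) →
      ∀ N : ℕ, N.Prime → X ≤ 2 * N → N ≤ 4 * X → ∀ t : ℝ, 0 ≤ t → t ≤ 1 →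
        OD ρ B₀ (E2 κ X) (x2 κ v κ₁ t X θ a) N ≤ Ca * t * Real.exp (-(c * v / κ)) + δ := by
    intro X
    by_cases hX : X₁ ≤ X
    · by_cases hgood : Gd κ X
      · obtain ⟨θ, hθ⟩ := hX₁ X hX hgood
        exact ⟨θ, fun _ _ => hθ⟩
      · exact ⟨0, fun _ h => absurd h hgood⟩
    · exact ⟨0, fun h => absurd h hX⟩
  choose θ hθ using hch
  have htv : t * (κ / v) ≤ 1 / 2 := by
    have h2 : 0 ≤ κ / v := by positivity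
    calc t * (κ / v) ≤ 1 * (1 / 1000) := mul_le_mul ht1 hκv h2 (by norm_num)
      _ ≤ 1 / 2 := by norm_num
  have hmol := molop_x2 (P := fun X => Gd κ X) hκ0 hκ1 hv1 hκ₁0 hκ₁κ
    hε₂0 hε₂3 ht0.le ht1 htv C₀ C₁ θ X₁ (fun X hX hP => ⟨(hθ X hX hP).1, (hθ X hX hP).2.2.1⟩)
  obtain ⟨X₃, hX₃⟩ := mp_ell hκ0 hv1 (by linarith) ht0.le htv
  obtain ⟨X₄, hX₄⟩ := sc_sht C₀ C₁ hε₂0 (Λ := 1 / Real.sqrt σ) (by
    rw [le_div_iff₀ (Real.sqrt_pos.mpr hσ0), one_mul]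
    exact Real.sqrt_le_one.mpr hσ1)
  refine ⟨T, ρ, B₀, 4 - 4 * γ, ε₂, _, _, _, hρ, hB₀, by linarith, ?_, hε₂0, hmol,
    X₁ + X₂ + X₃ + X₄ + 1, fun X hX hgood a ha hpt hcnC N hNp hXN hNX => ?_⟩
  · have h2 : 2 / (2 / (4 - 4 * γ)) = 4 - 4 * γ := by
      have : 4 - 4 * γ ≠ 0 := by linarith
      field_simp
    rw [h2]
    linarith
  obtain ⟨hθ1, hθ2, hθ3, hθ4⟩ := hθ X (by omega) hgood
  obtain ⟨hl1, hl2⟩ := hX₃ X (by omega) (θ X) hθ1 hθ3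
  obtain ⟨l, hl⟩ : ∃ l : ℝ, l = ell κ v t X (θ X) := ⟨_, rfl⟩
  rw [← hl] at hl1 hl2
  obtain ⟨s, hs⟩ : ∃ s : ℝ, s = cn (zz X) (KA ε₂ X) a := ⟨_, rfl⟩
  have hs0 : 0 ≤ s := by
    rw [hs]
    exact tsum_nonneg fun m => by split_ifs <;> positivity
  rw [← hs] at hcnC
  obtain ⟨m, hm⟩ : ∃ m : ℝ, m = max s σ := ⟨_, rfl⟩
  have hms : s ≤ m := by rw [hm]; exact le_max_left _ _
  have hmσ : σ ≤ m := by rw [hm]; exact le_max_right _ _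
  have hm0 : 0 < m := by linarith
  have hm1 : m ≤ s + σ := by
    rw [hm]
    exact max_le (by linarith) (by linarith)
  have hmC : m ≤ C + 1 := by linarith
  obtain ⟨μ, hμ⟩ : ∃ μ : ℝ, μ = 1 / Real.sqrt m := ⟨_, rfl⟩
  have hsm : 0 < Real.sqrt m := Real.sqrt_pos.mpr hm0
  have hμ0 : 0 < μ := by rw [hμ]; positivity
  have hμ2 : μ ^ 2 = 1 / m := by
    rw [hμ, div_pow, Real.sq_sqrt hm0.le, one_pow]
  have hμ1 : μ ≤ 1 / Real.sqrt σ := by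
    rw [hμ]
    exact one_div_le_one_div_of_le (Real.sqrt_pos.mpr hσ0) (Real.sqrt_le_sqrt hmσ)
  obtain ⟨hsht, hptw⟩ := hX₄ X (by omega) a ha hpt μ hμ0.le hμ1
  have hcn' : cn (zz X) (KA ε₂ X) (fun k => μ * a k) = s / m := by
    rw [sc_cn, ← hs, hμ2]
    ring
  have hcn1 : cn (zz X) (KA ε₂ X) (fun k => μ * a k) ≤ 1 := by
    rw [hcn', div_le_one hm0]
    exact hms
  -- the two bounds for the scaled vector
  have hOD := hθ4 (fun k => μ * a k) hsht hcn1 hptw N hNp hXN hNX t ht0.le ht1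
  have hsh := hX₂ X (by omega) (fun k => μ * a k) hsht hcn1 N (by omega) (by omega) (θ X) hθ1 t
    ht0.le ht1
  rw [sc_x2, sc_OD] at hOD
  rw [sc_x2, sc_sh, hcn', ← hl] at hsh
  rw [hμ2] at hOD hsh
  obtain ⟨S, hS⟩ : ∃ S : ℝ, S = ∑ p ∈ PB κ v X, θ X p / p := ⟨_, rfl⟩
  rw [← hS] at hsh hθ2
  have hcoef : 4 * l ^ 2 - 8 * t * κ * S +
      Cm * (κ₁ + ((∫ u in Set.Ioi (0 : ℝ), g u) - 1 / Real.pi)) + Cm * t ^ 2 * S ≤
      4 * l ^ 2 - 5 * γ := by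
    have h2 : κ / (K * v) ≤ S := by
      refine le_trans ?_ hθ2
      apply div_le_div_of_nonneg_left hκ0.le (by positivity)
      exact mul_le_mul_of_nonneg_right hKa hv0.le
    have hS0 : 0 ≤ S := le_trans (by positivity) h2
    have h3 : Cm * t ^ 2 * S ≤ t * κ * S := by
      have h4 : Cm * t ^ 2 ≤ t * κ := by
        calc Cm * t ^ 2 ≤ K * t ^ 2 := mul_le_mul_of_nonneg_right hKm (sq_nonneg t)
          _ = t * (K * t) := by ring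
          _ = t * κ := by rw [htK]
      exact mul_le_mul_of_nonneg_right h4 hS0
    have h5 : Cm * (κ₁ + ((∫ u in Set.Ioi (0 : ℝ), g u) - 1 / Real.pi)) ≤ 2 * γ := by
      have h6 : κ₁ + ((∫ u in Set.Ioi (0 : ℝ), g u) - 1 / Real.pi) ≤ 2 * (γ / K) := by linarith
      calc Cm * (κ₁ + ((∫ u in Set.Ioi (0 : ℝ), g u) - 1 / Real.pi)) ≤ Cm * (2 * (γ / K)) :=
            mul_le_mul_of_nonneg_left h6 (by linarith)
        _ ≤ K * (2 * (γ / K)) := mul_le_mul_of_nonneg_right hKm (by positivity)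
        _ = 2 * γ := by field_simp
    have h7 : γ ≤ t * κ * S := by
      rw [hγ]
      exact mul_le_mul_of_nonneg_left h2 (by positivity)
    linarith
  -- unscaled
  have hOD' : OD ρ B₀ (E2 κ X) (x2 κ v κ₁ t X (θ X) a) N ≤ m * (γ + δ) := by
    have h2 : 1 / m * OD ρ B₀ (E2 κ X) (x2 κ v κ₁ t X (θ X) a) N ≤ γ + δ := by linarith
    rw [div_mul_eq_mul_div, one_mul, div_le_iff₀ hm0] at h2
    linarith
  have hsh' : sh ρ T (E2 κ X) (x2 κ v κ₁ t X (θ X) a) N ≤ (4 * l ^ 2 - 5 * γ) * s + m * δ := by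
    have h2 : 1 / m * sh ρ T (E2 κ X) (x2 κ v κ₁ t X (θ X) a) N ≤
        (4 * l ^ 2 - 5 * γ) * (s / m) + δ := by
      refine hsh.trans ?_
      have := mul_le_mul_of_nonneg_right hcoef (show 0 ≤ s / m by positivity)
      linarith
    rw [div_mul_eq_mul_div, one_mul, div_le_iff₀ hm0] at h2
    calc _ ≤ ((4 * l ^ 2 - 5 * γ) * (s / m) + δ) * m := h2
      _ = _ := by field_simp
  have hQ : QN ρ T B₀ (E2 κ X) (x2 κ v κ₁ t X (θ X) a) N ≤ (4 * l ^ 2 - 4 * γ) * s + e / 4 := by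
    unfold QN
    have h2 : m * γ ≤ (s + σ) * γ := mul_le_mul_of_nonneg_right hm1 hγ0.le
    have h3 : σ * γ ≤ e / 16 * 1 := mul_le_mul hσe (by linarith) hγ0.le (by positivity)
    have h4 : m * δ ≤ e / 16 := by
      rw [← hδ, mul_comm δ]
      exact mul_le_mul_of_nonneg_right hmC hδ0.le
    calc sh ρ T (E2 κ X) (x2 κ v κ₁ t X (θ X) a) N + OD ρ B₀ (E2 κ X) (x2 κ v κ₁ t X (θ X) a) N
        ≤ ((4 * l ^ 2 - 5 * γ) * s + m * δ) + m * (γ + δ) := add_le_add hsh' hOD'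
      _ = (4 * l ^ 2 - 5 * γ) * s + m * γ + 2 * (m * δ) := by ring
      _ ≤ (4 * l ^ 2 - 5 * γ) * s + (s + σ) * γ + 2 * (e / 16) := by linarith
      _ = (4 * l ^ 2 - 4 * γ) * s + σ * γ + 2 * (e / 16) := by ring
      _ ≤ _ := by linarith
  show QN ρ T B₀ (E2 κ X) (fun e => (ell κ v t X (θ X))⁻¹ * x2 κ v κ₁ t X (θ X) a e) N ≤
    (4 - 4 * γ) * cn (zz X) (KA ε₂ X) a + e
  rw [sc_QN, ← hl, ← hs]
  have hl0 : 0 < l := by linarith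
  have hi1 : 1 ≤ l⁻¹ ^ 2 := one_le_pow₀ ((one_le_inv₀ hl0).mpr hl2)
  have hi2 : l⁻¹ ^ 2 ≤ 4 := by
    have h2 : l⁻¹ ≤ 2 := inv_le_of_inv_le₀ (by norm_num) (by linarith)
    calc l⁻¹ ^ 2 ≤ 2 ^ 2 := pow_le_pow_left₀ (by positivity) h2 2
      _ = 4 := by norm_num
  have hi3 : l⁻¹ ^ 2 * l ^ 2 = 1 := by
    rw [← mul_pow, inv_mul_cancel₀ hl0.ne', one_pow]
  calc l⁻¹ ^ 2 * QN ρ T B₀ (E2 κ X) (x2 κ v κ₁ t X (θ X) a) N
      ≤ l⁻¹ ^ 2 * ((4 * l ^ 2 - 4 * γ) * s + e / 4) :=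
        mul_le_mul_of_nonneg_left hQ (by positivity)
    _ = 4 * s * (l⁻¹ ^ 2 * l ^ 2) - 4 * γ * s * l⁻¹ ^ 2 + l⁻¹ ^ 2 * (e / 4) := by ring
    _ ≤ 4 * s * 1 - 4 * γ * s * 1 + 4 * (e / 4) := by
        rw [hi3]
        have h2 : 4 * γ * s * 1 ≤ 4 * γ * s * l⁻¹ ^ 2 :=
          mul_le_mul_of_nonneg_left hi1 (by positivity)
        have h3 : l⁻¹ ^ 2 * (e / 4) ≤ 4 * (e / 4) := mul_le_mul_of_nonneg_right hi2 (by positivity)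
        linarith
    _ = (4 - 4 * γ) * s + e := by ring

end Pool.Agent.LSP
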