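import Pool.Agent.Lib_helper41.LSP25.Defs

/-! LSP2.5: long ranges without exceptional zeros. -/

set_option autoImplicit false

namespace Pool.Agent.GA

open Finset Complex Metric Filter
open scoped ArithmeticFunction.vonMangoldt Classical Topology

theorem rng_finite (w : ℝ) {D : ℕ} (hD : 2 ≤ D) :
    {β : ℝ | 1 - w < β ∧ ∃ q ∈ Icc 1 D, ∃ χ ∈ Prm q, χ ^ 2 = 1 ∧ LF χ (β : ℂ) = 0}.Finite := by
  have hDR : (2 : ℝ) ≤ D := by exact_mod_cast hD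
  have hlD0 : 0 < Real.log D := Real.log_pos (by linarith)
  have h := z4_finite (w * Real.log D) D
  unfold z4_S at h
  rwa [mul_div_cancel_right₀ _ hlD0.ne'] at h

/-- long ranges without exceptional zeros -/
theorem free_ranges : ∃ c : ℝ, 0 < c ∧ ∀ lam κ K : ℝ, 0 < lam → 0 < κ → 1 ≤ K →
    lam * κ * K < c → ∀ X₀ : ℝ, ∃ X : ℝ, X₀ ≤ X ∧ 2 ≤ X ∧ ∀ Y : ℝ, X ≤ Y → Y ≤ X ^ K →
      Free (lam / Real.log Y) ⌊Y ^ κ⌋₊ := by
  obtain ⟨cL, hcL, hL⟩ := landau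
  refine ⟨cL, hcL, fun lam κ K hlam hκ hK hlt X₀ => ?_⟩
  obtain ⟨X, hX⟩ : ∃ X : ℝ, X = max (max X₀ 2) ((2 : ℝ) ^ (1 / κ)) := ⟨_, rfl⟩
  have hX0 : X₀ ≤ X := by
    rw [hX]
    exact (le_max_left _ _).trans (le_max_left _ _)
  have hX2 : 2 ≤ X := by
    rw [hX]
    exact (le_max_right _ _).trans (le_max_left _ _)
  have hXκ : 2 ≤ X ^ κ := by
    have h1 : (2 : ℝ) ^ (1 / κ) ≤ X := by
      rw [hX]
      exact le_max_right _ _
    have h2 : ((2 : ℝ) ^ (1 / κ)) ^ κ ≤ X ^ κ := Real.rpow_le_rpow (by positivity) h1 hκ.le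
    rwa [← Real.rpow_mul (by norm_num), one_div_mul_cancel hκ.ne', Real.rpow_one] at h2
  by_cases hgood : ∀ Y : ℝ, X ≤ Y → Y ≤ X ^ K → Free (lam / Real.log Y) ⌊Y ^ κ⌋₊
  · exact ⟨X, hX0, hX2, hgood⟩
  push Not at hgood
  obtain ⟨Y, hXY, hYX, hbad⟩ := hgood
  have hXp : 0 < X := by linarith
  have hlX : 0 < Real.log X := Real.log_pos (by linarith)
  have hlXY : Real.log X ≤ Real.log Y := Real.log_le_log hXp hXY
  obtain ⟨D, hD⟩ : ∃ D : ℕ, D = ⌊X ^ (K * κ)⌋₊ := ⟨_, rfl⟩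
  have hD2 : 2 ≤ D := by
    rw [hD]
    apply Nat.le_floor
    push_cast
    refine hXκ.trans (Real.rpow_le_rpow_of_exponent_le (by linarith) ?_)
    nlinarith
  have hYD : ⌊Y ^ κ⌋₊ ≤ D := by
    rw [hD]
    apply Nat.floor_le_floor
    calc Y ^ κ ≤ (X ^ K) ^ κ := Real.rpow_le_rpow (by linarith) hYX hκ.le
      _ = X ^ (K * κ) := by rw [← Real.rpow_mul hXp.le]
  -- the set of the zeros
  obtain ⟨S, hS⟩ : ∃ S : Set ℝ, S = {β : ℝ | 1 - lam / Real.log X < β ∧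
      ∃ q ∈ Icc 1 D, ∃ χ ∈ Prm q, χ ^ 2 = 1 ∧ LF χ (β : ℂ) = 0} := ⟨_, rfl⟩
  have hfin : S.Finite := by
    rw [hS]
    exact rng_finite _ hD2
  unfold Free at hbad
  push Not at hbad
  obtain ⟨q₀, hq₀, χ₀, hχ₀, hχ₀2, β₀, hβ₀, hβ₀'⟩ := hbad
  have hw : lam / Real.log Y ≤ lam / Real.log X :=
    div_le_div_of_nonneg_left hlam.le hlX hlXY
  have hβ₀S : β₀ ∈ S := by
    rw [hS]
    refine ⟨by linarith, q₀, ?_, χ₀, hχ₀, hχ₀2, hβ₀⟩
    rw [Finset.mem_Icc] at hq₀ ⊢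
    exact ⟨hq₀.1, hq₀.2.trans hYD⟩
  obtain ⟨β, hβS, hmax⟩ := Set.exists_max_image S id hfin ⟨β₀, hβ₀S⟩
  have hβ₀β : β₀ ≤ β := hmax β₀ hβ₀S
  have hβS' := hβS
  rw [hS] at hβS'
  obtain ⟨hβ1, q, hq, χ, hχ, hχ2, hβ0⟩ := hβS'
  have hq1 : 1 ≤ q := (Finset.mem_Icc.1 hq).1
  have : NeZero q := ⟨by omega⟩
  obtain ⟨-, hχ1⟩ := z3_Prm hχ
  have hre := z3_zero_re hχ1 hβ0
  rw [Complex.ofReal_re] at hre
  have hx0 : 0 < 1 - β := by linarith
  obtain ⟨E, hE⟩ : ∃ E : ℝ, E = lam / (1 - β) := ⟨_, rfl⟩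
  have hE0 : 0 < E := by rw [hE]; positivity
  have hEβ : lam / E = 1 - β := by rw [hE]; field_simp
  have hEX : Real.log X < E := by
    rw [hE, lt_div_iff₀ hx0]
    have h1 : 1 - β < lam / Real.log Y := by linarith
    have h2 : 1 - β < lam / Real.log X := lt_of_lt_of_le h1 hw
    rw [lt_div_iff₀ hlX] at h2
    linarith
  have hXE : X < Real.exp E := (Real.log_lt_iff_lt_exp hXp).1 hEX
  refine ⟨Real.exp E, by linarith, by linarith, fun Z hZ1 hZ2 q' hq' χ' hχ' hχ'2 β' hβ' => ?_⟩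
  by_contra hcon
  push Not at hcon
  have hZ0 : 0 < Z := lt_of_lt_of_le (Real.exp_pos _) hZ1
  have hZE : E ≤ Real.log Z := (Real.le_log_iff_exp_le hZ0).2 hZ1
  have hlZ0 : 0 < Real.log Z := by linarith
  have hZE2 : Real.log Z ≤ K * E := by
    have h1 := Real.log_le_log hZ0 hZ2
    rwa [Real.log_rpow (Real.exp_pos _), Real.log_exp] at h1
  have hββ' : β < β' := by
    have h1 : lam / Real.log Z ≤ lam / E := div_le_div_of_nonneg_left hlam.le hE0 hZE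
    rw [hEβ] at h1
    linarith
  have hq'D : D < q' := by
    by_contra h
    push Not at h
    have h2 : β' ∈ S := by
      rw [hS]
      exact ⟨by linarith, q', Finset.mem_Icc.2 ⟨(Finset.mem_Icc.1 hq').1, h⟩, χ', hχ', hχ'2, hβ'⟩
    have h3 : β' ≤ β := hmax β' h2
    linarith
  obtain ⟨D', hD'⟩ : ∃ D' : ℕ, D' = ⌊Z ^ κ⌋₊ := ⟨_, rfl⟩
  rw [← hD'] at hq'
  have hq'D' := (Finset.mem_Icc.1 hq').2
  have hD'2 : 2 ≤ D' := by omega
  have hqD' : q ∈ Icc 1 D' := Finset.mem_Icc.2 ⟨hq1, by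
    have := (Finset.mem_Icc.1 hq).2
    omega⟩
  have hne : q ≠ q' := by
    have := (Finset.mem_Icc.1 hq).2
    omega
  have h1 := hL D' hD'2 q hqD' q' hq' hne χ hχ χ' hχ' hχ2 hχ'2 β β' hβ0 hβ'
  rw [min_eq_left hββ'.le] at h1
  have hD'R : (2 : ℝ) ≤ D' := by exact_mod_cast hD'2
  have hlD' : 0 < Real.log D' := Real.log_pos (by linarith)
  have hlD'2 : Real.log D' ≤ κ * (K * E) := by
    have h2 : (D' : ℝ) ≤ Z ^ κ := by
      rw [hD']
      exact Nat.floor_le (by positivity)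
    have h3 := Real.log_le_log (by linarith) h2
    rw [Real.log_rpow hZ0] at h3
    exact h3.trans (mul_le_mul_of_nonneg_left hZE2 hκ.le)
  have h2 : cL / Real.log D' ≤ lam / E := by
    rw [hEβ]
    linarith
  rw [div_le_div_iff₀ hlD' hE0] at h2
  have h3 : cL * E ≤ lam * κ * K * E := by
    calc cL * E ≤ lam * Real.log D' := h2
      _ ≤ lam * (κ * (K * E)) := mul_le_mul_of_nonneg_left hlD'2 hlam.le
      _ = lam * κ * K * E := by ring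
  have h4 : cL ≤ lam * κ * K := le_of_mul_le_mul_right h3 hE0
  linarith

end Pool.Agent.GA
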