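import Pool.Agent.Lib_helper41.LSP25.Defs

/-!
# LSP2.5, block V1: at most one exceptional zero, counted with multiplicity
-/

set_option autoImplicit false

namespace Pool.Agent.GA

open Finset Complex Metric Filter
open scoped ArithmeticFunction.vonMangoldt ComplexConjugate Classical Topology

/-- `nontrivial_upper` with the multiplicities -/
theorem v1h5_upper : ∃ C : ℝ, 1 ≤ C ∧ ∀ (q : ℕ) [NeZero q] (χ : DirichletCharacter ℂ q),
    χ ≠ 1 → ∀ t σ ℒ : ℝ, lt q t ≤ ℒ → Real.exp (-ℒ) ≤ σ → σ ≤ 1 / 16 →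
    ∀ T : Finset ℂ, (∀ ρ ∈ T, LF χ ρ = 0 ∧ ‖1 + σ + t * I - ρ‖ ≤ 1 / 4) →
      (Gj χ 0 (1 + σ + t * I)).re ≤
        C * ℒ - ∑ ρ ∈ T, mlt (LF χ) ρ * (1 / (1 + σ + t * I - ρ)).re := by
  obtain ⟨C, hC, h⟩ := local_expansion
  refine ⟨C, hC, fun q _ χ hχ t σ ℒ hL hσ hσ1 T hT => ?_⟩
  have hσ0 : 0 < σ := lt_of_lt_of_le (Real.exp_pos _) hσ
  have h1 := h q χ hχ t σ ℒ hL hσ hσ1 0
  simp only [Nat.factorial_zero, Nat.cast_one, div_one, zero_add, pow_one, pow_zero,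
    mul_one] at h1
  have hd := LF_diff hχ
  have h0 : LF χ 2 ≠ 0 := LF_ne_zero hχ (by norm_num)
  set c : ℂ := 1 + σ + t * I with hc
  have hcre : c.re = 1 + σ := by simp [hc]
  have h2 := (Complex.abs_re_le_norm _).trans h1
  rw [Complex.add_re, abs_le] at h2
  have h3 : ∑ ρ ∈ T, mlt (LF χ) ρ * (1 / (c - ρ)).re ≤
      (∑ ρ ∈ zb (LF χ) c (1 / 4), (mlt (LF χ) ρ : ℂ) / (c - ρ)).re := by
    rw [Complex.re_sum]
    have hsub : T ⊆ zb (LF χ) c (1 / 4) := by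
      intro ρ hρ
      rw [mem_zb hd h0]
      refine ⟨(hT ρ hρ).1, ?_⟩
      rw [mem_closedBall, dist_comm, dist_eq_norm]
      exact (hT ρ hρ).2
    have hre : ∀ ρ ∈ zb (LF χ) c (1 / 4), 0 ≤ (1 / (c - ρ)).re ∧
        ((mlt (LF χ) ρ : ℂ) / (c - ρ)).re = mlt (LF χ) ρ * (1 / (c - ρ)).re := by
      intro ρ hρ
      have h4 := ((mem_zb hd h0 c (1 / 4) ρ).1 hρ).1
      have h5 := z3_zero_re hχ h4
      refine ⟨z2_re_inv_nonneg (by linarith), ?_⟩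
      have h6 : (mlt (LF χ) ρ : ℂ) / (c - ρ) = (mlt (LF χ) ρ : ℂ) * (1 / (c - ρ)) := by ring
      rw [h6, Complex.re_ofReal_mul]
    refine le_trans (Finset.sum_le_sum fun ρ hρ => ?_)
      (Finset.sum_le_sum_of_subset_of_nonneg hsub fun ρ hρ _ => ?_)
    · rw [(hre ρ (hsub hρ)).2]
    · have h4 := hre ρ hρ
      rw [h4.2]
      exact mul_nonneg (mlt_nonneg _ _) h4.1
  linarith [h2.2]

/-- two real zeros, or a double one, of one real character -/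
theorem v1h5_two : ∃ c : ℝ, 0 < c ∧ ∀ D : ℕ, 2 ≤ D → ∀ q ∈ Icc 1 D, ∀ χ ∈ Prm q,
    χ ^ 2 = 1 → ∀ β₁ β₂ : ℝ, LF χ (β₁ : ℂ) = 0 → LF χ (β₂ : ℂ) = 0 →
      (β₁ = β₂ → 2 ≤ mlt (LF χ) (β₁ : ℂ)) → min β₁ β₂ ≤ 1 - c / Real.log D := by
  obtain ⟨C₁, hC₁, hP⟩ := principal_upper
  obtain ⟨C₂, hC₂, hN⟩ := v1h5_upper
  set C : ℝ := C₁ + C₂ with hC
  set a : ℝ := 1 / (64 * C) with ha
  have hC0 : 2 ≤ C := by linarith
  have ha0 : 0 < a := by positivity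
  have haC : a * C = 1 / 64 := by rw [ha]; field_simp
  have ha1 : a ≤ 1 / 64 := by nlinarith
  obtain ⟨A, hA, hpar⟩ := z3_par ha0
  refine ⟨min ((1 / 2) * a / A) (1 / 32), by positivity,
    fun D hD q hq χ hχ hχ2 β₁ β₂ hβ₁ hβ₂ hm => ?_⟩
  obtain ⟨hℒ1, hexp, hσa, hlt, -⟩ := hpar D hD
  apply z3_final ha0 hA (by norm_num) hD
  by_cases hcase : 1 / 16 ≤ 1 - min β₁ β₂
  · left; exact hcase
  right
  push Not at hcase
  set ℒ : ℝ := A * Real.log D with hℒ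
  set σ : ℝ := a / ℒ with hσ
  have hσ0 : 0 < σ := by positivity
  have hσ1 : σ ≤ 1 / 16 := by linarith
  have hq1 : 1 ≤ q := (Finset.mem_Icc.1 hq).1
  have : NeZero q := ⟨by omega⟩
  obtain ⟨-, hχ1⟩ := z3_Prm hχ
  have hd := LF_diff hχ1
  have h02 : LF χ 2 ≠ 0 := LF_ne_zero hχ1 (by norm_num)
  have hre1 := z3_zero_re hχ1 hβ₁
  have hre2 := z3_zero_re hχ1 hβ₂
  rw [Complex.ofReal_re] at hre1 hre2
  set β : ℝ := min β₁ β₂ with hβ
  have hβ1 : β ≤ β₁ := min_le_left _ _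
  have hβ2 : β ≤ β₂ := min_le_right _ _
  have hx0 : 0 < 1 - β := by linarith
  have hDR : (2 : ℝ) ≤ D := by exact_mod_cast hD
  have hc1 : C₁ * ℒ ≤ C * ℒ := mul_le_mul_of_nonneg_right (by linarith) (by linarith)
  have hc2 : C₂ * ℒ ≤ C * ℒ := mul_le_mul_of_nonneg_right (by linarith) (by linarith)
  have hCL : C * ℒ = 1 / (64 * σ) := by
    have : C * ℒ * σ = 1 / 64 := by
      rw [hσ, ← haC]; field_simp
    field_simp
    linarith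
  have h0 := pos_two hχ2 hσ0
  have h1 := hP q 0 σ ℒ (hlt q hq 0 (by rw [abs_zero]; positivity)) hℒ1 hexp hσ1
  have hval : ∀ β' : ℝ, (1 + σ + ((0 : ℝ) : ℂ) * I - (β' : ℂ) : ℂ) = ((σ + (1 - β') : ℝ) : ℂ) := by
    intro β'
    push_cast; ring
  have hnorm : ∀ β' : ℝ, β ≤ β' → β' < 1 → ‖(1 + σ + ((0 : ℝ) : ℂ) * I - (β' : ℂ) : ℂ)‖ ≤ 1 / 4 := by
    intro β' h h'
    rw [hval, Complex.norm_real, Real.norm_of_nonneg (by linarith)]
    linarith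
  have hinv : ∀ β' : ℝ, β ≤ β' → β' < 1 →
      1 / (σ + (1 - β)) ≤ (1 / (1 + σ + ((0 : ℝ) : ℂ) * I - (β' : ℂ) : ℂ)).re := by
    intro β' h h'
    rw [hval, z3_inv hσ0 (by linarith)]
    exact one_div_le_one_div_of_le (by linarith) (by linarith)
  have hi0 : 0 < 1 / (σ + (1 - β)) := by positivity
  -- the bound for `χ`
  have h2 : (Gj χ 0 (1 + σ + ((0 : ℝ) : ℂ) * I)).re ≤ C₂ * ℒ - 2 * (1 / (σ + (1 - β))) := by
    by_cases hne : β₁ = β₂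
    · have h3 := hN q χ hχ1 0 σ ℒ (hlt q hq 0 (by rw [abs_zero]; positivity)) hexp hσ1
        {(β₁ : ℂ)} (by
        intro ρ' hρ'
        rw [Finset.mem_singleton] at hρ'
        subst hρ'
        exact ⟨hβ₁, hnorm β₁ hβ1 hre1⟩)
      rw [Finset.sum_singleton] at h3
      have h4 := hm hne
      have h5 := hinv β₁ hβ1 hre1
      have h6 : 2 * (1 / (σ + (1 - β))) ≤ mlt (LF χ) (β₁ : ℂ) *
          (1 / (1 + σ + ((0 : ℝ) : ℂ) * I - (β₁ : ℂ) : ℂ)).re :=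
        mul_le_mul h4 h5 hi0.le (by linarith)
      linarith
    · have hneC : (β₁ : ℂ) ≠ (β₂ : ℂ) := by
        intro h
        exact hne (Complex.ofReal_injective h)
      have h3 := hN q χ hχ1 0 σ ℒ (hlt q hq 0 (by rw [abs_zero]; positivity)) hexp hσ1
        {(β₁ : ℂ), (β₂ : ℂ)} (by
        intro ρ' hρ'
        rw [Finset.mem_insert, Finset.mem_singleton] at hρ'
        rcases hρ' with rfl | rfl
        · exact ⟨hβ₁, hnorm β₁ hβ1 hre1⟩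
        · exact ⟨hβ₂, hnorm β₂ hβ2 hre2⟩)
      rw [Finset.sum_pair hneC] at h3
      have h4 := one_le_mlt hd h02 hβ₁
      have h4' := one_le_mlt hd h02 hβ₂
      have h5 := hinv β₁ hβ1 hre1
      have h5' := hinv β₂ hβ2 hre2
      have h6 : 1 * (1 / (σ + (1 - β))) ≤ mlt (LF χ) (β₁ : ℂ) *
          (1 / (1 + σ + ((0 : ℝ) : ℂ) * I - (β₁ : ℂ) : ℂ)).re :=
        mul_le_mul h4 h5 hi0.le (by linarith)
      have h6' : 1 * (1 / (σ + (1 - β))) ≤ mlt (LF χ) (β₂ : ℂ) *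
          (1 / (1 + σ + ((0 : ℝ) : ℂ) * I - (β₂ : ℂ) : ℂ)).re :=
        mul_le_mul h4' h5' hi0.le (by linarith)
      linarith
  rw [z1_c0] at h1 h2
  have e2 : σ / (σ ^ 2 + 0 ^ 2) = 1 / σ := by field_simp; ring
  rw [e2] at h1
  have h5 : 2 * (1 / (σ + (1 - β))) ≤ 1 / σ + 2 * (1 / (64 * σ)) := by
    rw [← hCL]
    linarith
  have h6 : 1 / σ + 2 * (1 / (64 * σ)) = (1 + 2 / 64) / σ := by field_simp
  rw [h6, mul_one_div, div_le_div_iff₀ (by positivity) hσ0] at h5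
  linarith

/-- two real characters of the same conductor -/
theorem v1h5_same : ∃ c : ℝ, 0 < c ∧ ∀ D : ℕ, 2 ≤ D → ∀ q ∈ Icc 1 D, ∀ χ₁ ∈ Prm q,
    ∀ χ₂ ∈ Prm q, χ₁ ≠ χ₂ → χ₁ ^ 2 = 1 → χ₂ ^ 2 = 1 → ∀ β₁ β₂ : ℝ,
      LF χ₁ (β₁ : ℂ) = 0 → LF χ₂ (β₂ : ℂ) = 0 → min β₁ β₂ ≤ 1 - c / Real.log D := by
  obtain ⟨C₁, hC₁, hP⟩ := principal_upper
  obtain ⟨C₂, hC₂, hN⟩ := nontrivial_upper
  set C : ℝ := C₁ + C₂ with hC
  set a : ℝ := 1 / (64 * C) with ha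
  have hC0 : 2 ≤ C := by linarith
  have ha0 : 0 < a := by positivity
  have haC : a * C = 1 / 64 := by rw [ha]; field_simp
  have ha1 : a ≤ 1 / 64 := by nlinarith
  obtain ⟨A, hA, hpar⟩ := z3_par ha0
  refine ⟨min ((1 / 2) * a / A) (1 / 32), by positivity,
    fun D hD q hq χ₁ hχ₁ χ₂ hχ₂ hne hχ₁2 hχ₂2 β₁ β₂ hβ₁ hβ₂ => ?_⟩
  obtain ⟨hℒ1, hexp, hσa, hlt, -⟩ := hpar D hD
  apply z3_final ha0 hA (by norm_num) hD
  by_cases hcase : 1 / 16 ≤ 1 - min β₁ β₂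
  · left; exact hcase
  right
  push Not at hcase
  set ℒ : ℝ := A * Real.log D with hℒ
  set σ : ℝ := a / ℒ with hσ
  have hσ0 : 0 < σ := by positivity
  have hσ1 : σ ≤ 1 / 16 := by linarith
  have hq1 : 1 ≤ q := (Finset.mem_Icc.1 hq).1
  have : NeZero q := ⟨by omega⟩
  obtain ⟨-, hχ₁1⟩ := z3_Prm hχ₁
  obtain ⟨-, hχ₂1⟩ := z3_Prm hχ₂
  have hre1 := z3_zero_re hχ₁1 hβ₁
  have hre2 := z3_zero_re hχ₂1 hβ₂
  rw [Complex.ofReal_re] at hre1 hre2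
  set β : ℝ := min β₁ β₂ with hβ
  have hβ1 : β ≤ β₁ := min_le_left _ _
  have hβ2 : β ≤ β₂ := min_le_right _ _
  have hψ : χ₁ * χ₂ ≠ 1 := by
    intro h
    apply hne
    have h1 : χ₁ * χ₂ = χ₂ * χ₂ := by rw [h, ← sq, hχ₂2]
    exact mul_right_cancel h1
  have h0 := pos_four hχ₁2 hχ₂2 hσ0
  have hDR : (2 : ℝ) ≤ D := by exact_mod_cast hD
  have hlt0 := hlt q hq 0 (by rw [abs_zero]; positivity)
  have h1 := hP q 0 σ ℒ hlt0 hℒ1 hexp hσ1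
  have h4 := hN q (χ₁ * χ₂) hψ 0 σ ℒ hlt0 hexp hσ1 ∅ (by simp)
  have key : ∀ (χ : DirichletCharacter ℂ q) (_ : χ ≠ 1)
      (β' : ℝ) (_ : LF χ (β' : ℂ) = 0) (_ : β ≤ β') (_ : β' < 1),
      (Gj χ 0 (1 + σ)).re ≤ C₂ * ℒ - 1 / (σ + (1 - β)) := by
    intro χ hχ β' hβ' hββ hβ1
    have h2 := hN q χ hχ 0 σ ℒ hlt0 hexp hσ1 {(β' : ℂ)} (by
      intro ρ' hρ'
      rw [Finset.mem_singleton] at hρ'
      subst hρ'
      refine ⟨hβ', ?_⟩
      have e : (1 + σ + ((0 : ℝ) : ℂ) * I - (β' : ℂ) : ℂ) = ((σ + (1 - β') : ℝ) : ℂ) := by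
        push_cast; ring
      rw [e, Complex.norm_real, Real.norm_of_nonneg (by linarith)]
      linarith)
    rw [Finset.sum_singleton] at h2
    have e : (1 + σ + ((0 : ℝ) : ℂ) * I - (β' : ℂ) : ℂ) = ((σ + (1 - β') : ℝ) : ℂ) := by
      push_cast; ring
    rw [e, z3_inv hσ0 (by linarith), z1_c0] at h2
    have h6 : 1 / (σ + (1 - β)) ≤ 1 / (σ + (1 - β')) :=
      one_div_le_one_div_of_le (by linarith) (by linarith)
    linarith
  have k1 := key χ₁ hχ₁1 β₁ hβ₁ hβ1 hre1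
  have k2 := key χ₂ hχ₂1 β₂ hβ₂ hβ2 hre2
  rw [z1_c0] at h1 h4
  rw [Finset.sum_empty, sub_zero] at h4
  have e2 : σ / (σ ^ 2 + 0 ^ 2) = 1 / σ := by field_simp; ring
  rw [e2] at h1
  have hc1 : C₁ * ℒ ≤ C * ℒ := mul_le_mul_of_nonneg_right (by linarith) (by linarith)
  have hc2 : C₂ * ℒ ≤ C * ℒ := mul_le_mul_of_nonneg_right (by linarith) (by linarith)
  have hCL : C * ℒ = 1 / (64 * σ) := by
    have : C * ℒ * σ = 1 / 64 := by
      rw [hσ, ← haC]; field_simp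
    field_simp
    linarith
  have h5 : 2 * (1 / (σ + (1 - β))) ≤ 1 / σ + 6 * (1 / (64 * σ)) := by
    rw [← hCL]
    linarith
  have hx0 : 0 < 1 - β := by linarith
  have h6 : 1 / σ + 6 * (1 / (64 * σ)) = (1 + 6 / 64) / σ := by field_simp
  rw [h6, mul_one_div, div_le_div_iff₀ (by positivity) hσ0] at h5
  linarith

theorem page_pr : ∃ c : ℝ, 0 < c ∧ ∀ D : ℕ, 2 ≤ D → ∃ (e : Sg) (β : ℝ), Exc D e ∧
    (e.1 ∈ Icc 1 D → LF e.2 (β : ℂ) = 0 ∧ mlt (LF e.2) (β : ℂ) = 1 ∧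
      ∀ ρ : ℂ, LF e.2 ρ = 0 → |ρ.im| ≤ D → ρ ≠ (β : ℂ) → ρ.re ≤ 1 - c / Real.log D) ∧
    ∀ q ∈ Icc 1 D, ∀ χ ∈ Prm q, (⟨q, χ⟩ : Sg) ≠ e → ∀ ρ : ℂ, LF χ ρ = 0 → |ρ.im| ≤ D →
      ρ.re ≤ 1 - c / Real.log D := by
  obtain ⟨c₁, hc₁, h₁⟩ := zero_free_complex
  obtain ⟨c₂, hc₂, h₂⟩ := zero_free_real
  obtain ⟨c₃, hc₃, h₃⟩ := landau
  obtain ⟨c₄, hc₄, h₄⟩ := v1h5_same
  obtain ⟨c₅, hc₅, h₅⟩ := v1h5_two
  obtain ⟨c, hc, l₁, l₂, l₃, l₄, l₅⟩ : ∃ c : ℝ, 0 < c ∧ c ≤ c₁ ∧ c ≤ c₂ ∧ c ≤ c₃ ∧ c ≤ c₄ ∧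
      c ≤ c₅ := by
    refine ⟨min c₁ (min c₂ (min c₃ (min c₄ c₅))), by positivity, min_le_left _ _,
      (min_le_right _ _).trans (min_le_left _ _),
      (min_le_right _ _).trans ((min_le_right _ _).trans (min_le_left _ _)),
      (min_le_right _ _).trans ((min_le_right _ _).trans ((min_le_right _ _).trans
        (min_le_left _ _))),
      (min_le_right _ _).trans ((min_le_right _ _).trans ((min_le_right _ _).trans
        (min_le_right _ _)))⟩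
  refine ⟨c, hc, fun D hD => ?_⟩
  have hDR : (2 : ℝ) ≤ D := by exact_mod_cast hD
  have hlD0 : 0 < Real.log D := Real.log_pos (by linarith)
  have key : ∀ {x c' : ℝ}, c ≤ c' → x ≤ 1 - c' / Real.log D → x ≤ 1 - c / Real.log D := by
    intro x c' hc' h
    have : c / Real.log D ≤ c' / Real.log D := div_le_div_of_nonneg_right hc' hlD0.le
    linarith
  -- everything but the real zeros of real characters
  have hgen : ∀ q ∈ Icc 1 D, ∀ χ ∈ Prm q, ∀ ρ : ℂ, LF χ ρ = 0 → |ρ.im| ≤ D →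
      ρ.re ≤ 1 - c / Real.log D ∨ (χ ^ 2 = 1 ∧ ρ = (ρ.re : ℂ)) := by
    intro q hq χ hχ ρ hρ him
    by_cases h2 : χ ^ 2 = 1
    · by_cases h0 : ρ.im = 0
      · right
        exact ⟨h2, by apply Complex.ext <;> simp [h0]⟩
      · left
        exact key l₂ (h₂ D hD q hq χ hχ h2 ρ hρ him h0)
    · left
      exact key l₁ (h₁ D hD q hq χ hχ h2 ρ hρ him)
  by_cases hex : ∃ q ∈ Icc 1 D, ∃ χ ∈ Prm q, χ ^ 2 = 1 ∧ ∃ β : ℝ, LF χ (β : ℂ) = 0 ∧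
      1 - c / Real.log D < β
  · obtain ⟨q, hq, χ, hχ, hχ2, β, hβ, hβ1⟩ := hex
    have hq1 : 1 ≤ q := (Finset.mem_Icc.1 hq).1
    have : NeZero q := ⟨by omega⟩
    obtain ⟨-, hχ1⟩ := z3_Prm hχ
    have hd := LF_diff hχ1
    have h02 : LF χ 2 ≠ 0 := LF_ne_zero hχ1 (by norm_num)
    refine ⟨⟨q, χ⟩, β, fun _ => ⟨hχ, hχ2⟩, fun _ => ⟨hβ, ?_, ?_⟩, ?_⟩
    · -- the multiplicity
      have h1 := one_le_mlt hd h02 hβ
      have h1' : ¬ 2 ≤ mlt (LF χ) (β : ℂ) := by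
        intro h
        have h6 := key l₅ (h₅ D hD q hq χ hχ hχ2 β β hβ hβ (fun _ => h))
        rw [min_self] at h6
        linarith
      show mlt (LF χ) (β : ℂ) = 1
      unfold mlt at h1 h1' ⊢
      have h7 : 1 ≤ analyticOrderNatAt (LF χ) (β : ℂ) := by exact_mod_cast h1
      have h8 : ¬ 2 ≤ analyticOrderNatAt (LF χ) (β : ℂ) := by
        intro h
        exact h1' (by exact_mod_cast h)
      have h9 : analyticOrderNatAt (LF χ) (β : ℂ) = 1 := by omega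
      rw [h9, Nat.cast_one]
    · intro ρ hρ him hne
      rcases hgen q hq χ hχ ρ hρ him with h | ⟨-, h⟩
      · exact h
      · have hρ' : LF χ ((ρ.re : ℝ) : ℂ) = 0 := by rw [← h]; exact hρ
        have h6 := key l₅ (h₅ D hD q hq χ hχ hχ2 β ρ.re hβ hρ' (fun h7 => by
          exfalso
          apply hne
          rw [h7]
          exact h))
        rcases min_le_iff.1 h6 with h8 | h8
        · linarith
        · exact h8
    · intro q' hq' χ' hχ' hne ρ hρ him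
      rcases hgen q' hq' χ' hχ' ρ hρ him with h | ⟨hχ'2, h⟩
      · exact h
      · have hρ' : LF χ' ((ρ.re : ℝ) : ℂ) = 0 := by rw [← h]; exact hρ
        by_cases hqq : q = q'
        · subst hqq
          have hne' : χ ≠ χ' := by
            rintro rfl
            exact hne rfl
          have h6 := key l₄ (h₄ D hD q hq χ hχ χ' hχ' hne' hχ2 hχ'2 β ρ.re hβ hρ')
          rcases min_le_iff.1 h6 with h8 | h8
          · linarith
          · exact h8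
        · have h6 := key l₃ (h₃ D hD q hq q' hq' hqq χ hχ χ' hχ' hχ2 hχ'2 β ρ.re hβ hρ')
          rcases min_le_iff.1 h6 with h8 | h8
          · linarith
          · exact h8
  · refine ⟨⟨0, 1⟩, 0, fun h => absurd (Finset.mem_Icc.1 h).1 (by decide),
      fun h => absurd (Finset.mem_Icc.1 h).1 (by decide), ?_⟩
    intro q hq χ hχ _ ρ hρ him
    rcases hgen q hq χ hχ ρ hρ him with h | ⟨hχ2, h⟩
    · exact h
    · by_contra hcon
      push Not at hcon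
      exact hex ⟨q, hq, χ, hχ, hχ2, ρ.re, by rw [← h]; exact hρ, hcon⟩

end Pool.Agent.GA
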