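import Pool.Agent.Lib_helper41.LSP25.Defs

/-!
# LSP2.5, block V2: Gallagher's theorem without a hypothesis on the zeros
-/

set_option autoImplicit false
set_option linter.unusedSectionVars false

namespace Pool.Agent.GA

open Finset Complex Metric Filter
open scoped ArithmeticFunction.vonMangoldt Classical Topology

/-- the zeros of the rectangle with real part at most `1 - w` -/
noncomputable def v2_zn (f : ℂ → ℂ) (w T : ℝ) : Finset ℂ :=
  (zr f (1 / 16) T).filter (fun ρ => ¬ 1 - w < ρ.re)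

theorem v2_split (f : ℂ → ℂ) (w T : ℝ) (g : ℂ → ℝ) :
    ∑ ρ ∈ zr f (1 / 16) T, g ρ = ∑ ρ ∈ zx f w T, g ρ + ∑ ρ ∈ v2_zn f w T, g ρ := by
  unfold zx v2_zn
  exact (Finset.sum_filter_add_sum_filter_not _ _ _).symm

/-- one function: cut the sum over the zeros -/
theorem v2_cut {f : ℂ → ℂ} (hf : Differentiable ℂ f) {c0 : ℂ} (h0 : f c0 ≠ 0) {D L K c₀ : ℝ}
    (hL : 0 < L) (hK : 0 ≤ K) :
    ∑ ρ ∈ v2_zn f (c₀ / L) D, mlt f ρ * Real.exp (-(K * L * (1 - ρ.re) / 4)) ≤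
      Real.exp (-(c₀ * K / 8)) * ∑ i ∈ range (⌊L / 16⌋₊ + 1),
        Real.exp (-(i * K / 8)) * nz f (min ((i + 1) / L) (1 / 16)) D := by
  have hmem := fun a ρ => mem_zr hf h0 a D ρ
  rw [Finset.mul_sum]
  have h1 : ∀ ρ ∈ v2_zn f (c₀ / L) D, mlt f ρ * Real.exp (-(K * L * (1 - ρ.re) / 4)) ≤
      ∑ i ∈ range (⌊L / 16⌋₊ + 1), Real.exp (-(c₀ * K / 8)) * (Real.exp (-(i * K / 8)) *
        (if ρ ∈ zr f (min ((i + 1) / L) (1 / 16)) D then mlt f ρ else 0)) := by
    intro ρ hρ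
    obtain ⟨hρ, hρc⟩ := Finset.mem_filter.1 hρ
    obtain ⟨hz, hre, hre1, him⟩ := (hmem _ ρ).1 hρ
    set u : ℝ := 1 - ρ.re with hu
    have hu0 : 0 ≤ u := by linarith
    have hu1 : u ≤ 1 / 16 := by linarith
    have huc : c₀ / L ≤ u := by
      have := not_lt.1 hρc
      linarith
    have huc' : c₀ ≤ u * L := by
      rwa [div_le_iff₀ hL] at huc
    set i₀ : ℕ := ⌊u * L⌋₊ with hi₀
    have hi1 : (i₀ : ℝ) ≤ u * L := Nat.floor_le (by positivity)
    have hi2 : u * L < i₀ + 1 := Nat.lt_floor_add_one _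
    have hi3 : i₀ ∈ range (⌊L / 16⌋₊ + 1) := by
      rw [Finset.mem_range, Nat.lt_succ_iff]
      apply Nat.floor_le_floor
      nlinarith
    have hin : ρ ∈ zr f (min (((i₀ : ℕ) + 1) / L) (1 / 16)) D := by
      rw [hmem]
      refine ⟨hz, ?_, hre1, him⟩
      have h2 : u ≤ min (((i₀ : ℕ) + 1) / L) (1 / 16) := by
        apply le_min _ hu1
        rw [le_div_iff₀ hL]; exact hi2.le
      linarith
    have hml : 0 ≤ mlt f ρ := by unfold mlt; positivity
    have h3 : mlt f ρ * Real.exp (-(K * L * u / 4)) ≤ Real.exp (-(c₀ * K / 8)) *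
        (Real.exp (-(i₀ * K / 8)) *
        (if ρ ∈ zr f (min (((i₀ : ℕ) + 1) / L) (1 / 16)) D then mlt f ρ else 0)) := by
      rw [if_pos hin, ← mul_assoc, ← Real.exp_add, mul_comm (mlt f ρ)]
      apply mul_le_mul_of_nonneg_right _ hml
      apply Real.exp_le_exp.2
      nlinarith [mul_le_mul_of_nonneg_right huc' hK, mul_le_mul_of_nonneg_right hi1 hK]
    refine h3.trans ?_
    exact Finset.single_le_sum (f := fun i : ℕ => Real.exp (-(c₀ * K / 8)) *
      (Real.exp (-(i * K / 8)) *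
        (if ρ ∈ zr f (min ((i + 1) / L) (1 / 16)) D then mlt f ρ else 0)))
      (fun i _ => by
        have : 0 ≤ (if ρ ∈ zr f (min ((i + 1) / L) (1 / 16)) D then mlt f ρ else 0) := by
          split_ifs
          · exact hml
          · exact le_rfl
        positivity) hi3
  refine (Finset.sum_le_sum h1).trans ?_
  rw [Finset.sum_comm]
  apply Finset.sum_le_sum
  intro i _
  rw [← Finset.mul_sum, ← Finset.mul_sum]
  apply mul_le_mul_of_nonneg_left _ (Real.exp_pos _).le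
  apply mul_le_mul_of_nonneg_left _ (Real.exp_pos _).le
  rw [← Finset.sum_filter]
  unfold nz
  apply Finset.sum_le_sum_of_subset_of_nonneg
  · intro ρ hρ
    exact (Finset.mem_filter.1 hρ).2
  · intro ρ _ _
    unfold mlt; positivity

/-- a family of functions with a log-free zero density estimate -/
theorem v2_zero_sum {ι : Type*} (s : Finset ι) (f : ι → ℂ → ℂ) (c0 : ι → ℂ)
    (hf : ∀ i ∈ s, Differentiable ℂ (f i)) (h0 : ∀ i ∈ s, f i (c0 i) ≠ 0) {D L K c₀ Cd : ℝ}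
    (hL : 0 < L) (hCd : 0 ≤ Cd) (hK : 8 * Cd + 8 ≤ K)
    (hden : ∀ δ : ℝ, 0 ≤ δ → δ ≤ 1 / 16 → ∑ i ∈ s, nz (f i) δ D ≤
      Real.exp (Cd * (1 + δ * L))) :
    ∑ i ∈ s, ∑ ρ ∈ v2_zn (f i) (c₀ / L) D, mlt (f i) ρ * Real.exp (-(K * L * (1 - ρ.re) / 4)) ≤
      2 * Real.exp (2 * Cd) * Real.exp (-(c₀ * K / 8)) := by
  have h1 : ∀ i ∈ s, ∑ ρ ∈ v2_zn (f i) (c₀ / L) D,
      mlt (f i) ρ * Real.exp (-(K * L * (1 - ρ.re) / 4)) ≤
      Real.exp (-(c₀ * K / 8)) * ∑ j ∈ range (⌊L / 16⌋₊ + 1),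
        Real.exp (-(j * K / 8)) * nz (f i) (min ((j + 1) / L) (1 / 16)) D := fun i hi =>
    v2_cut (hf i hi) (h0 i hi) hL (by linarith)
  refine (Finset.sum_le_sum h1).trans ?_
  rw [← Finset.mul_sum, Finset.sum_comm, mul_comm]
  apply mul_le_mul_of_nonneg_right _ (Real.exp_pos _).le
  have h2 : ∀ j ∈ range (⌊L / 16⌋₊ + 1), ∑ i ∈ s, Real.exp (-(j * K / 8)) *
      nz (f i) (min ((j + 1) / L) (1 / 16)) D ≤ Real.exp (2 * Cd) * (Real.exp (-1)) ^ j := by
    intro j _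
    rw [← Finset.mul_sum]
    have h3 : (0 : ℝ) ≤ min (((j : ℕ) + 1) / L) (1 / 16) := le_min (by positivity) (by norm_num)
    have h4 := hden _ h3 (min_le_right _ _)
    have h5 : Cd * (1 + min (((j : ℕ) + 1) / L) (1 / 16) * L) ≤ Cd * (2 + j) := by
      apply mul_le_mul_of_nonneg_left _ hCd
      have h6 : min (((j : ℕ) + 1) / L) (1 / 16) * L ≤ j + 1 := by
        have := mul_le_mul_of_nonneg_right (min_le_left (((j : ℕ) + 1) / L) (1 / 16)) hL.le
        rwa [div_mul_cancel₀ _ hL.ne'] at this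
      linarith
    calc Real.exp (-(j * K / 8)) * ∑ i ∈ s, nz (f i) (min ((j + 1) / L) (1 / 16)) D ≤
        Real.exp (-(j * K / 8)) * Real.exp (Cd * (2 + j)) := by
          apply mul_le_mul_of_nonneg_left _ (Real.exp_pos _).le
          exact h4.trans (Real.exp_le_exp.2 h5)
      _ ≤ Real.exp (2 * Cd) * (Real.exp (-1)) ^ j := by
          rw [← Real.exp_nat_mul, ← Real.exp_add, ← Real.exp_add]
          apply Real.exp_le_exp.2
          have hj : (0 : ℝ) ≤ j := Nat.cast_nonneg j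
          nlinarith [mul_le_mul_of_nonneg_left hK hj]
  refine (Finset.sum_le_sum h2).trans ?_
  rw [← Finset.mul_sum]
  have hex : Real.exp (-1) ≤ 1 / 2 := by
    rw [Real.exp_neg, inv_le_comm₀ (Real.exp_pos _) (by norm_num)]
    have := Real.add_one_le_exp (1 : ℝ)
    norm_num at this ⊢
    linarith
  have hgeo : ∑ j ∈ range (⌊L / 16⌋₊ + 1), (Real.exp (-1)) ^ j ≤ 2 := by
    have h3 := Summable.sum_le_tsum (range (⌊L / 16⌋₊ + 1))
      (fun j _ => pow_nonneg (Real.exp_pos (-1)).le j)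
      (summable_geometric_of_lt_one (Real.exp_pos (-1)).le (by linarith))
    rw [tsum_geometric_of_lt_one (Real.exp_pos (-1)).le (by linarith)] at h3
    refine h3.trans ?_
    rw [inv_le_comm₀ (by linarith) (by norm_num)]
    linarith
  have := mul_le_mul_of_nonneg_left hgeo (Real.exp_pos (2 * Cd)).le
  linarith

/-- **Gallagher's theorem without a hypothesis on the zeros**. -/
theorem gal_SKP_all_pr {c₀ : ℝ} (hc₀ : 0 < c₀) : ∃ C : ℝ, 1 ≤ C ∧ ∃ c : ℝ, 0 < c ∧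
    ∃ A : ℝ, 1 ≤ A ∧ ∀ D : ℕ, 4 ≤ D → ∀ M₀ : ℝ, 2 ≤ M₀ → A * Real.log D ≤ M₀ →
    ∃ ε : (q : ℕ) → DirichletCharacter ℂ q → ℝ, (∀ q χ, 0 ≤ ε q χ) ∧
      ∑ q ∈ Icc 1 D, ∑ χ ∈ Prm q, ε q χ ≤ C * Real.exp (-(c * M₀ / Real.log D)) ∧
      ∀ q ∈ Icc 1 D, ∀ χ ∈ Prm q, ∀ (k : ℕ) (M t : ℝ), M₀ ≤ M → M ^ 2 ≤ k →
        4 * k ≤ D ^ 2 * M → |t| ≤ D / 2 → ‖SKP χ k M t‖ ≤ ε q χ +
          ∑ ρ ∈ zx (LF χ) (c₀ / Real.log D) D, mlt (LF χ) ρ *
            Real.exp (-(M * (1 - ρ.re) / 4)) := by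
  obtain ⟨Cd, hCd, hden⟩ := density
  obtain ⟨C₁, hC₁, hone⟩ := x3_one
  obtain ⟨C₂, hC₂, hpp⟩ := x3_SK_sub_SKP
  refine ⟨2 * Real.exp (2 * Cd) + 1000000 * C₁ + C₂, by
      have := Real.exp_pos (2 * Cd)
      nlinarith, min (c₀ / 8) (1 / 264), by positivity,
    max (8 * Cd + 8) 1500, le_trans (by norm_num) (le_max_right _ _),
    fun D hD M₀ hM2 hMA => ?_⟩
  have hD2 : 2 ≤ D := by omega
  have hDR : (4 : ℝ) ≤ D := by exact_mod_cast hD
  set L : ℝ := Real.log D with hL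
  have hL0 : 0 < L := Real.log_pos (by linarith)
  set K : ℝ := M₀ / L with hK
  have hKL : K * L = M₀ := by rw [hK]; field_simp
  have hM1500 : 1500 * L ≤ M₀ := by
    have := mul_le_mul_of_nonneg_right (le_max_right (8 * Cd + 8) 1500) hL0.le
    linarith
  have hMCd : 8 * Cd + 8 ≤ K := by
    rw [hK, le_div_iff₀ hL0]
    have := mul_le_mul_of_nonneg_right (le_max_left (8 * Cd + 8) 1500) hL0.le
    linarith
  have hne : ∀ q ∈ Icc 1 D, NeZero q := fun q hq => ⟨by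
    have := (Finset.mem_Icc.1 hq).1
    omega⟩
  have hDsq : (0 : ℝ) < (D : ℝ) ^ 2 := by positivity
  set E : ℝ := 1000000 * C₁ * Real.exp (-(M₀ / 132)) / (D : ℝ) ^ 2 +
    C₂ * Real.exp (-(M₀ / 8)) / (D : ℝ) ^ 2 with hE
  have hE0 : 0 ≤ E := by positivity
  have hmlt : ∀ (q : ℕ) (χ : DirichletCharacter ℂ q) (ρ : ℂ), 0 ≤ mlt (LF χ) ρ := fun _ _ _ =>
    Nat.cast_nonneg _
  refine ⟨fun q χ => ∑ ρ ∈ v2_zn (LF χ) (c₀ / L) D,
      mlt (LF χ) ρ * Real.exp (-(K * L * (1 - ρ.re) / 4)) + E, fun q χ => ?_, ?_, ?_⟩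
  · have : 0 ≤ ∑ ρ ∈ v2_zn (LF χ) (c₀ / L) D,
        mlt (LF χ) ρ * Real.exp (-(K * L * (1 - ρ.re) / 4)) :=
      Finset.sum_nonneg fun ρ _ => mul_nonneg (hmlt q χ ρ) (Real.exp_pos _).le
    linarith
  · -- the sum over the characters
    have hcard : ∑ q ∈ Icc 1 D, ∑ _χ ∈ Prm q, E ≤ 1000000 * C₁ * Real.exp (-(M₀ / 132)) +
        C₂ * Real.exp (-(M₀ / 8)) := by
      refine (x7_card (D := D) hE0).trans ?_
      rw [hE, mul_add, mul_div_cancel₀ _ hDsq.ne', mul_div_cancel₀ _ hDsq.ne']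
    have hzeros : ∑ q ∈ Icc 1 D, ∑ χ ∈ Prm q, ∑ ρ ∈ v2_zn (LF χ) (c₀ / L) D,
        mlt (LF χ) ρ * Real.exp (-(K * L * (1 - ρ.re) / 4)) ≤
        2 * Real.exp (2 * Cd) * Real.exp (-(c₀ * K / 8)) := by
      have h2 := v2_zero_sum ((Icc 1 D).sigma Prm) (fun i => LF i.2) (fun _ => 2)
        (D := D) (L := L) (K := K) (c₀ := c₀) (Cd := Cd) ?_ ?_ hL0 (by linarith) hMCd ?_
      · rw [Finset.sum_sigma] at h2
        exact h2
      · rintro ⟨q, χ⟩ hi
        rw [Finset.mem_sigma] at hi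
        have := hne q hi.1
        exact LF_diff (z3_Prm hi.2).2
      · rintro ⟨q, χ⟩ hi
        rw [Finset.mem_sigma] at hi
        have := hne q hi.1
        exact LF_ne_zero (z3_Prm hi.2).2 (by norm_num)
      · intro δ hδ hδ1
        rw [Finset.sum_sigma]
        exact hden D hD2 δ hδ hδ1
    calc ∑ q ∈ Icc 1 D, ∑ χ ∈ Prm q, (∑ ρ ∈ v2_zn (LF χ) (c₀ / L) D,
          mlt (LF χ) ρ * Real.exp (-(K * L * (1 - ρ.re) / 4)) + E) =
        ∑ q ∈ Icc 1 D, ∑ χ ∈ Prm q, (∑ ρ ∈ v2_zn (LF χ) (c₀ / L) D,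
          mlt (LF χ) ρ * Real.exp (-(K * L * (1 - ρ.re) / 4))) +
          ∑ q ∈ Icc 1 D, ∑ χ ∈ Prm q, E := by
          rw [← Finset.sum_add_distrib]
          exact Finset.sum_congr rfl fun q _ => Finset.sum_add_distrib
      _ ≤ 2 * Real.exp (2 * Cd) * Real.exp (-(c₀ * K / 8)) +
          (1000000 * C₁ * Real.exp (-(M₀ / 132)) + C₂ * Real.exp (-(M₀ / 8))) := by linarith
      _ ≤ 2 * Real.exp (2 * Cd) * Real.exp (-(min (c₀ / 8) (1 / 264) * M₀ / L)) +
          (1000000 * C₁ * Real.exp (-(min (c₀ / 8) (1 / 264) * M₀ / L)) +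
            C₂ * Real.exp (-(min (c₀ / 8) (1 / 264) * M₀ / L))) := by
          have h5 : Real.exp (-(c₀ * K / 8)) ≤
              Real.exp (-(min (c₀ / 8) (1 / 264) * M₀ / L)) := by
            apply Real.exp_le_exp.2
            have h6 : min (c₀ / 8) (1 / 264) * M₀ / L = min (c₀ / 8) (1 / 264) * K := by
              rw [hK]; ring
            rw [h6]
            have h7 : 0 ≤ K := by positivity
            have := mul_le_mul_of_nonneg_right (min_le_left (c₀ / 8) (1 / 264)) h7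
            linarith
          have h6 : Real.exp (-(M₀ / 132)) ≤
              Real.exp (-(min (c₀ / 8) (1 / 264) * M₀ / L)) := by
            have h7 := x4_exp hD2 (a := 1 / 132) (c := min (c₀ / 8) (1 / 264)) (M := M₀)
              (by linarith) (by
                have := min_le_right (c₀ / 8) (1 / 264)
                linarith) (by positivity)
            have e : (1 / 132 : ℝ) * M₀ = M₀ / 132 := by ring
            rw [e] at h7
            exact h7
          have h8 : Real.exp (-(M₀ / 8)) ≤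
              Real.exp (-(min (c₀ / 8) (1 / 264) * M₀ / L)) := by
            refine le_trans (Real.exp_le_exp.2 ?_) h6
            linarith
          gcongr
      _ = _ := by ring
  · -- the individual bounds
    intro q hq χ hχ k M t hM hk hk4 ht
    have := hne q hq
    obtain ⟨-, hχ1⟩ := z3_Prm hχ
    have hM0 : 2 ≤ M := hM2.trans hM
    have hk0 : (0 : ℝ) < k := by nlinarith
    have hσ1 : k / M ≤ (D / 2 : ℝ) ^ 2 := by
      rw [div_le_iff₀ (by linarith)]; nlinarith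
    have hsq : Real.sqrt (k / M) ≤ D / 2 := by
      rw [Real.sqrt_le_left (by linarith)]; exact hσ1
    have h2 := hone q χ hχ1 k M t D (by linarith) hk (by linarith)
    have h3 := x3_err hC₁ hD2 (by linarith) (hM1500.trans hM) hk hk4 ht (q := q)
      (by exact_mod_cast (Finset.mem_Icc.1 hq).1) (by exact_mod_cast (Finset.mem_Icc.1 hq).2)
    have h4 : 72 * (k + 1) * (k / M) * Real.log (3 * (C₁ * q) *
        (2 * (k / M) + |t| + 4) ^ 2) * Real.exp (-(M / 33)) ≤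
        1000000 * C₁ * Real.exp (-(M₀ / 132)) / (D : ℝ) ^ 2 := by
      rw [le_div_iff₀ hDsq]
      have h5 : Real.exp (-(M / 132)) ≤ Real.exp (-(M₀ / 132)) :=
        Real.exp_le_exp.2 (by linarith)
      have h6 : 1000000 * C₁ * Real.exp (-(M / 132)) ≤
          1000000 * C₁ * Real.exp (-(M₀ / 132)) := by gcongr
      linarith
    have h7 : ∑ ρ ∈ v2_zn (LF χ) (c₀ / L) D, mlt (LF χ) ρ *
          Real.exp (-(M * (1 - ρ.re) / 4)) ≤
        ∑ ρ ∈ v2_zn (LF χ) (c₀ / L) D, mlt (LF χ) ρ *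
          Real.exp (-(K * L * (1 - ρ.re) / 4)) := by
      refine Finset.sum_le_sum fun ρ hρ => ?_
      apply mul_le_mul_of_nonneg_left _ (hmlt q χ ρ)
      apply Real.exp_le_exp.2
      rw [hKL]
      have h8 : ρ.re ≤ 1 := x11_re (Finset.mem_filter.1 hρ).1
      have h9 : M₀ * (1 - ρ.re) ≤ M * (1 - ρ.re) :=
        mul_le_mul_of_nonneg_right hM (by linarith)
      linarith
    have h10 : C₂ * (k / M / Real.sqrt k) * Real.exp (-(M / 4)) ≤
        C₂ * Real.exp (-(M₀ / 8)) / (D : ℝ) ^ 2 := by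
      rw [le_div_iff₀ hDsq]
      have h1 : k / M / Real.sqrt k ≤ (D : ℝ) ^ 2 := by
        have h2 : k / M ≤ (D : ℝ) ^ 2 / 4 := by
          rw [div_le_iff₀ (by linarith)]; linarith
        have h3 : 1 ≤ Real.sqrt k := by
          rw [Real.one_le_sqrt]; nlinarith
        refine (div_le_self (by positivity) h3).trans ?_
        linarith
      have h2 : (D : ℝ) ^ 4 * Real.exp (-((1 / 8) * M)) ≤ 1 :=
        x3_pow hD2 rfl (by norm_num) (by push_cast; linarith)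
      have h3 : Real.exp (-(M / 4)) = Real.exp (-((1 / 8) * M)) * Real.exp (-(M / 8)) := by
        rw [← Real.exp_add]; congr 1; ring
      calc C₂ * (k / M / Real.sqrt k) * Real.exp (-(M / 4)) * (D : ℝ) ^ 2 ≤
          C₂ * (D : ℝ) ^ 2 * Real.exp (-(M / 4)) * (D : ℝ) ^ 2 := by gcongr
        _ = C₂ * ((D : ℝ) ^ 4 * Real.exp (-((1 / 8) * M))) * Real.exp (-(M / 8)) := by
            rw [h3]; ring
        _ ≤ C₂ * 1 * Real.exp (-(M / 8)) := by gcongr
        _ ≤ C₂ * Real.exp (-(M₀ / 8)) := by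
            rw [mul_one]
            apply mul_le_mul_of_nonneg_left _ (by linarith)
            exact Real.exp_le_exp.2 (by linarith)
    have h11 := hpp q χ k M t hM0 hk
    have h12 := norm_sub_norm_le (SKP χ k M t) (SK χ k M t)
    rw [norm_sub_rev] at h12
    have h13 := v2_split (LF χ) (c₀ / L) D
      (fun ρ => mlt (LF χ) ρ * Real.exp (-(M * (1 - ρ.re) / 4)))
    simp only at h13 ⊢
    rw [hE]
    linarith

end Pool.Agent.GA
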