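import Pool.Agent.Lib_helper41.LSP25.V1
import Pool.Agent.Lib_helper41.LSP25.V2

/-!
# LSP2.5, block V3a: the weights with one exceptional character
-/

set_option autoImplicit false
set_option linter.unusedSectionVars false

namespace Pool.Agent.GA

open Finset Complex Metric Filter
open scoped ArithmeticFunction.vonMangoldt Classical Topology

/-- a member of the set of the zeros near `1` is a zero with bounded imaginary part -/
theorem v3a_mem {f : ℂ → ℂ} {w T : ℝ} {ρ : ℂ} (hρ : ρ ∈ zx f w T) :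
    f ρ = 0 ∧ |ρ.im| ≤ T ∧ 1 - w < ρ.re := by
  obtain ⟨h1, h2⟩ := Finset.mem_filter.1 hρ
  unfold zr at h1
  split_ifs at h1 with h
  · rw [Set.Finite.mem_toFinset] at h1
    exact ⟨h1.1, h1.2.2.2, h2⟩
  · simp at h1

theorem v3a_empty {f : ℂ → ℂ} {w T : ℝ} (h : ∀ ρ : ℂ, f ρ = 0 → |ρ.im| ≤ T → ρ.re ≤ 1 - w)
    (g : ℂ → ℝ) : ∑ ρ ∈ zx f w T, g ρ = 0 := by
  apply Finset.sum_eq_zero
  intro ρ hρ
  obtain ⟨h1, h2, h3⟩ := v3a_mem hρ
  exact absurd (h ρ h1 h2) (not_le.2 h3)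

theorem v3a_single {f : ℂ → ℂ} {w T β : ℝ} (hm : mlt f (β : ℂ) = 1)
    (h : ∀ ρ : ℂ, f ρ = 0 → |ρ.im| ≤ T → ρ ≠ (β : ℂ) → ρ.re ≤ 1 - w) {M : ℝ} :
    ∑ ρ ∈ zx f w T, mlt f ρ * Real.exp (-(M * (1 - ρ.re) / 4)) ≤
      Real.exp (-(M * (1 - β) / 4)) := by
  have h1 : zx f w T ⊆ {(β : ℂ)} := by
    intro ρ hρ
    obtain ⟨h1, h2, h3⟩ := v3a_mem hρ
    rw [Finset.mem_singleton]
    by_contra hne
    exact absurd (h ρ h1 h2 hne) (not_le.2 h3)
  refine (Finset.sum_le_sum_of_subset_of_nonneg h1 fun ρ _ _ => ?_).trans ?_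
  · exact mul_nonneg (Nat.cast_nonneg _) (Real.exp_pos _).le
  · rw [Finset.sum_singleton, hm, one_mul, Complex.ofReal_re]

/-- **the weights with one exceptional character** -/
theorem core_exc_pr : ∃ C : ℝ, 1 ≤ C ∧ ∃ c : ℝ, 0 < c ∧ ∃ A : ℝ, 1 ≤ A ∧
    ∀ D : ℕ, 4 ≤ D → ∃ e : Sg, Exc D e ∧ ∀ M₀ : ℝ, 2 ≤ M₀ → A * Real.log D ≤ M₀ →
    C * Real.exp (-(c * M₀ / Real.log D)) ≤ 1 / 16 →
    ∃ ε : (q : ℕ) → DirichletCharacter ℂ q → ℝ, (∀ q χ, 0 ≤ ε q χ) ∧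
      ∑ q ∈ Icc 1 D, ∑ χ ∈ Prm q, ε q χ ≤ C * Real.exp (-(c * M₀ / Real.log D)) ∧
      ∀ (k : ℕ) (M Δ T₀ : ℝ), M₀ ≤ M → M ^ 2 ≤ k → 4 * k ≤ D ^ 2 * M → 0 < Δ → Δ ≤ 1 →
        32 * M ^ 2 ≤ Δ * k → T₀ ≤ 1 / 16 →
        C * (k / M / Real.sqrt k) * Real.exp (2 * M - Δ ^ 2 * k / (32 * M ^ 2)) ≤ T₀ →
        ∃ u : ℕ → ℝ, (∀ p ∈ PW M Δ, 0 < u p ∧ u p ≤ 2 * (Real.log p * wK k M p)) ∧
          ∑ p ∈ PW M Δ, u p = 1 ∧
          (∀ q ∈ Icc 1 D, ∀ χ ∈ Prm q, (⟨q, χ⟩ : Sg) ≠ e →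
            ‖∑ p ∈ PW M Δ, ((u p : ℝ) : ℂ) * χ (p : ZMod q)‖ ≤ 2 * (ε q χ + T₀)) ∧
          (e.1 ∈ Icc 1 D → ∀ w : ℝ, 0 ≤ w → Free w D →
            ‖∑ p ∈ PW M Δ, ((u p : ℝ) : ℂ) * e.2 (p : ZMod e.1)‖ ≤
              Real.exp (-(M₀ * w / 4)) + 8 * (C * Real.exp (-(c * M₀ / Real.log D)) + T₀)) := by
  obtain ⟨cp, hcp, hpage⟩ := page_pr
  obtain ⟨Ca, hCa, ca, hca, Aa, hAa, ha⟩ := gal_SKP_all_pr hcp
  obtain ⟨Cb, hCb, cb, hcb, Ab, hAb, hb⟩ := gal_zeta density_zeta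
  obtain ⟨Ct, hCt, ht⟩ := x6_trunc
  refine ⟨max Ca (max Cb Ct), le_trans hCa (le_max_left _ _), min ca cb, lt_min hca hcb,
    max Aa Ab, le_trans hAa (le_max_left _ _), fun D hD => ?_⟩
  obtain ⟨e, β, hExc, he1, he2⟩ := hpage D (by omega)
  refine ⟨e, hExc, fun M₀ hM2 hAM h1 => ?_⟩
  set C := max Ca (max Cb Ct) with hC
  set c := min ca cb with hc
  have hDR : (4 : ℝ) ≤ D := by exact_mod_cast hD
  set L : ℝ := Real.log D with hL
  have hL0 : 0 < L := Real.log_pos (by linarith)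
  have hCa' : Ca ≤ C := le_max_left _ _
  have hCb' : Cb ≤ C := le_trans (le_max_left _ _) (le_max_right _ _)
  have hCt' : Ct ≤ C := le_trans (le_max_right _ _) (le_max_right _ _)
  have hC0 : 0 < C := by linarith
  have hAa' : Aa * L ≤ M₀ :=
    (mul_le_mul_of_nonneg_right (le_max_left Aa Ab) hL0.le).trans hAM
  have hAb' : Ab * L ≤ M₀ :=
    (mul_le_mul_of_nonneg_right (le_max_right Aa Ab) hL0.le).trans hAM
  have hexp : ∀ {c' M : ℝ}, c ≤ c' → M₀ ≤ M →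
      Real.exp (-(c' * M / L)) ≤ Real.exp (-(c * M₀ / L)) := by
    intro c' M hc' hM
    apply Real.exp_le_exp.2
    have hc0 : 0 < c := lt_min hca hcb
    have : c * M₀ / L ≤ c' * M / L := by
      apply div_le_div_of_nonneg_right _ hL0.le
      exact mul_le_mul hc' hM (by linarith) (by linarith)
    linarith
  obtain ⟨ε, hε0, hεs, hεb⟩ := ha D hD M₀ hM2 hAa'
  have hεs' : ∑ q ∈ Icc 1 D, ∑ χ ∈ Prm q, ε q χ ≤ C * Real.exp (-(c * M₀ / L)) := by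
    refine hεs.trans ?_
    exact mul_le_mul hCa' (hexp (min_le_left _ _) le_rfl) (Real.exp_pos _).le hC0.le
  refine ⟨ε, hε0, hεs', ?_⟩
  intro k M Δ T₀ hM hk hk4 hΔ hΔ1 hkΔ hT16 hT
  have hM2' : 2 ≤ M := hM2.trans hM
  have hk0 : (0 : ℝ) < k := by nlinarith
  have hk1 : 1 ≤ k := by
    have : (0 : ℝ) < k := hk0
    exact_mod_cast this
  have hb1 := hb D hD k M hM2' (hAb'.trans hM) hk hk4 0 (by rw [abs_zero]; linarith)
  have hkM : (((k / M : ℝ) : ℂ) / (((k / M : ℝ) : ℂ) + ((0 : ℝ) : ℂ) * I)) ^ (k + 1) = 1 := by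
    have h3 : ((k / M : ℝ) : ℂ) ≠ 0 := by
      rw [Ne, Complex.ofReal_eq_zero]
      positivity
    rw [Complex.ofReal_zero, zero_mul, add_zero, div_self h3, one_pow]
  rw [hkM] at hb1
  set E₀ : ℝ := C * Real.exp (-(c * M₀ / L)) with hE₀
  have hE0 : 0 ≤ E₀ := by positivity
  have hT00 : 0 ≤ T₀ := le_trans (by positivity) hT
  have hb2 : ‖SKP (1 : DirichletCharacter ℂ 1) k M 0 - 1‖ ≤ E₀ := by
    refine hb1.trans ?_
    exact mul_le_mul hCb' (hexp (min_le_right _ _) hM) (Real.exp_pos _).le hC0.le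
  have ht' : ∀ (q : ℕ) [NeZero q] (χ : DirichletCharacter ℂ q),
      ‖SKP χ k M 0 - ∑ p ∈ PW M Δ, ((Real.log p * wK k M p : ℝ) : ℂ) * χ (p : ZMod q)‖ ≤
        T₀ := by
    intro q _ χ
    refine (ht q χ k M Δ hM2' hΔ hΔ1 hkΔ).trans (le_trans ?_ hT)
    gcongr
  set W : ℝ := ∑ p ∈ PW M Δ, Real.log p * wK k M p with hW
  have hW1 : ‖(W : ℂ) - 1‖ ≤ E₀ + T₀ := by
    have h3 := ht' 1 (1 : DirichletCharacter ℂ 1)
    have h4 : ∑ p ∈ PW M Δ, ((Real.log p * wK k M p : ℝ) : ℂ) *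
        (1 : DirichletCharacter ℂ 1) (p : ZMod 1) = (W : ℂ) := by
      rw [hW, Complex.ofReal_sum]
      refine Finset.sum_congr rfl fun p _ => ?_
      have : (1 : DirichletCharacter ℂ 1) (p : ZMod 1) = 1 :=
        MulChar.one_apply (isUnit_of_subsingleton _)
      rw [this, mul_one]
    rw [h4] at h3
    have h5 : (W : ℂ) - 1 = -(SKP (1 : DirichletCharacter ℂ 1) k M 0 - W) +
        (SKP (1 : DirichletCharacter ℂ 1) k M 0 - 1) := by ring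
    rw [h5]
    refine (norm_add_le _ _).trans ?_
    rw [norm_neg]
    linarith
  have hW3 : 1 - (E₀ + T₀) ≤ W := by
    have h3 : ‖((W - 1 : ℝ) : ℂ)‖ ≤ E₀ + T₀ := by push_cast; exact hW1
    rw [Complex.norm_real, Real.norm_eq_abs] at h3
    have := (abs_le.1 h3).1
    linarith
  have hW2 : 1 / 2 ≤ W := by linarith
  have hW0 : 0 < W := by linarith
  have hWinv : W⁻¹ ≤ 2 := by
    rw [inv_le_comm₀ hW0 (by norm_num)]
    linarith
  have hWinv2 : W⁻¹ ≤ 1 + 2 * (E₀ + T₀) := by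
    rw [inv_le_iff_one_le_mul₀ hW0]
    have h3 : (1 + 2 * (E₀ + T₀)) * (1 - (E₀ + T₀)) ≤ (1 + 2 * (E₀ + T₀)) * W :=
      mul_le_mul_of_nonneg_left hW3 (by linarith)
    nlinarith
  have hmain : ∀ q ∈ Icc 1 D, ∀ χ : DirichletCharacter ℂ q, χ ∈ Prm q →
      ‖∑ p ∈ PW M Δ, ((Real.log p * wK k M p / W : ℝ) : ℂ) * χ (p : ZMod q)‖ ≤
        W⁻¹ * ((ε q χ + ∑ ρ ∈ zx (LF χ) (cp / L) D, mlt (LF χ) ρ *
            Real.exp (-(M * (1 - ρ.re) / 4))) + T₀) := by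
    intro q hq χ hχ
    have : NeZero q := ⟨by
      have := (Finset.mem_Icc.1 hq).1
      omega⟩
    have h4 : ∑ p ∈ PW M Δ, ((Real.log p * wK k M p / W : ℝ) : ℂ) * χ (p : ZMod q) =
        ((W⁻¹ : ℝ) : ℂ) * ∑ p ∈ PW M Δ, ((Real.log p * wK k M p : ℝ) : ℂ) *
          χ (p : ZMod q) := by
      rw [Finset.mul_sum]
      refine Finset.sum_congr rfl fun p _ => ?_
      rw [div_eq_inv_mul]
      push_cast
      ring
    rw [h4, norm_mul, Complex.norm_real, Real.norm_of_nonneg (by positivity)]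
    have h5 := ht' q χ
    apply mul_le_mul_of_nonneg_left _ (by positivity)
    have h7 := norm_sub_norm_le (∑ p ∈ PW M Δ, ((Real.log p * wK k M p : ℝ) : ℂ) *
      χ (p : ZMod q)) (SKP χ k M 0)
    rw [norm_sub_rev] at h7
    have h8 := hεb q hq χ hχ k M 0 hM hk hk4 (by rw [abs_zero]; linarith)
    linarith
  refine ⟨fun p => Real.log p * wK k M p / W, fun p hp => ?_, ?_, ?_, ?_⟩
  · have hpp := (mem_PW.1 hp).1
    have hlp : 0 < Real.log p := Real.log_pos (by exact_mod_cast hpp.one_lt)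
    refine ⟨div_pos (mul_pos hlp (wK_pos (by linarith) hk1 hpp.two_le)) hW0, ?_⟩
    have h5 : 0 ≤ wK k M p := wK_nonneg (by linarith) p
    calc Real.log p * wK k M p / W = W⁻¹ * (Real.log p * wK k M p) := by
          rw [div_eq_inv_mul]
      _ ≤ 2 * (Real.log p * wK k M p) := by gcongr
  · rw [← Finset.sum_div, ← hW, div_self hW0.ne']
  · intro q hq χ hχ hne
    refine (hmain q hq χ hχ).trans ?_
    rw [v3a_empty (fun ρ h2 h3 => he2 q hq χ hχ hne ρ h2 h3), add_zero]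
    exact mul_le_mul_of_nonneg_right hWinv (by have := hε0 q χ; linarith)
  · intro he w hw hfree
    obtain ⟨hz, hm, hzero⟩ := he1 he
    obtain ⟨hPrm, hsq⟩ := hExc he
    refine (hmain e.1 he e.2 hPrm).trans ?_
    have h3 := v3a_single (w := cp / L) (T := D) (M := M) hm
      (fun ρ h2 h3 h4 => hzero ρ h2 h3 h4)
    have h4 : β ≤ 1 - w := hfree e.1 he e.2 hPrm hsq β hz
    have h5 : Real.exp (-(M * (1 - β) / 4)) ≤ Real.exp (-(M₀ * w / 4)) := by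
      apply Real.exp_le_exp.2
      have h6 : M₀ * w ≤ M * (1 - β) := mul_le_mul hM (by linarith) hw (by linarith)
      linarith
    have h6 : ε e.1 e.2 ≤ E₀ := by
      refine le_trans ?_ hεs'
      refine le_trans ?_ (Finset.single_le_sum (f := fun q => ∑ χ ∈ Prm q, ε q χ)
        (fun q _ => Finset.sum_nonneg fun χ _ => hε0 q χ) he)
      exact Finset.single_le_sum (f := fun χ => ε e.1 χ) (fun χ _ => hε0 e.1 χ) hPrm
    have h7 : Real.exp (-(M₀ * w / 4)) ≤ 1 := by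
      apply Real.exp_le_one_iff.2
      have : 0 ≤ M₀ * w := by positivity
      linarith
    have h8 : 0 ≤ Real.exp (-(M₀ * w / 4)) := (Real.exp_pos _).le
    have h9 : (ε e.1 e.2 + ∑ ρ ∈ zx (LF e.2) (cp / L) D, mlt (LF e.2) ρ *
        Real.exp (-(M * (1 - ρ.re) / 4))) + T₀ ≤ Real.exp (-(M₀ * w / 4)) + (E₀ + T₀) := by
      linarith
    have h10 : 0 ≤ E₀ + T₀ := by linarith
    refine (mul_le_mul_of_nonneg_left h9 (by positivity)).trans ?_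
    refine (mul_le_mul_of_nonneg_right hWinv2 (by linarith)).trans ?_
    nlinarith

end Pool.Agent.GA
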