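import Pool.Agent.Lib_helper41.LSP25.DefsW
import Pool.Agent.Lib_helper41.LSP25.V3a

/-!
# LSP2.5, block V3b: the weights on a band of primes, with one exceptional character

`band_exc_pr` is the statement `band_exc` of `Lib_helper41/LSP25/Wanted.lean`. The proof is that of
`gal_weights_band` (GA/X12.lean) and `gal_band` (GA/X13.lean, helper46), with `core_exc_pr` instead of
`x12_core` and `D = ⌊X ^ (250 κ)⌋`.
-/

set_option autoImplicit false
set_option linter.unusedSectionVars false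

namespace Pool.Agent.GA

open Finset Complex Metric Filter
open scoped ArithmeticFunction.vonMangoldt Classical Topology

/-- the conditions on `X`, for fixed parameters -/
theorem v3b_eventually {κ v ε C : ℝ} (hκ : 0 < κ) (hv : 0 < v) (hε : 0 < ε) :
    ∀ᶠ X : ℕ in atTop, (8 : ℝ) ≤ X ∧ 2 ≤ v * Real.log X ∧ 32 ≤ (X : ℝ) ^ κ ∧
      16 * Real.exp 3 * (Real.log X + 1) ≤ ((X : ℝ) ^ κ) ^ (1 / 2 : ℝ) ∧
      C * (((X : ℝ) ^ κ) ^ (534 + 4 / κ) * Real.exp (-(1 / 32) * (X : ℝ) ^ κ)) ≤ ε := by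
  have hX : Tendsto (fun X : ℕ => (X : ℝ)) atTop atTop := tendsto_natCast_atTop_atTop
  have hY : Tendsto (fun X : ℕ => (X : ℝ) ^ κ) atTop atTop := (tendsto_rpow_atTop hκ).comp hX
  have h1 : ∀ᶠ X : ℕ in atTop, (8 : ℝ) ≤ X := hX.eventually_ge_atTop 8
  have h2 : ∀ᶠ X : ℕ in atTop, (32 : ℝ) ≤ (X : ℝ) ^ κ := hY.eventually_ge_atTop 32
  have h0 : ∀ᶠ X : ℕ in atTop, 2 ≤ v * Real.log X :=
    ((Real.tendsto_log_atTop.comp hX).const_mul_atTop hv).eventually_ge_atTop 2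
  have h3 : ∀ᶠ X : ℕ in atTop, 16 * Real.exp 3 * (Real.log X + 1) ≤
      ((X : ℝ) ^ κ) ^ (1 / 2 : ℝ) := by
    have h4 : ∀ᶠ x : ℝ in atTop, Real.log x ≤ (32 * Real.exp 3)⁻¹ * x ^ (κ / 2) := by
      have h5 := (isLittleO_log_rpow_atTop (r := κ / 2) (by positivity)).bound
        (c := (32 * Real.exp 3)⁻¹) (by positivity)
      filter_upwards [h5, eventually_ge_atTop (1 : ℝ)] with x hx hx1
      rw [Real.norm_eq_abs, Real.norm_eq_abs, abs_of_nonneg (Real.log_nonneg hx1),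
        abs_of_nonneg (by positivity)] at hx
      exact hx
    have h6 : ∀ᶠ x : ℝ in atTop, 16 * Real.exp 3 ≤ 1 / 2 * x ^ (κ / 2) := by
      have h7 := (tendsto_rpow_atTop (y := κ / 2) (by positivity)).const_mul_atTop
        (show (0 : ℝ) < 1 / 2 by norm_num)
      exact h7.eventually_ge_atTop _
    filter_upwards [hX.eventually h4, hX.eventually h6, h1] with X hX4 hX6 hX1
    have hX0 : (0 : ℝ) < X := by linarith
    rw [← Real.rpow_mul hX0.le]
    have e1 : κ * (1 / 2) = κ / 2 := by ring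
    rw [e1]
    have he : 0 < Real.exp 3 := Real.exp_pos _
    have h8 : 16 * Real.exp 3 * Real.log X ≤ 1 / 2 * (X : ℝ) ^ (κ / 2) := by
      calc 16 * Real.exp 3 * Real.log X ≤
          16 * Real.exp 3 * ((32 * Real.exp 3)⁻¹ * (X : ℝ) ^ (κ / 2)) := by gcongr
        _ = _ := by field_simp; norm_num
    linarith
  have h4 : ∀ᶠ X : ℕ in atTop,
      C * (((X : ℝ) ^ κ) ^ (534 + 4 / κ) * Real.exp (-(1 / 32) * (X : ℝ) ^ κ)) ≤ ε := by
    have h5 := ((tendsto_rpow_mul_exp_neg_mul_atTop_nhds_zero (534 + 4 / κ) (1 / 32)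
      (by norm_num)).const_mul C).comp hY
    rw [mul_zero] at h5
    exact (h5.eventually (ge_mem_nhds hε)).mono fun X hX => hX
  filter_upwards [h1, h0, h2, h3, h4] with X a b c d e
  exact ⟨a, b, c, d, e⟩

/-- the weights with centres in a band, with one exceptional character -/
theorem v3b_weights :
    ∃ C : ℝ, 1 ≤ C ∧ ∃ c : ℝ, 0 < c ∧ ∃ A : ℝ, 1 ≤ A ∧ ∀ κ : ℝ, 0 < κ →
    ∃ e : ℕ → Sg, (∀ X : ℕ, 2 ≤ X → Exc ⌊(X : ℝ) ^ (250 * κ)⌋₊ (e X)) ∧
    ∀ v : ℝ, A * κ ≤ v → v ≤ 1 → ∃ X₀ : ℕ, ∀ X : ℕ, X₀ ≤ X →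
    8 ≤ X ∧ ∃ k : ℕ, (2 * Real.log X) ^ 2 ≤ k ∧ Real.sqrt k ≤ ((X : ℝ) ^ κ) ^ (34 : ℕ) ∧
    ∃ ε : (q : ℕ) → DirichletCharacter ℂ q → ℝ, (∀ q χ, 0 ≤ ε q χ) ∧
      ∑ q ∈ Icc 1 ⌊(X : ℝ) ^ (250 * κ)⌋₊, ∑ χ ∈ Prm q, ε q χ ≤ C * Real.exp (-(c * v / κ)) ∧
      ∀ Z : ℝ, (X : ℝ) ^ v ≤ Z → Z ≤ (X : ℝ) ^ (2 : ℕ) → ∃ (P : Finset ℕ) (u : ℕ → ℝ),
        (∀ p ∈ P, p.Prime ∧ |Real.log ((p : ℝ) / Z)| ≤ ((X : ℝ) ^ κ) ^ (-33 : ℝ) ∧ 0 < u p ∧
          u p ≤ ((X : ℝ) ^ κ) ^ (67 / 2 : ℝ) * (9 * Real.exp 3 * Real.log X) / Z ∧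
          u p ≤ 2 * (Real.log p * wK k (Real.log Z) p)) ∧
        ∑ p ∈ P, u p = 1 ∧
        WX ⌊(X : ℝ) ^ (250 * κ)⌋₊ (e X) ε
          (fun w => Real.exp (-(v * Real.log X * w / 4)) + C * Real.exp (-(c * v / κ)))
          P u := by
  obtain ⟨C, hC, c, hc, A, hA, hcore⟩ := core_exc_pr
  have hC0 : 0 < C := by linarith
  have hl16 : 0 < Real.log (16 * C) := Real.log_pos (by linarith)
  have hchoice : ∀ D : ℕ, ∃ e : Sg, Exc D e ∧ (4 ≤ D → ∀ M₀ : ℝ, 2 ≤ M₀ →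
      A * Real.log D ≤ M₀ → C * Real.exp (-(c * M₀ / Real.log D)) ≤ 1 / 16 →
      ∃ ε : (q : ℕ) → DirichletCharacter ℂ q → ℝ, (∀ q χ, 0 ≤ ε q χ) ∧
        ∑ q ∈ Icc 1 D, ∑ χ ∈ Prm q, ε q χ ≤ C * Real.exp (-(c * M₀ / Real.log D)) ∧
        ∀ (k : ℕ) (M Δ T₀ : ℝ), M₀ ≤ M → M ^ 2 ≤ k → 4 * k ≤ D ^ 2 * M → 0 < Δ → Δ ≤ 1 →
          32 * M ^ 2 ≤ Δ * k → T₀ ≤ 1 / 16 →
          C * (k / M / Real.sqrt k) * Real.exp (2 * M - Δ ^ 2 * k / (32 * M ^ 2)) ≤ T₀ →
          ∃ u : ℕ → ℝ, (∀ p ∈ PW M Δ, 0 < u p ∧ u p ≤ 2 * (Real.log p * wK k M p)) ∧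
            ∑ p ∈ PW M Δ, u p = 1 ∧
            (∀ q ∈ Icc 1 D, ∀ χ ∈ Prm q, (⟨q, χ⟩ : Sg) ≠ e →
              ‖∑ p ∈ PW M Δ, ((u p : ℝ) : ℂ) * χ (p : ZMod q)‖ ≤ 2 * (ε q χ + T₀)) ∧
            (e.1 ∈ Icc 1 D → ∀ w : ℝ, 0 ≤ w → Free w D →
              ‖∑ p ∈ PW M Δ, ((u p : ℝ) : ℂ) * e.2 (p : ZMod e.1)‖ ≤
                Real.exp (-(M₀ * w / 4)) +
                  8 * (C * Real.exp (-(c * M₀ / Real.log D)) + T₀))) := by
    intro D
    by_cases hD : 4 ≤ D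
    · obtain ⟨e, he, h⟩ := hcore D hD
      exact ⟨e, he, fun _ => h⟩
    · refine ⟨⟨0, 1⟩, fun h0 => ?_, fun h => absurd h hD⟩
      exact absurd (Finset.mem_Icc.1 h0).1 (by norm_num)
  choose ee hee hcore' using hchoice
  refine ⟨16 * C, by linarith, c / 250, by positivity,
    250 * A + 250 * Real.log (16 * C) / c, by
      have : 0 < 250 * Real.log (16 * C) / c := by positivity
      linarith, fun κ hκ => ⟨fun X => ee ⌊(X : ℝ) ^ (250 * κ)⌋₊, fun X _ => hee _,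
      fun v hAv hv1 => ?_⟩⟩
  have hv1' : 250 * κ * A ≤ v := by
    have h1 : 0 ≤ 250 * Real.log (16 * C) / c * κ := by positivity
    nlinarith
  have hv2' : 250 * κ * Real.log (16 * C) ≤ c * v := by
    have h1 : 250 * Real.log (16 * C) / c * κ ≤ v := by
      have h2 : 0 ≤ 250 * A * κ := by positivity
      nlinarith
    calc 250 * κ * Real.log (16 * C) = c * (250 * Real.log (16 * C) / c * κ) := by
          field_simp
      _ ≤ c * v := by gcongr
  have hv0 : 0 < v := lt_of_lt_of_le (by positivity) hv1'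
  set e₀ : ℝ := C * Real.exp (-(c * v / (250 * κ))) with he₀
  have he0 : 0 < e₀ := by positivity
  have he16 : e₀ ≤ 1 / 16 := by
    have h1 : Real.log (16 * C) ≤ c * v / (250 * κ) := by
      rw [le_div_iff₀ (by positivity)]; linarith
    have h2 : Real.exp (-(c * v / (250 * κ))) ≤ (16 * C)⁻¹ := by
      rw [← Real.exp_log (show (0 : ℝ) < 16 * C by positivity), ← Real.exp_neg]
      exact Real.exp_le_exp.2 (by linarith)
    calc e₀ ≤ C * (16 * C)⁻¹ := mul_le_mul_of_nonneg_left h2 hC0.le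
      _ = 1 / 16 := by field_simp
  obtain ⟨X₀, hX₀⟩ := eventually_atTop.1 (v3b_eventually (C := C) hκ hv0 he0)
  refine ⟨X₀, fun X hX => ?_⟩
  obtain ⟨hX8, hvX, hY32, hlogY, htail⟩ := hX₀ X hX
  have hX0 : (0 : ℝ) < X := by linarith
  have hX1 : (1 : ℝ) ≤ X := by linarith
  set Y : ℝ := (X : ℝ) ^ κ with hY
  have hY0 : 0 < Y := by linarith
  have hY1 : 1 ≤ Y := by linarith
  set lX : ℝ := Real.log X with hlX
  have hlX0 : 0 < lX := Real.log_pos (by linarith)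
  have hlX2 : 2 ≤ lX := by nlinarith
  set D : ℕ := ⌊(X : ℝ) ^ (250 * κ)⌋₊ with hD
  have hY250 : (X : ℝ) ^ (250 * κ) = Y ^ (250 : ℕ) := by
    rw [hY, ← Real.rpow_natCast, ← Real.rpow_mul hX0.le]
    norm_num
    ring_nf
  have hYY : ∀ n : ℕ, 1 ≤ n → 32 ≤ Y ^ n := by
    intro n hn
    calc (32 : ℝ) ≤ Y := hY32
      _ = Y ^ 1 := (pow_one Y).symm
      _ ≤ Y ^ n := pow_le_pow_right₀ hY1 hn
  have hD1 : (D : ℝ) ≤ Y ^ (250 : ℕ) := by
    rw [← hY250]
    exact Nat.floor_le (by positivity)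
  have hD2 : Y ^ (250 : ℕ) / 2 ≤ D := by
    have h1 : (X : ℝ) ^ (250 * κ) < D + 1 := Nat.lt_floor_add_one _
    rw [hY250] at h1
    have := hYY 250 (by norm_num)
    linarith
  have hD2' : Y ^ (124 : ℕ) / 2 ≤ D := by
    have h1 : Y ^ (124 : ℕ) ≤ Y ^ (250 : ℕ) := pow_le_pow_right₀ hY1 (by norm_num)
    linarith
  have hD4 : 4 ≤ D := by
    have := hYY 250 (by norm_num)
    have h1 : (4 : ℝ) ≤ D := by linarith
    exact_mod_cast h1
  have hDR : (4 : ℝ) ≤ D := by exact_mod_cast hD4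
  have hLD : Real.log D ≤ 250 * κ * lX := by
    have h1 : Real.log D ≤ Real.log ((X : ℝ) ^ (250 * κ)) := by
      apply Real.log_le_log (by linarith)
      rw [hY250]; exact hD1
    rw [Real.log_rpow hX0] at h1
    exact h1
  have hLD0 : 0 < Real.log D := Real.log_pos (by linarith)
  have hE1 : C * Real.exp (-(c * (v * lX) / Real.log D)) ≤ e₀ := by
    rw [he₀]
    apply mul_le_mul_of_nonneg_left _ hC0.le
    apply Real.exp_le_exp.2
    have : c * v / (250 * κ) ≤ c * (v * lX) / Real.log D := by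
      rw [div_le_div_iff₀ (by positivity) hLD0]
      calc c * v * Real.log D ≤ c * v * (250 * κ * lX) := by gcongr
        _ = _ := by ring
    linarith
  obtain ⟨ε, hε0, hεs, hεw⟩ := hcore' D hD4 (v * lX) hvX (by
      calc A * Real.log D ≤ A * (250 * κ * lX) := by gcongr
        _ = (250 * κ * A) * lX := by ring
        _ ≤ v * lX := by gcongr) (hE1.trans he16)
  obtain ⟨k, hk⟩ : ∃ k : ℕ, k = ⌈(2 * lX) ^ 2 * Y ^ (67 : ℕ)⌉₊ := ⟨_, rfl⟩
  set T₀ : ℝ := C * Y ^ (34 : ℕ) * (Y ^ (4 / κ) * Real.exp (-(1 / 32) * Y)) with hT₀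
  have hT0 : 0 < T₀ := by positivity
  have hDT : (D : ℝ) ^ 2 * T₀ ≤ e₀ := by
    refine le_trans ?_ htail
    have h1 : (D : ℝ) ^ 2 ≤ Y ^ (500 : ℕ) := by
      calc (D : ℝ) ^ 2 ≤ (Y ^ (250 : ℕ)) ^ 2 := pow_le_pow_left₀ (by positivity) hD1 2
        _ = _ := by ring
    calc (D : ℝ) ^ 2 * T₀ ≤ Y ^ (500 : ℕ) * T₀ := by gcongr
      _ = C * ((Y ^ (534 : ℕ) * Y ^ (4 / κ)) * Real.exp (-(1 / 32) * Y)) := by
          rw [hT₀]; ring
      _ = _ := by
          rw [Real.rpow_add hY0, ← Real.rpow_natCast]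
          norm_num
  have hT16 : T₀ ≤ 1 / 16 := by
    have h1 : (1 : ℝ) ≤ (D : ℝ) ^ 2 := by nlinarith
    nlinarith
  have hsk34 : Real.sqrt k ≤ Y ^ (34 : ℕ) := by
    obtain ⟨-, -, -, -, -, h6, -⟩ := x12_sizes (M := 2) (D := D) hY32 hlogY hlX0 hk hD2' le_rfl
      (by linarith)
    have h4 : Y ^ (33 : ℝ) = Y ^ (33 : ℕ) := by
      rw [← Real.rpow_natCast]; norm_num
    have hhalf : Y ^ (1 / 2 : ℝ) * Y ^ (1 / 2 : ℝ) = Y := by
      rw [← Real.rpow_add hY0]; norm_num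
    have h5 : 3 * lX ≤ Y ^ (1 / 2 : ℝ) := by
      refine le_trans ?_ hlogY
      have h7 : 1 ≤ Real.exp 3 := Real.one_le_exp (by norm_num)
      nlinarith
    calc Real.sqrt k ≤ 3 * lX * (Y ^ (33 : ℝ) * Y ^ (1 / 2 : ℝ)) := h6
      _ ≤ Y ^ (1 / 2 : ℝ) * (Y ^ (33 : ℝ) * Y ^ (1 / 2 : ℝ)) := by gcongr
      _ = Y ^ (33 : ℕ) * (Y ^ (1 / 2 : ℝ) * Y ^ (1 / 2 : ℝ)) := by rw [h4]; ring
      _ = Y ^ (34 : ℕ) := by rw [hhalf]; ring
  refine ⟨by exact_mod_cast hX8, k, ?_, hsk34, fun q χ => 2 * (ε q χ + T₀), fun q χ => ?_, ?_,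
    fun Z hZ1 hZ2 => ?_⟩
  · rw [hk]
    refine le_trans ?_ (Nat.le_ceil _)
    exact le_mul_of_one_le_right (sq_nonneg _) (one_le_pow₀ hY1)
  · have := hε0 q χ
    positivity
  · have h1 : c / 250 * v / κ = c * v / (250 * κ) := by field_simp
    rw [h1]
    calc ∑ q ∈ Icc 1 D, ∑ χ ∈ Prm q, 2 * (ε q χ + T₀) =
        2 * ∑ q ∈ Icc 1 D, ∑ χ ∈ Prm q, ε q χ + ∑ q ∈ Icc 1 D, ∑ _χ ∈ Prm q, 2 * T₀ := by
          rw [Finset.mul_sum, ← Finset.sum_add_distrib]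
          refine Finset.sum_congr rfl fun q _ => ?_
          rw [Finset.mul_sum, ← Finset.sum_add_distrib]
          exact Finset.sum_congr rfl fun χ _ => by ring
      _ ≤ 2 * e₀ + (D : ℝ) ^ 2 * (2 * T₀) := by
          have h8 := x7_card (D := D) (B := 2 * T₀) (by linarith)
          have h9 := hεs.trans hE1
          linarith
      _ ≤ 16 * e₀ := by linarith
      _ = 16 * C * Real.exp (-(c * v / (250 * κ))) := by rw [he₀]; ring
  · -- the window at `Z`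
    have hXv : (0 : ℝ) < (X : ℝ) ^ v := by positivity
    have hZ0 : 0 < Z := lt_of_lt_of_le hXv hZ1
    set M : ℝ := Real.log Z with hM
    have hM1 : v * lX ≤ M := by
      have h1 := Real.log_le_log hXv hZ1
      rwa [Real.log_rpow hX0] at h1
    have hM2 : M ≤ 2 * lX := by
      have h1 := Real.log_le_log hZ0 hZ2
      rw [Real.log_pow] at h1
      push_cast at h1
      exact h1
    have hM3 : 2 ≤ M := hvX.trans hM1
    have hM0 : 0 < M := by linarith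
    obtain ⟨s1, s2, s3, s4, s5, s6, s7⟩ := x12_sizes (D := D) hY32 hlogY hlX0 hk hD2' hM3 hM2
    have hk0 : (0 : ℝ) < k := by nlinarith
    have hΔ0 : 0 < Y ^ (-33 : ℝ) := by positivity
    have hΔ1 : Y ^ (-33 : ℝ) ≤ 1 := Real.rpow_le_one_of_one_le_of_nonpos hY1 (by norm_num)
    obtain ⟨u, hu1, hu2, hu3, hu4⟩ := hεw k M (Y ^ (-33 : ℝ)) T₀ hM1 s1 s2 hΔ0 hΔ1 s3 hT16 (by
      rw [s5]
      have h3 : Real.exp (2 * M - (Y ^ (-33 : ℝ)) ^ 2 * k / (32 * M ^ 2)) ≤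
          Y ^ (4 / κ) * Real.exp (-(1 / 32) * Y) := by
        have h6 : Y ^ (4 / κ) = Real.exp (4 * lX) := by
          rw [hY, ← Real.rpow_mul hX0.le, Real.rpow_def_of_pos hX0, ← hlX]
          congr 1
          field_simp
        rw [h6, ← Real.exp_add]
        exact Real.exp_le_exp.2 (by linarith)
      rw [hT₀]
      gcongr)
    refine ⟨PW M (Y ^ (-33 : ℝ)), u, fun p hp => ?_, hu2, hu3, fun he w hw hfree => ?_⟩
    swap
    · refine (hu4 he w hw hfree).trans ?_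
      have h1 : c / 250 * v / κ = c * v / (250 * κ) := by field_simp
      have h2 : T₀ ≤ e₀ := by
        have h3 : (1 : ℝ) ≤ (D : ℝ) ^ 2 := by nlinarith
        nlinarith
      have h4 : 16 * C * Real.exp (-(c * v / (250 * κ))) = 16 * e₀ := by rw [he₀]; ring
      rw [h1, h4]
      linarith
    obtain ⟨hpp, hpM⟩ := mem_PW.1 hp
    obtain ⟨hup, hup2⟩ := hu1 p hp
    have hp0 : (0 : ℝ) < p := by exact_mod_cast hpp.pos
    refine ⟨hpp, ?_, hup, ?_, hup2⟩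
    · rw [Real.log_div hp0.ne' hZ0.ne']
      exact hpM
    · have h1 := abs_le.1 hpM
      have h2 : Real.log p ≤ M + 1 := by linarith [h1.2]
      have h3 : (1 : ℝ) / p ≤ Real.exp 1 / Z := by
        rw [div_le_div_iff₀ hp0 hZ0, one_mul]
        have h4 : Z ≤ Real.exp (1 + Real.log p) := by
          rw [← Real.log_le_iff_le_exp hZ0]
          linarith [h1.1]
        rwa [Real.exp_add, Real.exp_log hp0] at h4
      have h5 : 0 ≤ Real.log p := Real.log_natCast_nonneg p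
      have h6 : Real.exp 3 = Real.exp 2 * Real.exp 1 := by
        rw [← Real.exp_add]; norm_num
      have h7 : Y ^ (67 / 2 : ℝ) = Y ^ (33 : ℝ) * Y ^ (1 / 2 : ℝ) := by
        rw [← Real.rpow_add hY0]; norm_num
      have h8 : wK k M p ≤ Real.exp 2 * (Real.sqrt k / M) * (1 / p) := by
        have h3 := wK_le hM3 s1 (n := p) hpp.pos
        rw [s5] at h3
        refine h3.trans ?_
        refine mul_le_of_le_one_right (by positivity) ?_
        apply Real.exp_le_one_iff.2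
        have := abs_nonneg (Real.log p - M)
        linarith
      have h9 : (M + 1) / M ≤ 3 / 2 := by
        rw [div_le_div_iff₀ hM0 (by norm_num)]
        linarith
      calc u p ≤ 2 * (Real.log p * wK k M p) := hup2
        _ ≤ 2 * ((M + 1) * (Real.exp 2 * (Real.sqrt k / M) * (Real.exp 1 / Z))) := by
            apply mul_le_mul_of_nonneg_left _ (by norm_num)
            refine mul_le_mul h2 (h8.trans ?_) (wK_nonneg hM0 p) (by linarith)
            exact mul_le_mul_of_nonneg_left h3 (by positivity)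
        _ = 2 * Real.exp 3 * ((M + 1) / M) * Real.sqrt k / Z := by rw [h6]; ring
        _ ≤ 2 * Real.exp 3 * (3 / 2) * (3 * lX * (Y ^ (33 : ℝ) * Y ^ (1 / 2 : ℝ))) / Z := by
            gcongr
        _ = (Y ^ (33 : ℝ) * Y ^ (1 / 2 : ℝ)) * (9 * Real.exp 3 * lX) / Z := by ring
        _ = _ := by rw [h7]

/-- **The weights on a band of primes, with one exceptional character.** -/
theorem band_exc_pr : ∃ C : ℝ, 1 ≤ C ∧ ∃ c : ℝ, 0 < c ∧ ∃ A : ℝ, 1 ≤ A ∧ ∀ κ : ℝ, 0 < κ →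
    ∃ e : ℕ → Sg, (∀ X : ℕ, 2 ≤ X → Exc ⌊(X : ℝ) ^ (250 * κ)⌋₊ (e X)) ∧
    ∀ v : ℝ, A * κ ≤ v → v ≤ 1 →
    ∃ X₀ : ℕ, ∀ X : ℕ, X₀ ≤ X →
    ∃ ε : (q : ℕ) → DirichletCharacter ℂ q → ℝ, (∀ q χ, 0 ≤ ε q χ) ∧
      ∑ q ∈ Icc 1 ⌊(X : ℝ) ^ (250 * κ)⌋₊, ∑ χ ∈ Prm q, ε q χ ≤ C * Real.exp (-(c * v / κ)) ∧
      (∀ Z : ℝ, (X : ℝ) ^ v ≤ Z → Z ≤ (X : ℝ) ^ (2 : ℕ) → ∃ (P : Finset ℕ) (u : ℕ → ℝ),
        (∀ p ∈ P, p.Prime ∧ |Real.log ((p : ℝ) / Z)| ≤ ((X : ℝ) ^ κ) ^ (-33 : ℝ) ∧ 0 < u p ∧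
          u p ≤ ((X : ℝ) ^ κ) ^ (67 / 2 : ℝ) * (9 * Real.exp 3 * Real.log X) / Z) ∧
        ∑ p ∈ P, u p = 1 ∧
        WX ⌊(X : ℝ) ^ (250 * κ)⌋₊ (e X) ε
          (fun w => Real.exp (-(v * Real.log X * w / 4)) + C * Real.exp (-(c * v / κ))) P u) ∧
      ∀ (δ : ℝ) (J : ℕ), 0 < δ → δ ≤ (X : ℝ) ^ (-(34 * κ)) → J * δ ≤ v * Real.log X →
        ∃ u : ℕ → ℕ → ℝ,
          (∀ j p, 0 ≤ u j p) ∧
          (∀ j p, u j p ≠ 0 → j < J ∧ p.Prime ∧
            |Real.log p - (v * Real.log X + j * δ)| ≤ ((X : ℝ) ^ κ) ^ (-33 : ℝ) ∧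
            u j p ≤ ((X : ℝ) ^ κ) ^ (67 / 2 : ℝ) * (9 * Real.exp 3 * Real.log X) /
              (X : ℝ) ^ v) ∧
          (∀ j, j < J → ∑ p ∈ range (⌊3 * (X : ℝ) ^ (2 * v)⌋₊ + 1), u j p = 1) ∧
          (∀ p, ∑ j ∈ range J, u j p ≤ C * Real.log p / (δ * p)) ∧
          ∀ j, j < J → WX ⌊(X : ℝ) ^ (250 * κ)⌋₊ (e X) ε
            (fun w => Real.exp (-(v * Real.log X * w / 4)) + C * Real.exp (-(c * v / κ)))
            (range (⌊3 * (X : ℝ) ^ (2 * v)⌋₊ + 1)) (u j) := by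
  obtain ⟨C, hC, c, hc, A, hA, hmain⟩ := v3b_weights
  refine ⟨max C (24 * Real.exp 2), le_trans hC (le_max_left _ _), c, hc, A, hA,
    fun κ hκ => ?_⟩
  obtain ⟨e, he, hmain'⟩ := hmain κ hκ
  refine ⟨e, he, fun v hAv hv1 => ?_⟩
  obtain ⟨X₀, hX₀⟩ := hmain' v hAv hv1
  have hv0 : 0 < v := lt_of_lt_of_le (by positivity) hAv
  refine ⟨max X₀ ⌈Real.exp (2 / v)⌉₊, fun X hX => ?_⟩
  obtain ⟨hX8, k, hk1, hk2, ε, hε0, hεs, hεw⟩ := hX₀ X (le_trans (le_max_left _ _) hX)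
  have hWX : ∀ (P : Finset ℕ) (u : ℕ → ℝ),
      WX ⌊(X : ℝ) ^ (250 * κ)⌋₊ (e X) ε
        (fun w => Real.exp (-(v * Real.log X * w / 4)) + C * Real.exp (-(c * v / κ))) P u →
      WX ⌊(X : ℝ) ^ (250 * κ)⌋₊ (e X) ε
        (fun w => Real.exp (-(v * Real.log X * w / 4)) +
          max C (24 * Real.exp 2) * Real.exp (-(c * v / κ))) P u := by
    intro P u h
    refine ⟨h.1, fun he w hw hf => (h.2 he w hw hf).trans ?_⟩
    have h1 := mul_le_mul_of_nonneg_right (le_max_left C (24 * Real.exp 2))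
      (Real.exp_pos (-(c * v / κ))).le
    show Real.exp (-(v * Real.log X * w / 4)) + C * Real.exp (-(c * v / κ)) ≤ _
    linarith
  have hX8R : (8 : ℝ) ≤ X := by exact_mod_cast hX8
  have hX0 : (0 : ℝ) < X := by linarith
  have hX1 : (1 : ℝ) ≤ X := by linarith
  set lX : ℝ := Real.log X with hlX
  have hlX0 : 0 < lX := Real.log_pos (by linarith)
  have hvlX : 2 ≤ v * lX := by
    have h1 : Real.exp (2 / v) ≤ X := by
      refine (Nat.le_ceil _).trans ?_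
      exact_mod_cast le_trans (le_max_right _ _) hX
    have h2 : 2 / v ≤ lX := (Real.le_log_iff_exp_le hX0).2 h1
    rw [div_le_iff₀ hv0] at h2
    linarith
  refine ⟨ε, hε0, hεs.trans ?_, ?_, ?_⟩
  · exact mul_le_mul_of_nonneg_right (le_max_left _ _) (Real.exp_pos _).le
  · intro Z hZ1 hZ2
    obtain ⟨P, u, h1, h2, h3⟩ := hεw Z hZ1 hZ2
    exact ⟨P, u, fun p hp => ⟨(h1 p hp).1, (h1 p hp).2.1, (h1 p hp).2.2.1, (h1 p hp).2.2.2.1⟩,
      h2, hWX P u h3⟩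
  · intro δ J hδ hδ2 hJ
    have hexp : ∀ j : ℕ, j < J → (X : ℝ) ^ v ≤ Real.exp (v * lX + j * δ) ∧
        Real.exp (v * lX + j * δ) ≤ (X : ℝ) ^ (2 * v) := by
      intro j hj
      have hj0 : 0 ≤ (j : ℝ) * δ := by positivity
      have hj1 : (j : ℝ) * δ ≤ v * lX := by
        have h1 : (j : ℝ) ≤ J := by exact_mod_cast hj.le
        exact (mul_le_mul_of_nonneg_right h1 hδ.le).trans hJ
      rw [Real.rpow_def_of_pos hX0, Real.rpow_def_of_pos hX0]
      constructor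
      · apply Real.exp_le_exp.2; rw [← hlX]; linarith
      · apply Real.exp_le_exp.2; rw [← hlX]; linarith
    have hX2v : (X : ℝ) ^ (2 * v) ≤ (X : ℝ) ^ (2 : ℕ) := by
      rw [← Real.rpow_natCast]
      apply Real.rpow_le_rpow_of_exponent_le hX1
      push_cast
      linarith
    have hch : ∀ j : ℕ, ∃ (P : Finset ℕ) (u : ℕ → ℝ), j < J →
        (∀ p ∈ P, p.Prime ∧ |Real.log ((p : ℝ) / Real.exp (v * lX + j * δ))| ≤
          ((X : ℝ) ^ κ) ^ (-33 : ℝ) ∧ 0 < u p ∧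
          u p ≤ ((X : ℝ) ^ κ) ^ (67 / 2 : ℝ) * (9 * Real.exp 3 * Real.log X) /
            Real.exp (v * lX + j * δ) ∧
          u p ≤ 2 * (Real.log p * wK k (Real.log (Real.exp (v * lX + j * δ))) p)) ∧
        ∑ p ∈ P, u p = 1 ∧
        WX ⌊(X : ℝ) ^ (250 * κ)⌋₊ (e X) ε
          (fun w => Real.exp (-(v * Real.log X * w / 4)) + C * Real.exp (-(c * v / κ)))
          P u := by
      intro j
      by_cases hj : j < J
      · obtain ⟨P, u, h⟩ := hεw (Real.exp (v * lX + j * δ)) (hexp j hj).1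
          ((hexp j hj).2.trans hX2v)
        exact ⟨P, u, fun _ => h⟩
      · exact ⟨∅, 0, fun h => absurd h hj⟩
    choose P u hPu using hch
    have hY0 : (0 : ℝ) < (X : ℝ) ^ κ := by positivity
    have hY1 : (1 : ℝ) ≤ (X : ℝ) ^ κ := Real.one_le_rpow hX1 hκ.le
    have hY33 : ((X : ℝ) ^ κ) ^ (-33 : ℝ) ≤ 1 :=
      Real.rpow_le_one_of_one_le_of_nonpos hY1 (by norm_num)
    have hlogp : ∀ j p, j < J → p ∈ P j →
        |Real.log p - (v * lX + j * δ)| ≤ ((X : ℝ) ^ κ) ^ (-33 : ℝ) := by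
      intro j p hj hp
      obtain ⟨h1, h2, -⟩ := (hPu j hj).1 p hp
      have hp0 : (0 : ℝ) < p := by exact_mod_cast h1.pos
      rwa [Real.log_div hp0.ne' (Real.exp_pos _).ne', Real.log_exp] at h2
    have hPB : ∀ j, j < J → P j ⊆ range (⌊3 * (X : ℝ) ^ (2 * v)⌋₊ + 1) := by
      intro j hj p hp
      obtain ⟨h1, -⟩ := (hPu j hj).1 p hp
      have hp0 : (0 : ℝ) < p := by exact_mod_cast h1.pos
      have h2 := hlogp j p hj hp
      have h3 : (p : ℝ) ≤ 3 * (X : ℝ) ^ (2 * v) := by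
        have h4 : Real.log p ≤ 1 + (v * lX + j * δ) := by
          have := (abs_le.1 h2).2
          linarith
        have h5 : (p : ℝ) ≤ Real.exp (1 + (v * lX + j * δ)) :=
          (Real.log_le_iff_le_exp hp0).1 h4
        rw [Real.exp_add] at h5
        have h6 : Real.exp 1 ≤ 3 := by
          have := Real.exp_one_lt_d9
          linarith
        refine h5.trans (mul_le_mul h6 (hexp j hj).2 (Real.exp_pos _).le (by norm_num))
      rw [Finset.mem_range]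
      exact Nat.lt_succ_of_le (Nat.le_floor h3)
    refine ⟨fun j p => if j < J ∧ p ∈ P j then u j p else 0, ?_, ?_, ?_, ?_, ?_⟩
    · intro j p
      show 0 ≤ (if j < J ∧ p ∈ P j then u j p else 0)
      split_ifs with h
      · exact ((hPu j h.1).1 p h.2).2.2.1.le
      · exact le_rfl
    · intro j p hne
      have hne' : (if j < J ∧ p ∈ P j then u j p else 0) ≠ 0 := hne
      have h : j < J ∧ p ∈ P j := by
        by_contra h
        exact hne' (if_neg h)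
      refine ⟨h.1, ((hPu j h.1).1 p h.2).1, hlogp j p h.1 h.2, ?_⟩
      show (if j < J ∧ p ∈ P j then u j p else 0) ≤ _
      rw [if_pos h]
      refine ((hPu j h.1).1 p h.2).2.2.2.1.trans ?_
      exact div_le_div_of_nonneg_left (by positivity) (by positivity) (hexp j h.1).1
    · intro j hj
      show ∑ p ∈ range (⌊3 * (X : ℝ) ^ (2 * v)⌋₊ + 1),
        (if j < J ∧ p ∈ P j then u j p else 0) = 1
      have h1 : ∀ p ∈ range (⌊3 * (X : ℝ) ^ (2 * v)⌋₊ + 1),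
          (if j < J ∧ p ∈ P j then u j p else 0) = if p ∈ P j then u j p else 0 := by
        intro p _
        simp [hj]
      rw [Finset.sum_congr rfl h1, Finset.sum_ite_mem,
        Finset.inter_eq_right.2 (hPB j hj)]
      exact (hPu j hj).2.1
    · intro p
      show ∑ j ∈ range J, (if j < J ∧ p ∈ P j then u j p else 0) ≤ _
      rcases Nat.eq_zero_or_pos p with hp0 | hp0
      · subst hp0
        have h1 : ∀ j ∈ range J, (if j < J ∧ 0 ∈ P j then u j 0 else 0) = 0 := by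
          intro j hj
          rw [if_neg]
          rintro ⟨h1, h2⟩
          exact absurd ((hPu j h1).1 0 h2).1 (by norm_num)
        rw [Finset.sum_congr rfl h1]
        simp
      · have hpR : (1 : ℝ) ≤ p := by exact_mod_cast hp0
        have hlp : 0 ≤ Real.log p := Real.log_nonneg hpR
        have h1 : ∀ j ∈ range J, (if j < J ∧ p ∈ P j then u j p else 0) ≤
            2 * Real.log p * wK k (v * lX + j * δ) p := by
          intro j hj
          have hj' := Finset.mem_range.1 hj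
          split_ifs with h
          · have h2 := ((hPu j h.1).1 p h.2).2.2.2.2
            rw [Real.log_exp] at h2
            linarith
          · have h3 : 0 ≤ wK k (v * lX + j * δ) p := wK_nonneg (by positivity) p
            positivity
        have hgrid := x12_grid (k := k) (J := J) (M₀ := v * lX) (δ := δ) hvlX (by
            refine le_trans ?_ hk1
            apply pow_le_pow_left₀ (by linarith)
            have : v * lX ≤ 1 * lX := mul_le_mul_of_nonneg_right hv1 hlX0.le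
            linarith) hδ (by
            have h4 : ((X : ℝ) ^ κ) ^ (34 : ℕ) * (X : ℝ) ^ (-(34 * κ)) = 1 := by
              rw [← Real.rpow_natCast, ← Real.rpow_mul hX0.le, ← Real.rpow_add hX0]
              have : κ * ((34 : ℕ) : ℝ) + -(34 * κ) = 0 := by push_cast; ring
              rw [this, Real.rpow_zero]
            have h5 : Real.sqrt k * δ ≤ 1 := by
              rw [← h4]
              exact mul_le_mul hk2 hδ2 hδ.le (by positivity)
            linarith) hJ hp0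
        calc ∑ j ∈ range J, (if j < J ∧ p ∈ P j then u j p else 0) ≤
            ∑ j ∈ range J, 2 * Real.log p * wK k (v * lX + j * δ) p := Finset.sum_le_sum h1
          _ = 2 * Real.log p * ∑ j ∈ range J, wK k (v * lX + j * δ) p := by
              rw [Finset.mul_sum]
          _ ≤ 2 * Real.log p * (12 * Real.exp 2 / (δ * p)) :=
              mul_le_mul_of_nonneg_left hgrid (by positivity)
          _ = 24 * Real.exp 2 * Real.log p / (δ * p) := by ring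
          _ ≤ max C (24 * Real.exp 2) * Real.log p / (δ * p) := by
              apply div_le_div_of_nonneg_right _ (by positivity)
              exact mul_le_mul_of_nonneg_right (le_max_right _ _) hlp
    · intro j hj
      have key : ∀ (q : ℕ) (χ : DirichletCharacter ℂ q),
          ∑ p ∈ range (⌊3 * (X : ℝ) ^ (2 * v)⌋₊ + 1),
            (((if j < J ∧ p ∈ P j then u j p else 0 : ℝ)) : ℂ) * χ (p : ZMod q) =
          ∑ p ∈ P j, ((u j p : ℝ) : ℂ) * χ (p : ZMod q) := by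
        intro q χ
        have h1 : ∀ p ∈ range (⌊3 * (X : ℝ) ^ (2 * v)⌋₊ + 1),
            (((if j < J ∧ p ∈ P j then u j p else 0 : ℝ)) : ℂ) * χ (p : ZMod q) =
              if p ∈ P j then ((u j p : ℝ) : ℂ) * χ (p : ZMod q) else 0 := by
          intro p _
          by_cases h : p ∈ P j
          · simp [hj, h]
          · simp [h]
        rw [Finset.sum_congr rfl h1, Finset.sum_ite_mem, Finset.inter_eq_right.2 (hPB j hj)]
      obtain ⟨k1, k2⟩ := hWX _ _ (hPu j hj).2.2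
      refine ⟨fun q hq χ hχ hne => ?_, fun he w hw hf => ?_⟩
      · show ‖∑ p ∈ range (⌊3 * (X : ℝ) ^ (2 * v)⌋₊ + 1),
          (((if j < J ∧ p ∈ P j then u j p else 0 : ℝ)) : ℂ) * χ (p : ZMod q)‖ ≤ ε q χ
        rw [key]
        exact k1 q hq χ hχ hne
      · show ‖∑ p ∈ range (⌊3 * (X : ℝ) ^ (2 * v)⌋₊ + 1),
          (((if j < J ∧ p ∈ P j then u j p else 0 : ℝ)) : ℂ) *
            (e X).2 (p : ZMod (e X).1)‖ ≤ _
        rw [key]
        exact k2 he w hw hf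


end Pool.Agent.GA
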