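import Pool.Agent.Lib_helper41.LSP25.Defs

/-! LSP2.5, block V4: the twist by the exceptional character. -/

set_option autoImplicit false

namespace Pool.Agent.GA

open Finset Complex Metric Filter
open scoped ArithmeticFunction.vonMangoldt Classical Topology

/-- the lift of a character to the level `N` -/
noncomputable def v4_lift (N : ℕ) (s : Sg) : DirichletCharacter ℂ N :=
  if h : s.1 ∣ N then DirichletCharacter.changeLevel h s.2 else 1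

theorem v4_lift_inj {N : ℕ} [NeZero N] {s s' : Sg} (h : s.1 ∣ N) (h' : s'.1 ∣ N)
    (hp : s.2.IsPrimitive) (hp' : s'.2.IsPrimitive) (heq : v4_lift N s = v4_lift N s') :
    s = s' := by
  obtain ⟨q, χ⟩ := s
  obtain ⟨q', χ'⟩ := s'
  simp only at h h' hp hp'
  simp only [v4_lift, dif_pos h, dif_pos h'] at heq
  have h1 : q = q' := by
    have h2 := congrArg DirichletCharacter.conductor heq
    rw [DirichletCharacter.conductor_changeLevel, DirichletCharacter.conductor_changeLevel] at h2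
    rw [← (DirichletCharacter.isPrimitive_def χ).1 hp, h2,
      (DirichletCharacter.isPrimitive_def χ').1 hp']
  subst h1
  have h3 : χ = χ' := DirichletCharacter.changeLevel_injective h heq
  rw [h3]

/-- the twist -/
noncomputable def v4_tau {q₁ : ℕ} (χ₁ : DirichletCharacter ℂ q₁) (s : Sg) : Sg :=
  ⟨(s.2.mul χ₁).conductor, (s.2.mul χ₁).primitiveCharacter⟩

theorem v4_tau_dvd {q₁ : ℕ} (χ₁ : DirichletCharacter ℂ q₁) (s : Sg) :
    (v4_tau χ₁ s).1 ∣ Nat.lcm s.1 q₁ :=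
  DirichletCharacter.conductor_dvd_level _

theorem v4_tau_lift {q₁ : ℕ} (χ₁ : DirichletCharacter ℂ q₁) (s : Sg) {N : ℕ}
    (h : s.1 ∣ N) (h₁ : q₁ ∣ N) :
    v4_lift N (v4_tau χ₁ s) = v4_lift N s * v4_lift N ⟨q₁, χ₁⟩ := by
  have h2 : Nat.lcm s.1 q₁ ∣ N := Nat.lcm_dvd h h₁
  have h3 : (v4_tau χ₁ s).1 ∣ N := (v4_tau_dvd χ₁ s).trans h2
  have h1' : (⟨q₁, χ₁⟩ : Sg).1 ∣ N := h₁
  simp only [v4_lift, dif_pos h, dif_pos h3, dif_pos h1']
  have h4 : DirichletCharacter.changeLevel h3 (v4_tau χ₁ s).2 =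
      DirichletCharacter.changeLevel h2 (s.2.mul χ₁) := by
    rw [DirichletCharacter.changeLevel_trans _ (v4_tau_dvd χ₁ s) h2]
    congr 1
    exact DirichletCharacter.changeLevel_primitiveCharacter _
  rw [h4, DirichletCharacter.mul, map_mul, ← DirichletCharacter.changeLevel_trans,
    ← DirichletCharacter.changeLevel_trans]

theorem twist_prim_pr {q₁ : ℕ} {χ₁ : DirichletCharacter ℂ q₁} (hq₁ : 1 ≤ q₁) (h₁ : χ₁ ∈ Prm q₁)
    (h₁2 : χ₁ ^ 2 = 1) (R : ℕ) : ∃ τ : Sg → Sg,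
      Set.InjOn τ {s | s.1 ∈ Icc 1 R ∧ s.2 ∈ Prm s.1 ∧ s ≠ ⟨q₁, χ₁⟩} ∧
      ∀ q ∈ Icc 1 R, ∀ χ ∈ Prm q, (⟨q, χ⟩ : Sg) ≠ ⟨q₁, χ₁⟩ →
        (τ ⟨q, χ⟩).1 ∈ Icc 1 (R * q₁) ∧ (τ ⟨q, χ⟩).2 ∈ Prm (τ ⟨q, χ⟩).1 ∧
        τ ⟨q, χ⟩ ≠ ⟨q₁, χ₁⟩ ∧
        ∀ p : ℕ, p.Prime → R * q₁ < p → (τ ⟨q, χ⟩).2 (p : ZMod (τ ⟨q, χ⟩).1) =
          χ (p : ZMod q) * χ₁ (p : ZMod q₁) := by
  have hP1 : χ₁.IsPrimitive := (Finset.mem_filter.1 h₁).2.1
  have hsq : ∀ N : ℕ, v4_lift N ⟨q₁, χ₁⟩ * v4_lift N ⟨q₁, χ₁⟩ = 1 := by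
    intro N
    by_cases h : q₁ ∣ N
    · have h' : (⟨q₁, χ₁⟩ : Sg).1 ∣ N := h
      simp only [v4_lift, dif_pos h']
      rw [← map_mul, ← pow_two, h₁2, map_one]
    · have h' : ¬ (⟨q₁, χ₁⟩ : Sg).1 ∣ N := h
      simp only [v4_lift, dif_neg h', mul_one]
  refine ⟨v4_tau χ₁, ?_, ?_⟩
  · rintro s ⟨hs1, hs2, -⟩ s' ⟨hs1', hs2', -⟩ heq
    have hN : s.1 * s'.1 * q₁ ≠ 0 := by
      have h1 := (Finset.mem_Icc.1 hs1).1
      have h2 := (Finset.mem_Icc.1 hs1').1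
      positivity
    have : NeZero (s.1 * s'.1 * q₁) := ⟨hN⟩
    have hd : s.1 ∣ s.1 * s'.1 * q₁ := (Dvd.intro _ rfl : s.1 ∣ s.1 * s'.1).mul_right _
    have hd' : s'.1 ∣ s.1 * s'.1 * q₁ := (Dvd.intro_left _ rfl : s'.1 ∣ s.1 * s'.1).mul_right _
    have hd1 : q₁ ∣ s.1 * s'.1 * q₁ := Dvd.intro_left _ rfl
    have h1 := v4_tau_lift χ₁ s hd hd1
    have h2 := v4_tau_lift χ₁ s' hd' hd1
    rw [heq] at h1
    rw [h1] at h2
    have h3 := congrArg (fun x => x * v4_lift (s.1 * s'.1 * q₁) ⟨q₁, χ₁⟩) h2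
    simp only [mul_assoc, hsq, mul_one] at h3
    exact v4_lift_inj hd hd' (Finset.mem_filter.1 hs2).2.1 (Finset.mem_filter.1 hs2').2.1 h3
  · intro q hq χ hχ hne
    obtain ⟨hq1, hqR⟩ := Finset.mem_Icc.1 hq
    have hPχ : χ.IsPrimitive := (Finset.mem_filter.1 hχ).2.1
    have hχ1 : χ ≠ 1 := (Finset.mem_filter.1 hχ).2.2
    have hlcm : 0 < Nat.lcm q q₁ := Nat.lcm_pos hq1 hq₁
    have : NeZero (Nat.lcm q q₁) := ⟨hlcm.ne'⟩
    have hlcmle : Nat.lcm q q₁ ≤ R * q₁ :=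
      (Nat.le_of_dvd (Nat.mul_pos hq1 hq₁) (Nat.lcm_dvd_mul q q₁)).trans
        (Nat.mul_le_mul_right _ hqR)
    have hdv : (v4_tau χ₁ ⟨q, χ⟩).1 ∣ Nat.lcm q q₁ := v4_tau_dvd χ₁ ⟨q, χ⟩
    have hd : (⟨q, χ⟩ : Sg).1 ∣ Nat.lcm q q₁ := Nat.dvd_lcm_left q q₁
    have hd1 : q₁ ∣ Nat.lcm q q₁ := Nat.dvd_lcm_right q q₁
    have hd1' : (⟨q₁, χ₁⟩ : Sg).1 ∣ Nat.lcm q q₁ := Nat.dvd_lcm_right q q₁
    have hlift := v4_tau_lift χ₁ ⟨q, χ⟩ hd hd1
    refine ⟨?_, ?_, ?_, ?_⟩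
    · exact Finset.mem_Icc.2 ⟨Nat.pos_of_dvd_of_pos hdv hlcm,
        (Nat.le_of_dvd hlcm hdv).trans hlcmle⟩
    · refine Finset.mem_filter.2 ⟨Finset.mem_univ _, ?_, ?_⟩
      · exact DirichletCharacter.primitiveCharacter_isPrimitive _
      · intro h1
        have h2 : v4_lift (Nat.lcm q q₁) (v4_tau χ₁ ⟨q, χ⟩) = 1 := by
          simp only [v4_lift, dif_pos hdv]
          rw [h1, map_one]
        rw [h2] at hlift
        have h3 := congrArg (fun x => x * v4_lift (Nat.lcm q q₁) ⟨q₁, χ₁⟩) hlift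
        simp only [mul_assoc, hsq, mul_one, one_mul] at h3
        exact hne (v4_lift_inj hd hd1' hPχ hP1 h3.symm)
    · intro h1
      rw [h1] at hlift
      have h3 := congrArg (fun x => x * v4_lift (Nat.lcm q q₁) ⟨q₁, χ₁⟩) hlift
      simp only [mul_assoc, hsq, mul_one] at h3
      apply hχ1
      have h4 : v4_lift (Nat.lcm q q₁) ⟨q, χ⟩ = DirichletCharacter.changeLevel hd χ := by
        simp only [v4_lift, dif_pos hd]
      rw [h4] at h3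
      exact (DirichletCharacter.changeLevel_eq_one_iff hd).1 h3.symm
    · intro p hp hpR
      have hcop : ∀ m : ℕ, 0 < m → m ≤ R * q₁ → IsCoprime ((p : ℕ) : ℤ) ((m : ℕ) : ℤ) := by
        intro m hm hmR
        rw [Nat.isCoprime_iff_coprime]
        exact (Nat.Prime.coprime_iff_not_dvd hp).2
          (fun h => absurd (Nat.le_of_dvd hm h) (by omega))
      have h1 : IsCoprime ((p : ℕ) : ℤ) ((Nat.lcm q q₁ : ℕ) : ℤ) := hcop _ hlcm hlcmle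
      have h2 := DirichletCharacter.primitiveCharacter_apply_of_isCoprime (χ.mul χ₁) h1
      have h3 : (χ.mul χ₁) (((p : ℕ) : ℤ) : ZMod (Nat.lcm q q₁)) =
          χ (((p : ℕ) : ℤ) : ZMod q) * χ₁ (((p : ℕ) : ℤ) : ZMod q₁) := by
        rw [DirichletCharacter.mul, MulChar.mul_apply,
          DirichletCharacter.changeLevel_eq_cast_of_dvd' _ _ h1,
          DirichletCharacter.changeLevel_eq_cast_of_dvd' _ _ h1]
      rw [h3] at h2
      simp only [Int.cast_natCast] at h2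
      exact h2

end Pool.Agent.GA
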