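import Pool.Agent.Lib_helper41.LSP25.V4

/-! LSP2.5, block V5a: one balanced window. -/

set_option autoImplicit false

namespace Pool.Agent.GA

open Finset Complex Metric Filter
open scoped ArithmeticFunction.vonMangoldt Classical Topology

/-- a real character takes the values `±1` at primes not dividing the modulus -/
theorem v5a_val {q : ℕ} {χ : DirichletCharacter ℂ q} (h2 : χ ^ 2 = 1) (hq : 1 ≤ q) {p : ℕ}
    (hp : p.Prime) (hqp : q < p) :
    χ (p : ZMod q) = (((χ (p : ZMod q)).re : ℝ) : ℂ) ∧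
      (χ (p : ZMod q)).re * (χ (p : ZMod q)).re = 1 := by
  have hcop : p.Coprime q := by
    rw [Nat.Prime.coprime_iff_not_dvd hp]
    intro h
    exact absurd (Nat.le_of_dvd (by omega) h) (by omega)
  have hu : IsUnit (p : ZMod q) := (ZMod.isUnit_iff_coprime p q).mpr hcop
  have h3 : χ (p : ZMod q) * χ (p : ZMod q) = 1 := by
    have h4 : (χ ^ 2) (p : ZMod q) = (1 : DirichletCharacter ℂ q) (p : ZMod q) := by rw [h2]
    rw [MulChar.one_apply hu, MulChar.pow_apply' χ two_ne_zero, sq] at h4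
    exact h4
  rcases mul_self_eq_one_iff.mp h3 with h | h
  · rw [h]
    simp
  · rw [h]
    simp

theorem v5a_ratio {a c σ : ℝ} (hσ : 0 < σ) (ha : |a| ≤ 1 - σ) (hc : |c| ≤ 1) :
    0 < 1 - a ^ 2 ∧ σ ≤ 1 - a ^ 2 ∧ σ / 2 ≤ (1 - a * c) / (1 - a ^ 2) ∧
      (1 - a * c) / (1 - a ^ 2) ≤ 1 / σ := by
  set b : ℝ := |a| with hb
  have hb0 : 0 ≤ b := abs_nonneg a
  have hab : a ^ 2 = b ^ 2 := (sq_abs a).symm
  have hac : |a * c| ≤ b := by
    rw [abs_mul]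
    exact mul_le_of_le_one_right hb0 hc
  have hac1 := (abs_le.mp hac).1
  have hac2 := (abs_le.mp hac).2
  have h1 : σ ≤ 1 - a ^ 2 := by
    rw [hab]
    nlinarith
  have h0 : 0 < 1 - a ^ 2 := by linarith
  refine ⟨h0, h1, ?_, ?_⟩
  · rw [le_div_iff₀ h0, hab]
    have h2 : 1 - b ^ 2 ≤ 2 * (1 - b) := by nlinarith
    have h3 : 0 ≤ 1 - b := by linarith
    nlinarith
  · rw [div_le_div_iff₀ h0 hσ, hab]
    nlinarith

theorem balance_pr {D R : ℕ} (hRD : R * R ≤ D) {e : Sg} (he : Exc D e)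
    {ε : (q : ℕ) → DirichletCharacter ℂ q → ℝ} (hε : ∀ q χ, 0 ≤ ε q χ) {σ : ℝ} (hσ : 0 < σ)
    (hσ1 : σ ≤ 1) :
    ∃ ε' : (q : ℕ) → DirichletCharacter ℂ q → ℝ, (∀ q χ, 0 ≤ ε' q χ) ∧
      ∑ q ∈ Icc 1 R, ∑ χ ∈ Prm q, ε' q χ ≤ 2 / σ * ∑ q ∈ Icc 1 D, ∑ χ ∈ Prm q, ε q χ ∧
      ∀ (P : Finset ℕ) (u : ℕ → ℝ), (∀ p ∈ P, 0 ≤ u p) →
        (∀ p ∈ P, u p ≠ 0 → p.Prime ∧ D < p) →
        ∑ p ∈ P, u p = 1 →
        (∀ q ∈ Icc 1 D, ∀ χ ∈ Prm q, (⟨q, χ⟩ : Sg) ≠ e →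
          ‖∑ p ∈ P, ((u p : ℝ) : ℂ) * χ (p : ZMod q)‖ ≤ ε q χ) →
        (e.1 ∈ Icc 1 D → ‖∑ p ∈ P, ((u p : ℝ) : ℂ) * e.2 (p : ZMod e.1)‖ ≤ 1 - σ) →
        ∃ u' : ℕ → ℝ, (∀ p ∈ P, σ / 2 * u p ≤ u' p ∧ u' p ≤ 1 / σ * u p) ∧
          ∑ p ∈ P, u' p = 1 ∧
          ∀ q ∈ Icc 1 R, ∀ χ ∈ Prm q,
            ‖∑ p ∈ P, ((u' p : ℝ) : ℂ) * χ (p : ZMod q)‖ ≤ ε' q χ := by
  obtain ⟨q₁, χ₁⟩ := e
  have hRD' : ∀ q ∈ Icc 1 R, q ∈ Icc 1 D := by
    intro q hq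
    rw [mem_Icc] at hq ⊢
    exact ⟨hq.1, by nlinarith [hq.1, hq.2]⟩
  have hsumD : ∑ q ∈ Icc 1 D, ∑ χ ∈ Prm q, ε q χ =
      ∑ s ∈ (Icc 1 D).sigma (fun q => Prm q), ε s.1 s.2 := by
    rw [Finset.sum_sigma]
  have hSD0 : 0 ≤ ∑ q ∈ Icc 1 D, ∑ χ ∈ Prm q, ε q χ :=
    Finset.sum_nonneg fun q _ => Finset.sum_nonneg fun χ _ => hε q χ
  have hle : ∑ q ∈ Icc 1 R, ∑ χ ∈ Prm q, ε q χ ≤ ∑ q ∈ Icc 1 D, ∑ χ ∈ Prm q, ε q χ :=
    Finset.sum_le_sum_of_subset_of_nonneg hRD'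
      fun q _ _ => Finset.sum_nonneg fun χ _ => hε q χ
  by_cases h1 : q₁ ∈ Icc 1 R
  · -- the exceptional modulus is at most `R`
    have h1D : q₁ ∈ Icc 1 D := hRD' q₁ h1
    obtain ⟨hp1, hsq1⟩ := he h1D
    have hq1 : 1 ≤ q₁ := (mem_Icc.mp h1).1
    have hq1R : q₁ ≤ R := (mem_Icc.mp h1).2
    have hq1D : q₁ ≤ D := (mem_Icc.mp h1D).2
    obtain ⟨τ, hτi, hτ⟩ := twist_prim_pr hq1 hp1 hsq1 R
    have hRq : R * q₁ ≤ D := (Nat.mul_le_mul_left R hq1R).trans hRD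
    refine ⟨fun q χ => if (⟨q, χ⟩ : Sg) = ⟨q₁, χ₁⟩ then 0 else
      (ε q χ + ε (τ ⟨q, χ⟩).1 (τ ⟨q, χ⟩).2) / σ, ?_, ?_, ?_⟩
    · intro q χ
      beta_reduce
      split_ifs
      · exact le_rfl
      · exact div_nonneg (add_nonneg (hε _ _) (hε _ _)) hσ.le
    · set A : Finset Sg := ((Icc 1 R).sigma (fun q => Prm q)).filter
        (fun s => s ≠ ⟨q₁, χ₁⟩) with hA
      have e1 : ∑ q ∈ Icc 1 R, ∑ χ ∈ Prm q, (if (⟨q, χ⟩ : Sg) = ⟨q₁, χ₁⟩ then 0 else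
          (ε q χ + ε (τ ⟨q, χ⟩).1 (τ ⟨q, χ⟩).2) / σ) =
          ∑ s ∈ A, (ε s.1 s.2 + ε (τ s).1 (τ s).2) / σ := by
        rw [hA, Finset.sum_filter, Finset.sum_sigma]
        refine Finset.sum_congr rfl fun q _ => Finset.sum_congr rfl fun χ _ => ?_
        by_cases h : (⟨q, χ⟩ : Sg) = ⟨q₁, χ₁⟩
        · rw [if_pos h, if_neg (not_not.mpr h)]
        · rw [if_neg h, if_pos h]
      have hmem : ∀ s ∈ A, s.1 ∈ Icc 1 R ∧ s.2 ∈ Prm s.1 ∧ s ≠ ⟨q₁, χ₁⟩ := by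
        intro s hs
        rw [hA, Finset.mem_filter, Finset.mem_sigma] at hs
        exact ⟨hs.1.1, hs.1.2, hs.2⟩
      have e2 : ∑ s ∈ A, ε s.1 s.2 ≤ ∑ q ∈ Icc 1 D, ∑ χ ∈ Prm q, ε q χ := by
        rw [hsumD]
        refine Finset.sum_le_sum_of_subset_of_nonneg (fun s hs => ?_) fun s _ _ => hε _ _
        obtain ⟨a1, a2, _⟩ := hmem s hs
        exact Finset.mem_sigma.mpr ⟨hRD' _ a1, a2⟩
      have e3 : ∑ s ∈ A, ε (τ s).1 (τ s).2 ≤ ∑ q ∈ Icc 1 D, ∑ χ ∈ Prm q, ε q χ := by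
        rw [hsumD]
        have hinj : Set.InjOn τ (A : Set Sg) := by
          intro s hs t ht h
          exact hτi (hmem s (Finset.mem_coe.mp hs)) (hmem t (Finset.mem_coe.mp ht)) h
        rw [← Finset.sum_image (f := fun s : Sg => ε s.1 s.2) (g := τ) hinj]
        refine Finset.sum_le_sum_of_subset_of_nonneg (fun t ht => ?_) fun s _ _ => hε _ _
        obtain ⟨s, hs, rfl⟩ := Finset.mem_image.mp ht
        obtain ⟨a1, a2, a3⟩ := hmem s hs
        obtain ⟨b1, b2, _, _⟩ := hτ s.1 a1 s.2 a2 a3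
        refine Finset.mem_sigma.mpr ⟨?_, b2⟩
        rw [mem_Icc] at b1 ⊢
        exact ⟨b1.1, b1.2.trans hRq⟩
      beta_reduce
      rw [e1, ← Finset.sum_div, Finset.sum_add_distrib, div_mul_eq_mul_div]
      exact div_le_div_of_nonneg_right (by linarith) hσ.le
    · intro P u hu0 hup hu1 hX hE
      have hE' := hE h1D
      set c : ℕ → ℝ := fun p => (χ₁ (p : ZMod q₁)).re with hc
      have hval : ∀ p ∈ P, u p ≠ 0 → χ₁ (p : ZMod q₁) = ((c p : ℝ) : ℂ) ∧ c p * c p = 1 := by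
        intro p hp h
        obtain ⟨a1, a2⟩ := hup p hp h
        exact v5a_val hsq1 hq1 a1 (lt_of_le_of_lt hq1D a2)
      set a : ℝ := ∑ p ∈ P, u p * c p with ha
      have hac : ∑ p ∈ P, ((u p : ℝ) : ℂ) * χ₁ (p : ZMod q₁) = (a : ℂ) := by
        rw [ha, Complex.ofReal_sum]
        refine Finset.sum_congr rfl fun p hp => ?_
        by_cases h : u p = 0
        · rw [h]
          simp
        · rw [(hval p hp h).1, Complex.ofReal_mul]
      have haabs : |a| ≤ 1 - σ := by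
        have h3 : ‖∑ p ∈ P, ((u p : ℝ) : ℂ) * χ₁ (p : ZMod q₁)‖ ≤ 1 - σ := hE'
        rwa [hac, Complex.norm_real, Real.norm_eq_abs] at h3
      obtain ⟨hd0, hdσ, _, _⟩ := v5a_ratio (c := 0) hσ haabs (by simp)
      have hd1 : 1 - a ^ 2 ≠ 0 := hd0.ne'
      refine ⟨fun p => u p * ((1 - a * c p) / (1 - a ^ 2)), ?_, ?_, ?_⟩
      · intro p hp
        beta_reduce
        by_cases h : u p = 0
        · rw [h]
          simp
        · have h3 := (hval p hp h).2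
          have h4 : |c p| ≤ 1 := by
            have : |c p| ^ 2 = 1 := by rw [sq_abs, sq, h3]
            nlinarith [abs_nonneg (c p)]
          obtain ⟨_, _, r1, r2⟩ := v5a_ratio hσ haabs h4
          have h5 := hu0 p hp
          constructor
          · rw [mul_comm]
            exact mul_le_mul_of_nonneg_left r1 h5
          · rw [mul_comm (1 / σ)]
            exact mul_le_mul_of_nonneg_left r2 h5
      · have e1 : ∀ p ∈ P, u p * ((1 - a * c p) / (1 - a ^ 2)) =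
            (u p - a * (u p * c p)) / (1 - a ^ 2) := fun p _ => by ring
        rw [Finset.sum_congr rfl e1, ← Finset.sum_div, Finset.sum_sub_distrib, ← Finset.mul_sum,
          hu1, ← ha]
        rw [show 1 - a * a = 1 - a ^ 2 by ring]
        exact div_self hd1
      · intro q hq χ hχ
        beta_reduce
        have e1 : ∑ p ∈ P, ((u p * ((1 - a * c p) / (1 - a ^ 2)) : ℝ) : ℂ) * χ (p : ZMod q) =
            (∑ p ∈ P, ((u p : ℝ) : ℂ) * χ (p : ZMod q) -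
              (a : ℂ) * ∑ p ∈ P, ((u p : ℝ) : ℂ) * (χ (p : ZMod q) * χ₁ (p : ZMod q₁))) /
              ((1 - a ^ 2 : ℝ) : ℂ) := by
          rw [Finset.mul_sum, ← Finset.sum_sub_distrib, Finset.sum_div]
          refine Finset.sum_congr rfl fun p hp => ?_
          by_cases h : u p = 0
          · rw [h]
            simp
          · rw [(hval p hp h).1]
            push_cast
            ring
        rw [e1]
        by_cases h : (⟨q, χ⟩ : Sg) = ⟨q₁, χ₁⟩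
        · rw [if_pos h]
          have hq' : q = q₁ := congrArg Sigma.fst h
          subst hq'
          have hχ' : χ = χ₁ := eq_of_heq (Sigma.mk.inj h).2
          subst hχ'
          have e2 : ∑ p ∈ P, ((u p : ℝ) : ℂ) * (χ (p : ZMod q) * χ (p : ZMod q)) = 1 := by
            have : ∀ p ∈ P, ((u p : ℝ) : ℂ) * (χ (p : ZMod q) * χ (p : ZMod q)) =
                ((u p : ℝ) : ℂ) := by
              intro p hp
              by_cases h : u p = 0
              · rw [h]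
                simp
              · rw [(hval p hp h).1, ← Complex.ofReal_mul, (hval p hp h).2]
                simp
            rw [Finset.sum_congr rfl this, ← Complex.ofReal_sum, hu1, Complex.ofReal_one]
          rw [e2, hac, mul_one, sub_self, zero_div, norm_zero]
        · rw [if_neg h]
          obtain ⟨b1, b2, b3, b4⟩ := hτ q hq χ hχ h
          have hb1 : (τ ⟨q, χ⟩).1 ∈ Icc 1 D := by
            rw [mem_Icc] at b1 ⊢
            exact ⟨b1.1, b1.2.trans hRq⟩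
          have n1 := hX q (hRD' q hq) χ hχ h
          have n2 := hX (τ ⟨q, χ⟩).1 hb1 (τ ⟨q, χ⟩).2 b2 b3
          have e2 : ∑ p ∈ P, ((u p : ℝ) : ℂ) * (χ (p : ZMod q) * χ₁ (p : ZMod q₁)) =
              ∑ p ∈ P, ((u p : ℝ) : ℂ) * (τ ⟨q, χ⟩).2 (p : ZMod (τ ⟨q, χ⟩).1) := by
            refine Finset.sum_congr rfl fun p hp => ?_
            by_cases h : u p = 0
            · rw [h]
              simp
            · obtain ⟨a1, a2⟩ := hup p hp h
              rw [b4 p a1 (by omega)]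
          rw [e2, norm_div, Complex.norm_real, Real.norm_eq_abs, abs_of_pos hd0]
          have n3 : ‖∑ p ∈ P, ((u p : ℝ) : ℂ) * χ (p : ZMod q) -
              (a : ℂ) * ∑ p ∈ P, ((u p : ℝ) : ℂ) *
                (τ ⟨q, χ⟩).2 (p : ZMod (τ ⟨q, χ⟩).1)‖ ≤
              ε q χ + ε (τ ⟨q, χ⟩).1 (τ ⟨q, χ⟩).2 := by
            refine (norm_sub_le _ _).trans (add_le_add n1 ?_)
            rw [norm_mul, Complex.norm_real, Real.norm_eq_abs]
            have n4 : |a| ≤ 1 := by linarith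
            calc |a| * ‖∑ p ∈ P, ((u p : ℝ) : ℂ) * (τ ⟨q, χ⟩).2 (p : ZMod (τ ⟨q, χ⟩).1)‖
                ≤ 1 * ‖∑ p ∈ P, ((u p : ℝ) : ℂ) * (τ ⟨q, χ⟩).2 (p : ZMod (τ ⟨q, χ⟩).1)‖ :=
                  mul_le_mul_of_nonneg_right n4 (norm_nonneg _)
              _ ≤ _ := by rw [one_mul]; exact n2
          calc ‖∑ p ∈ P, ((u p : ℝ) : ℂ) * χ (p : ZMod q) -
              (a : ℂ) * ∑ p ∈ P, ((u p : ℝ) : ℂ) *
                (τ ⟨q, χ⟩).2 (p : ZMod (τ ⟨q, χ⟩).1)‖ / (1 - a ^ 2)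
              ≤ (ε q χ + ε (τ ⟨q, χ⟩).1 (τ ⟨q, χ⟩).2) / (1 - a ^ 2) :=
                div_le_div_of_nonneg_right n3 hd0.le
            _ ≤ (ε q χ + ε (τ ⟨q, χ⟩).1 (τ ⟨q, χ⟩).2) / σ :=
                div_le_div_of_nonneg_left (add_nonneg (hε _ _) (hε _ _)) hσ hdσ
  · -- the exceptional modulus is larger than `R`
    refine ⟨ε, hε, ?_, ?_⟩
    · have h3 : (1 : ℝ) ≤ 2 / σ := by
        rw [le_div_iff₀ hσ]
        linarith
      calc ∑ q ∈ Icc 1 R, ∑ χ ∈ Prm q, ε q χ ≤ 1 * ∑ q ∈ Icc 1 D, ∑ χ ∈ Prm q, ε q χ := by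
            rw [one_mul]; exact hle
        _ ≤ _ := mul_le_mul_of_nonneg_right h3 hSD0
    · intro P u hu0 hup hu1 hX hE
      refine ⟨u, fun p hp => ⟨?_, ?_⟩, hu1, fun q hq χ hχ => ?_⟩
      · have := hu0 p hp
        nlinarith
      · have := hu0 p hp
        have h3 : (1 : ℝ) ≤ 1 / σ := by
          rw [le_div_iff₀ hσ]
          linarith
        nlinarith
      · refine hX q (hRD' q hq) χ hχ fun h => h1 ?_
        have hq' : q = q₁ := congrArg Sigma.fst h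
        rw [← hq']
        exact hq

end Pool.Agent.GA
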