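import Pool.Agent.Lib_helper41.LSP25.V3b
import Pool.Agent.Lib_helper41.LSP25.V5a

/-! LSP2.5, block V5b: balanced windows. -/

set_option autoImplicit false

namespace Pool.Agent.GA

open Finset Complex Metric Filter
open scoped ArithmeticFunction.vonMangoldt Classical Topology

/-- the numerical conditions on `X` -/
theorem v5b_ev (κ K : ℝ) (hκ : 0 < κ) : ∃ X₂ : ℕ, ∀ X : ℕ, X₂ ≤ X →
    Real.exp 1 < (X : ℝ) ^ κ ∧ K * Real.log X ≤ ((X : ℝ) ^ κ) ^ (1 / 2 : ℝ) := by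
  have h1 : ∀ᶠ x : ℝ in atTop, Real.exp 1 < x ^ κ :=
    (tendsto_rpow_atTop hκ).eventually_gt_atTop _
  have h2 : ∀ᶠ x : ℝ in atTop, K * Real.log x ≤ x ^ (κ / 2) := by
    have h3 := isLittleO_log_rpow_atTop (r := κ / 2) (by positivity)
    have h4 := h3.bound (c := 1 / (|K| + 1)) (by positivity)
    filter_upwards [h4, eventually_ge_atTop (1 : ℝ)] with x hx hx1
    have hl : 0 ≤ Real.log x := Real.log_nonneg hx1
    have hp : 0 ≤ x ^ (κ / 2) := Real.rpow_nonneg (by linarith) _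
    rw [Real.norm_eq_abs, Real.norm_eq_abs, abs_of_nonneg hl, abs_of_nonneg hp] at hx
    have hK : 0 < |K| + 1 := by positivity
    calc K * Real.log x ≤ (|K| + 1) * Real.log x :=
          mul_le_mul_of_nonneg_right (by linarith [le_abs_self K]) hl
      _ ≤ (|K| + 1) * (1 / (|K| + 1) * x ^ (κ / 2)) := mul_le_mul_of_nonneg_left hx hK.le
      _ = x ^ (κ / 2) := by field_simp
  obtain ⟨N, hN⟩ := eventually_atTop.mp
    ((tendsto_natCast_atTop_atTop (R := ℝ)).eventually (h1.and h2))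
  refine ⟨N, fun X hX => ?_⟩
  obtain ⟨a1, a2⟩ := hN X hX
  refine ⟨a1, ?_⟩
  rw [← Real.rpow_mul (Nat.cast_nonneg X)]
  have : κ * (1 / 2) = κ / 2 := by ring
  rw [this]
  exact a2

/-- `D < p` for the primes of the windows -/
theorem v5b_big {κ v Y : ℝ} {X p : ℕ} (hA2 : 251 * κ ≤ v) (hX : 2 ≤ X)
    (h1 : Real.exp 1 < (X : ℝ) ^ κ) (hp : 0 < p) (hY : v * Real.log X ≤ Y)
    (h : |Real.log p - Y| ≤ ((X : ℝ) ^ κ) ^ (-33 : ℝ)) :
    ⌊(X : ℝ) ^ (250 * κ)⌋₊ < p := by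
  have hX0 : (0 : ℝ) < X := by
    have : (2 : ℝ) ≤ X := by exact_mod_cast hX
    linarith
  have hp0 : (0 : ℝ) < p := by exact_mod_cast hp
  have hL : 0 < Real.log X := Real.log_pos (by exact_mod_cast (by omega : 1 < X))
  have h2 : ((X : ℝ) ^ κ) ^ (-33 : ℝ) ≤ 1 := by
    refine Real.rpow_le_one_of_one_le_of_nonpos ?_ (by norm_num)
    have : (1 : ℝ) ≤ Real.exp 1 := Real.one_le_exp (by norm_num)
    linarith
  have h3 : 1 < κ * Real.log X := by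
    have := Real.log_lt_log (Real.exp_pos 1) h1
    rwa [Real.log_exp, Real.log_rpow hX0] at this
  have h4 : Y - 1 ≤ Real.log p := by
    have := (abs_le.mp h).1
    linarith
  have h5 : 250 * κ * Real.log X < Real.log p := by
    have : 251 * κ * Real.log X ≤ v * Real.log X := mul_le_mul_of_nonneg_right hA2 hL.le
    linarith
  have h6 : (X : ℝ) ^ (250 * κ) < p := by
    rw [← Real.log_lt_log_iff (Real.rpow_pos_of_pos hX0 _) hp0, Real.log_rpow hX0]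
    exact h5
  exact (Nat.floor_lt (Real.rpow_nonneg hX0.le _)).mpr h6

theorem gal_band_free_pr {lam v : ℝ} (hlam : 0 < lam) (hv : 0 < v) (hv1 : v ≤ 1) :
    ∃ C : ℝ, 1 ≤ C ∧ ∃ c : ℝ, 0 < c ∧ ∃ A : ℝ, 1 ≤ A ∧ ∀ κ : ℝ, 0 < κ → A * κ ≤ v →
    ∃ X₀ : ℕ, ∀ X : ℕ, X₀ ≤ X → Free (lam / Real.log X) ⌊(X : ℝ) ^ (250 * κ)⌋₊ →
    ∃ ε : (q : ℕ) → DirichletCharacter ℂ q → ℝ, (∀ q χ, 0 ≤ ε q χ) ∧
      ∑ q ∈ Icc 1 ⌊(X : ℝ) ^ (124 * κ)⌋₊, ∑ χ ∈ Prm q, ε q χ ≤ C * Real.exp (-(c * v / κ)) ∧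
      (∀ Z : ℝ, (X : ℝ) ^ v ≤ Z → Z ≤ (X : ℝ) ^ (2 : ℕ) → ∃ (P : Finset ℕ) (u : ℕ → ℝ),
        (∀ p ∈ P, p.Prime ∧ |Real.log ((p : ℝ) / Z)| ≤ ((X : ℝ) ^ κ) ^ (-33 : ℝ) ∧ 0 < u p ∧
          u p ≤ ((X : ℝ) ^ κ) ^ (34 : ℝ) / Z) ∧
        ∑ p ∈ P, u p = 1 ∧
        ∀ q ∈ Icc 1 ⌊(X : ℝ) ^ (124 * κ)⌋₊, ∀ χ ∈ Prm q,
          ‖∑ p ∈ P, ((u p : ℝ) : ℂ) * χ (p : ZMod q)‖ ≤ ε q χ) ∧
      ∀ (δ : ℝ) (J : ℕ), 0 < δ → δ ≤ (X : ℝ) ^ (-(34 * κ)) → J * δ ≤ v * Real.log X →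
        ∃ u : ℕ → ℕ → ℝ,
          (∀ j p, 0 ≤ u j p) ∧
          (∀ j p, u j p ≠ 0 → j < J ∧ p.Prime ∧
            |Real.log p - (v * Real.log X + j * δ)| ≤ ((X : ℝ) ^ κ) ^ (-33 : ℝ) ∧
            u j p ≤ ((X : ℝ) ^ κ) ^ (34 : ℝ) / (X : ℝ) ^ v) ∧
          (∀ j, j < J → ∑ p ∈ range (⌊3 * (X : ℝ) ^ (2 * v)⌋₊ + 1), u j p = 1) ∧
          (∀ p, ∑ j ∈ range J, u j p ≤ C * Real.log p / (δ * p)) ∧
          ∀ j, j < J → ∀ q ∈ Icc 1 ⌊(X : ℝ) ^ (124 * κ)⌋₊, ∀ χ ∈ Prm q,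
            ‖∑ p ∈ range (⌊3 * (X : ℝ) ^ (2 * v)⌋₊ + 1), ((u j p : ℝ) : ℂ) *
              χ (p : ZMod q)‖ ≤ ε q χ := by
  obtain ⟨C₀, hC₀, c₀, hc₀, A₀, hA₀, H⟩ := band_exc_pr
  have hC00 : 0 < C₀ := by linarith
  set r : ℝ := Real.exp (-(v * lam / 4)) with hr
  have hr0 : 0 < r := Real.exp_pos _
  have hr1 : r < 1 := by
    rw [hr, Real.exp_lt_one_iff]
    have : 0 < v * lam / 4 := by positivity
    linarith
  set σ : ℝ := (1 - r) / 2 with hσd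
  have hσ : 0 < σ := by rw [hσd]; linarith
  have hσ1 : σ ≤ 1 := by rw [hσd]; linarith
  have hCσ : C₀ ≤ C₀ / σ := by
    rw [le_div_iff₀ hσ]
    exact mul_le_of_le_one_right hC00.le hσ1
  refine ⟨2 * C₀ / σ, ?_, c₀, hc₀, max A₀ (max 251 (Real.log (C₀ / σ) / c₀)),
    hA₀.trans (le_max_left _ _), ?_⟩
  · rw [mul_div_assoc]
    linarith
  intro κ hκ hAκ
  obtain ⟨e, hexc, H2⟩ := H κ hκ
  have hA1 : A₀ * κ ≤ v := (mul_le_mul_of_nonneg_right (le_max_left _ _) hκ.le).trans hAκ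
  have hA2 : 251 * κ ≤ v := (mul_le_mul_of_nonneg_right
    ((le_max_left _ _).trans (le_max_right _ _)) hκ.le).trans hAκ
  have hA3 : Real.log (C₀ / σ) / c₀ * κ ≤ v := (mul_le_mul_of_nonneg_right
    ((le_max_right _ _).trans (le_max_right _ _)) hκ.le).trans hAκ
  obtain ⟨X₁, H3⟩ := H2 v hA1 hv1
  obtain ⟨X₂, H4⟩ := v5b_ev κ (9 * Real.exp 3 / σ) hκ
  have hsm : C₀ * Real.exp (-(c₀ * v / κ)) ≤ σ := by
    have h1 : Real.log (C₀ / σ) ≤ c₀ * v / κ := by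
      rw [le_div_iff₀ hκ]
      have h2 : Real.log (C₀ / σ) / c₀ * κ * c₀ ≤ v * c₀ := mul_le_mul_of_nonneg_right hA3 hc₀.le
      have h3 : Real.log (C₀ / σ) / c₀ * κ * c₀ = Real.log (C₀ / σ) * κ := by
        field_simp
      linarith
    have h2 : Real.exp (-(c₀ * v / κ)) ≤ σ / C₀ := by
      have h3 : σ / C₀ = Real.exp (-Real.log (C₀ / σ)) := by
        rw [Real.exp_neg, Real.exp_log (by positivity), inv_div]
      rw [h3]
      exact Real.exp_le_exp.mpr (by linarith)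
    calc C₀ * Real.exp (-(c₀ * v / κ)) ≤ C₀ * (σ / C₀) := mul_le_mul_of_nonneg_left h2 hC00.le
      _ = σ := by field_simp
  refine ⟨max (max X₁ X₂) 2, fun X hX hfree => ?_⟩
  have hX1 : X₁ ≤ X := ((le_max_left _ _).trans (le_max_left _ _)).trans hX
  have hX2 : X₂ ≤ X := ((le_max_right _ _).trans (le_max_left _ _)).trans hX
  have hX3 : 2 ≤ X := (le_max_right _ _).trans hX
  have hXr : (2 : ℝ) ≤ X := by exact_mod_cast hX3
  have hX0 : (0 : ℝ) < X := by linarith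
  have hL : 0 < Real.log X := Real.log_pos (by linarith)
  obtain ⟨g1, g2⟩ := H4 X hX2
  obtain ⟨ε, hε, hεs, HW, HJ⟩ := H3 X hX1
  have hRD : ⌊(X : ℝ) ^ (124 * κ)⌋₊ * ⌊(X : ℝ) ^ (124 * κ)⌋₊ ≤ ⌊(X : ℝ) ^ (250 * κ)⌋₊ := by
    refine Nat.le_floor ?_
    rw [Nat.cast_mul]
    have h1 : ((⌊(X : ℝ) ^ (124 * κ)⌋₊ : ℕ) : ℝ) ≤ (X : ℝ) ^ (124 * κ) :=
      Nat.floor_le (Real.rpow_nonneg hX0.le _)
    calc ((⌊(X : ℝ) ^ (124 * κ)⌋₊ : ℕ) : ℝ) * ((⌊(X : ℝ) ^ (124 * κ)⌋₊ : ℕ) : ℝ)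
        ≤ (X : ℝ) ^ (124 * κ) * (X : ℝ) ^ (124 * κ) :=
          mul_le_mul h1 h1 (Nat.cast_nonneg _) (Real.rpow_nonneg hX0.le _)
      _ = (X : ℝ) ^ (248 * κ) := by
          rw [← Real.rpow_add hX0]
          congr 1
          ring
      _ ≤ (X : ℝ) ^ (250 * κ) := Real.rpow_le_rpow_of_exponent_le (by linarith) (by linarith)
  obtain ⟨ε', hε', hsum', HB⟩ := balance_pr hRD (hexc X hX3) hε hσ hσ1
  have hE : Real.exp (-(v * Real.log X * (lam / Real.log X) / 4)) +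
      C₀ * Real.exp (-(c₀ * v / κ)) ≤ 1 - σ := by
    have h1 : v * Real.log X * (lam / Real.log X) / 4 = v * lam / 4 := by
      field_simp
    rw [h1, ← hr]
    have h2 : 1 - σ = r + σ := by rw [hσd]; ring
    linarith
  have hw0 : 0 ≤ lam / Real.log X := by positivity
  -- the upper bound for the weights
  have hup : ∀ x Z : ℝ, 0 < Z → x ≤ ((X : ℝ) ^ κ) ^ (67 / 2 : ℝ) *
      (9 * Real.exp 3 * Real.log X) / Z → 1 / σ * x ≤ ((X : ℝ) ^ κ) ^ (34 : ℝ) / Z := by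
    intro x Z hZ hx
    have hXκ : 0 < (X : ℝ) ^ κ := Real.rpow_pos_of_pos hX0 _
    have h1 : ((X : ℝ) ^ κ) ^ (34 : ℝ) =
        ((X : ℝ) ^ κ) ^ (67 / 2 : ℝ) * ((X : ℝ) ^ κ) ^ (1 / 2 : ℝ) := by
      rw [← Real.rpow_add hXκ]
      norm_num
    calc 1 / σ * x ≤ 1 / σ * (((X : ℝ) ^ κ) ^ (67 / 2 : ℝ) *
          (9 * Real.exp 3 * Real.log X) / Z) := mul_le_mul_of_nonneg_left hx (by positivity)
      _ = ((X : ℝ) ^ κ) ^ (67 / 2 : ℝ) * (9 * Real.exp 3 / σ * Real.log X) / Z := by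
          field_simp
      _ ≤ ((X : ℝ) ^ κ) ^ (67 / 2 : ℝ) * ((X : ℝ) ^ κ) ^ (1 / 2 : ℝ) / Z :=
          div_le_div_of_nonneg_right (mul_le_mul_of_nonneg_left g2
            (Real.rpow_nonneg hXκ.le _)) hZ.le
      _ = _ := by rw [h1]
  refine ⟨ε', hε', ?_, ?_, ?_⟩
  · refine hsum'.trans ?_
    calc 2 / σ * ∑ q ∈ Icc 1 ⌊(X : ℝ) ^ (250 * κ)⌋₊, ∑ χ ∈ Prm q, ε q χ
        ≤ 2 / σ * (C₀ * Real.exp (-(c₀ * v / κ))) :=
          mul_le_mul_of_nonneg_left hεs (by positivity)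
      _ = 2 * C₀ / σ * Real.exp (-(c₀ * v / κ)) := by ring
  · intro Z hZ1 hZ2
    have hZ0 : 0 < Z := (Real.rpow_pos_of_pos hX0 v).trans_le hZ1
    obtain ⟨P, u, hu, hus, hWX1, hWX2⟩ := HW Z hZ1 hZ2
    have hlogZ : v * Real.log X ≤ Real.log Z := by
      rw [← Real.log_rpow hX0]
      exact Real.log_le_log (Real.rpow_pos_of_pos hX0 _) hZ1
    obtain ⟨u', hu'1, hu'2, hu'3⟩ := HB P u (fun p hp => (hu p hp).2.2.1.le)
      (fun p hp _ => by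
        obtain ⟨a1, a2, _, _⟩ := hu p hp
        refine ⟨a1, v5b_big hA2 hX3 g1 a1.pos hlogZ ?_⟩
        have hp0 : (p : ℝ) ≠ 0 := by exact_mod_cast a1.ne_zero
        rwa [← Real.log_div hp0 hZ0.ne'])
      hus hWX1 (fun h => (hWX2 h _ hw0 hfree).trans hE)
    refine ⟨P, u', fun p hp => ?_, hu'2, hu'3⟩
    obtain ⟨a1, a2, a3, a4⟩ := hu p hp
    obtain ⟨b1, b2⟩ := hu'1 p hp
    refine ⟨a1, a2, ?_, b2.trans (hup _ _ hZ0 a4)⟩
    have : 0 < σ / 2 * u p := by positivity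
    linarith
  · intro δ J hδ hδ1 hJδ
    obtain ⟨u, h1, h2, h3, h4, h5⟩ := HJ δ J hδ hδ1 hJδ
    set N := ⌊3 * (X : ℝ) ^ (2 * v)⌋₊ + 1 with hN
    have key : ∀ j : ℕ, ∃ u' : ℕ → ℝ, j < J →
        (∀ p ∈ range N, σ / 2 * u j p ≤ u' p ∧ u' p ≤ 1 / σ * u j p) ∧
          ∑ p ∈ range N, u' p = 1 ∧
          ∀ q ∈ Icc 1 ⌊(X : ℝ) ^ (124 * κ)⌋₊, ∀ χ ∈ Prm q,
            ‖∑ p ∈ range N, ((u' p : ℝ) : ℂ) * χ (p : ZMod q)‖ ≤ ε' q χ := by
      intro j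
      by_cases hj : j < J
      · obtain ⟨u', hu'1, hu'2, hu'3⟩ := HB (range N) (u j) (fun p _ => h1 j p)
          (fun p _ hne => by
            obtain ⟨a0, a1, a2, _⟩ := h2 j p hne
            refine ⟨a1, v5b_big hA2 hX3 g1 a1.pos ?_ a2⟩
            have : (0 : ℝ) ≤ j * δ := by positivity
            linarith)
          (h3 j hj) (h5 j hj).1 (fun h => ((h5 j hj).2 h _ hw0 hfree).trans hE)
        exact ⟨u', fun _ => ⟨hu'1, hu'2, hu'3⟩⟩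
      · exact ⟨0, fun h => absurd h hj⟩
    choose w hw using key
    refine ⟨fun j p => if j < J ∧ p ∈ range N then w j p else 0, ?_, ?_, ?_, ?_, ?_⟩
    · intro j p
      beta_reduce
      split_ifs with h
      · have b1 := ((hw j h.1).1 p h.2).1
        have : 0 ≤ σ / 2 * u j p := mul_nonneg (by positivity) (h1 j p)
        linarith
      · exact le_rfl
    · intro j p hne
      beta_reduce at hne ⊢
      by_cases h : j < J ∧ p ∈ range N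
      · rw [if_pos h] at hne ⊢
        obtain ⟨b1, b2⟩ := (hw j h.1).1 p h.2
        have hune : u j p ≠ 0 := by
          intro h0
          rw [h0, mul_zero] at b1 b2
          exact hne (le_antisymm b2 b1)
        obtain ⟨a0, a1, a2, a3⟩ := h2 j p hune
        exact ⟨a0, a1, a2, b2.trans (hup _ _ (Real.rpow_pos_of_pos hX0 _) a3)⟩
      · rw [if_neg h] at hne
        exact absurd rfl hne
    · intro j hj
      rw [← (hw j hj).2.1]
      refine Finset.sum_congr rfl fun p hp => ?_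
      exact if_pos ⟨hj, hp⟩
    · intro p
      have e1 : ∀ j ∈ range J, (if j < J ∧ p ∈ range N then w j p else 0) ≤
          1 / σ * u j p := by
        intro j hj
        split_ifs with h
        · exact ((hw j h.1).1 p h.2).2
        · exact mul_nonneg (by positivity) (h1 j p)
      refine (Finset.sum_le_sum e1).trans ?_
      rw [← Finset.mul_sum]
      have e2 : 0 ≤ C₀ * Real.log p / (δ * p) := by
        have : 0 ≤ Real.log (p : ℝ) := Real.log_natCast_nonneg p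
        positivity
      calc 1 / σ * ∑ j ∈ range J, u j p ≤ 1 / σ * (C₀ * Real.log p / (δ * p)) :=
            mul_le_mul_of_nonneg_left (h4 p) (by positivity)
        _ ≤ 2 * (1 / σ * (C₀ * Real.log p / (δ * p))) := by
            have : 0 ≤ 1 / σ * (C₀ * Real.log p / (δ * p)) := mul_nonneg (by positivity) e2
            linarith
        _ = 2 * C₀ / σ * Real.log p / (δ * p) := by ring
    · intro j hj q hq χ hχ
      refine le_trans (le_of_eq ?_) ((hw j hj).2.2 q hq χ hχ)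
      congr 1
      refine Finset.sum_congr rfl fun p hp => ?_
      beta_reduce
      rw [if_pos ⟨hj, hp⟩]

end Pool.Agent.GA
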