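import Pool.Agent.Lib_helper41.LSP25.V5b
import Pool.Agent.Lib_helper41.LSP25.ArG

/-!
# LSP2.5: the windows
-/

set_option autoImplicit false

namespace Pool.Agent.LSP

open Pool.Agent.GA (Prm)

/-- the windows from `gal_band_free` -/
theorem win_free {lam v : ℝ} (hlam : 0 < lam) (hv0 : 0 < v) (hv1 : v ≤ 1) :
    WinEx v (fun κ X => GA.Free (lam / Real.log X) ⌊(X : ℝ) ^ (1000 * κ)⌋₊) := by
  obtain ⟨Ca, hCa, ca, hca, Aa, hAa, hmain⟩ := GA.gal_band_free_pr hlam hv0 hv1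
  obtain ⟨Cb, hCb, cb, hcb, Ab, hAb, hmain'⟩ := GA.gal_band_free_pr (v := v / 2) hlam (by linarith)
    (by linarith)
  obtain ⟨C, hC, hCa', hCb'⟩ : ∃ C : ℝ, 1 ≤ C ∧ Ca ≤ C ∧ Cb ≤ C :=
    ⟨max Ca Cb, hCa.trans (le_max_left _ _), le_max_left _ _, le_max_right _ _⟩
  obtain ⟨c, hc, hca', hcb'⟩ : ∃ c : ℝ, 0 < c ∧ c ≤ ca ∧ c ≤ cb :=
    ⟨min ca cb, lt_min hca hcb, min_le_left _ _, min_le_right _ _⟩
  obtain ⟨A, hA, hAa', hAb'⟩ : ∃ A : ℝ, 1 ≤ A ∧ Aa ≤ A ∧ Ab ≤ A :=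
    ⟨max Aa Ab, hAa.trans (le_max_left _ _), le_max_left _ _, le_max_right _ _⟩
  refine ⟨2 * C, by linarith, c / 8, by positivity, 1000 * A, by linarith,
    fun κ hκ hAv => ?_⟩
  have hAκ : 0 < A * κ := by positivity
  have hκv : 1000 * κ ≤ v := by nlinarith
  obtain ⟨X₁, hX₁⟩ := hmain (4 * κ) (by positivity) (by nlinarith)
  obtain ⟨X₂, hX₂⟩ := hmain' (4 * κ) (by positivity) (by nlinarith)
  -- `X ^ (-(132 κ)) ≤ 1 / 2`
  obtain ⟨X₃, hX₃⟩ : ∃ X₃ : ℕ, ∀ X : ℕ, X₃ ≤ X → (2 : ℝ) ≤ (X : ℝ) ^ (132 * κ) := by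
    have h := ((tendsto_rpow_atTop (show 0 < 132 * κ by positivity)).comp
      tendsto_natCast_atTop_atTop).eventually_ge_atTop (2 : ℝ)
    exact Filter.eventually_atTop.mp h
  refine ⟨max (max X₁ X₂) (max X₃ 4), fun X hX hgood => ?_⟩
  have g1 : X₁ ≤ X := by omega
  have g2 : X₂ ≤ X := by omega
  have g3 : X₃ ≤ X := by omega
  have g4 : 4 ≤ X := by omega
  have hX4 : (4 : ℝ) ≤ X := by exact_mod_cast g4
  have hX0 : (0 : ℝ) < X := by linarith
  have hX1 : (1 : ℝ) ≤ X := by linarith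
  have e496 : 124 * (4 * κ) = 496 * κ := by ring
  have e1000 : 250 * (4 * κ) = 1000 * κ := by ring
  obtain ⟨ε₁, hε₁, hs₁, -, hW2⟩ := hX₁ X g1 (by rwa [e1000])
  obtain ⟨ε₂, hε₂, hs₂, hW1, -⟩ := hX₂ X g2 (by rwa [e1000])
  rw [e496] at hs₁ hs₂ hW2 hW1
  have e33 : ((X : ℝ) ^ (4 * κ)) ^ (-33 : ℝ) = (X : ℝ) ^ (-(132 * κ)) := by
    rw [← Real.rpow_mul hX0.le]
    congr 1
    ring
  have e34 : ((X : ℝ) ^ (4 * κ)) ^ (34 : ℝ) / (X : ℝ) ^ v = (X : ℝ) ^ (136 * κ - v) := by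
    rw [← Real.rpow_mul hX0.le, ← Real.rpow_sub hX0]
    congr 1
    ring
  rw [e33] at hW2 hW1
  rw [e34] at hW2
  have hlX : 0 < Real.log X := Real.log_pos (by linarith)
  have hdl0 : 0 < (X : ℝ) ^ (-(136 * κ)) := by positivity
  obtain ⟨dl, hdl⟩ : ∃ dl : ℝ, dl = (X : ℝ) ^ (-(136 * κ)) := ⟨_, rfl⟩
  rw [← hdl] at hdl0
  obtain ⟨J, hJ⟩ : ∃ J : ℕ, J = ⌊κ * Real.log X / dl⌋₊ := ⟨_, rfl⟩
  have hJ1 : (J : ℝ) * dl ≤ κ * Real.log X := by
    have h1 : (J : ℝ) ≤ κ * Real.log X / dl := by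
      rw [hJ]
      exact Nat.floor_le (by positivity)
    rwa [le_div_iff₀ hdl0] at h1
  have hJ2 : κ * Real.log X ≤ ((J : ℝ) + 1) * dl := by
    have h1 : κ * Real.log X / dl < (J : ℝ) + 1 := by
      rw [hJ]
      exact Nat.lt_floor_add_one _
    rw [div_lt_iff₀ hdl0] at h1
    exact h1.le
  have hδ : dl ≤ (X : ℝ) ^ (-(34 * (4 * κ))) := by
    rw [hdl]
    apply le_of_eq
    congr 1
    ring
  have hJv : (J : ℝ) * dl ≤ v * Real.log X := by
    refine hJ1.trans ?_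
    exact mul_le_mul_of_nonneg_right (by linarith) hlX.le
  obtain ⟨u, hu0, hu1, hu2, hu3, hu4⟩ := hW2 dl J hdl0 hδ hJv
  have hhalf : (X : ℝ) ^ (-(132 * κ)) ≤ 1 / 2 := by
    rw [Real.rpow_neg hX0.le, one_div]
    exact inv_anti₀ (by norm_num) (hX₃ X g3)
  -- the support is in `PB`
  have hPB : ∀ j p, u j p ≠ 0 → p ∈ PB κ v X := by
    intro j p hne
    obtain ⟨h1, h2, h3, h4⟩ := hu1 j p hne
    have hp0 : (0 : ℝ) < p := by exact_mod_cast h2.pos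
    have hj0 : 0 ≤ (j : ℝ) * dl := by positivity
    have hj1 : (j : ℝ) * dl ≤ κ * Real.log X := by
      have h5 : (j : ℝ) ≤ J := by exact_mod_cast h1.le
      exact (mul_le_mul_of_nonneg_right h5 hdl0.le).trans hJ1
    have h5 := abs_le.1 (h3.trans hhalf)
    have hl2 : (1 : ℝ) / 2 < Real.log 2 := by
      have := Real.log_two_gt_d9
      linarith
    have hup : (p : ℝ) ≤ 2 * (X : ℝ) ^ (v + κ) := by
      rw [← Real.log_le_log_iff hp0 (by positivity), Real.log_mul (by norm_num) (by positivity),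
        Real.log_rpow hX0]
      linarith [h5.2]
    have hlo : (X : ℝ) ^ v / 2 ≤ p := by
      rw [← Real.log_le_log_iff (by positivity) hp0, Real.log_div (by positivity) (by norm_num),
        Real.log_rpow hX0]
      linarith [h5.1]
    unfold PB
    rw [Finset.mem_filter, Finset.mem_Icc]
    exact ⟨⟨h2.one_lt.le, Nat.le_floor hup⟩, h2, hlo⟩
  -- sums over `PB` and over the range
  have hsum : ∀ (j : ℕ) (f : ℕ → ℂ),
      ∑ p ∈ PB κ v X, ((u j p : ℝ) : ℂ) * f p =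
        ∑ p ∈ Finset.range (⌊3 * (X : ℝ) ^ (2 * v)⌋₊ + 1), ((u j p : ℝ) : ℂ) * f p := by
    intro j f
    apply Finset.sum_subset
    · intro p hp
      unfold PB at hp
      rw [Finset.mem_filter, Finset.mem_Icc] at hp
      rw [Finset.mem_range, Nat.lt_succ_iff]
      refine hp.1.2.trans (Nat.floor_le_floor ?_)
      have h1 : (X : ℝ) ^ (v + κ) ≤ (X : ℝ) ^ (2 * v) :=
        Real.rpow_le_rpow_of_exponent_le hX1 (by linarith)
      have h2 : (0 : ℝ) ≤ (X : ℝ) ^ (2 * v) := by positivity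
      linarith
    · intro p _ hp
      have : u j p = 0 := by
        by_contra h
        exact hp (hPB j p h)
      rw [this]
      simp
  refine ⟨fun q χ => ε₁ q χ + ε₂ q χ, J, dl, u, ?_, ?_, ?_⟩
  · refine ⟨hdl0, hdl.le, hJ1, hJ2, hu0, ?_, ?_, ?_, ?_, ?_⟩
    · intro j p hne
      exact hu1 j p hne
    · intro j hj
      have h1 := hsum j (fun _ => 1)
      simp only [mul_one] at h1
      have h2 := hu2 j hj
      have h3 : ((∑ p ∈ PB κ v X, u j p : ℝ) : ℂ) = ((1 : ℝ) : ℂ) := by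
        rw [← h2]
        push_cast
        exact h1
      exact_mod_cast h3
    · intro p
      refine (hu3 p).trans ?_
      rcases Nat.eq_zero_or_pos p with hp0 | hp0
      · subst hp0
        simp
      · have hp1 : (1 : ℝ) ≤ p := by exact_mod_cast hp0
        have hlp : 0 ≤ Real.log p := Real.log_nonneg hp1
        apply div_le_div_of_nonneg_right _ (by positivity)
        exact mul_le_mul_of_nonneg_right (by linarith) hlp
    · intro q χ
      exact add_nonneg (hε₁ q χ) (hε₂ q χ)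
    · intro j hj q hq χ hχ
      rw [hsum j (fun p => χ (p : ZMod q))]
      have := hu4 j hj q hq χ hχ
      have h2 := hε₂ q χ
      linarith
  · have hee : ∀ a : ℝ, v / 2 ≤ a → Real.exp (-(c * a / (4 * κ))) ≤
        Real.exp (-(c / 8 * v / κ)) := by
      intro a ha
      apply Real.exp_le_exp.2
      have h1 : c / 8 * v / κ = c * (v / 2) / (4 * κ) := by field_simp; ring
      rw [h1]
      have : c * (v / 2) / (4 * κ) ≤ c * a / (4 * κ) := by gcongr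
      linarith
    have hs₁' : ∑ q ∈ Finset.Icc 1 ⌊(X : ℝ) ^ (496 * κ)⌋₊, ∑ χ ∈ Prm q, ε₁ q χ ≤
        C * Real.exp (-(c * v / (4 * κ))) := by
      refine hs₁.trans (mul_le_mul hCa' (Real.exp_le_exp.2 (neg_le_neg ?_))
        (Real.exp_pos _).le (by linarith))
      gcongr
    have hs₂' : ∑ q ∈ Finset.Icc 1 ⌊(X : ℝ) ^ (496 * κ)⌋₊, ∑ χ ∈ Prm q, ε₂ q χ ≤
        C * Real.exp (-(c * (v / 2) / (4 * κ))) := by
      refine hs₂.trans (mul_le_mul hCb' (Real.exp_le_exp.2 (neg_le_neg ?_))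
        (Real.exp_pos _).le (by linarith))
      gcongr
    calc ∑ q ∈ Finset.Icc 1 ⌊(X : ℝ) ^ (496 * κ)⌋₊, ∑ χ ∈ Prm q, (ε₁ q χ + ε₂ q χ) =
        ∑ q ∈ Finset.Icc 1 ⌊(X : ℝ) ^ (496 * κ)⌋₊, ∑ χ ∈ Prm q, ε₁ q χ +
        ∑ q ∈ Finset.Icc 1 ⌊(X : ℝ) ^ (496 * κ)⌋₊, ∑ χ ∈ Prm q, ε₂ q χ := by
          rw [← Finset.sum_add_distrib]
          exact Finset.sum_congr rfl fun q _ => Finset.sum_add_distrib
      _ ≤ C * Real.exp (-(c * v / (4 * κ))) + C * Real.exp (-(c * (v / 2) / (4 * κ))) :=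
          add_le_add hs₁' hs₂'
      _ ≤ C * Real.exp (-(c / 8 * v / κ)) + C * Real.exp (-(c / 8 * v / κ)) := by
          have h1 := hee v (by linarith)
          have h2 := hee (v / 2) le_rfl
          gcongr
      _ = 2 * C * Real.exp (-(c / 8 * v / κ)) := by ring
  · intro Z hZ1 hZ2
    have hZv : (X : ℝ) ^ (v / 2) ≤ Z := by
      have h1 : (X : ℝ) ^ (v / 2) ≤ (X : ℝ) ^ (1 / 2 : ℝ) :=
        Real.rpow_le_rpow_of_exponent_le hX1 (by linarith)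
      have h2 : (X : ℝ) ^ (1 / 2 : ℝ) ≤ (X : ℝ) / 2 := by
        have h3 : (X : ℝ) ^ (1 / 2 : ℝ) * (X : ℝ) ^ (1 / 2 : ℝ) = X := by
          rw [← Real.rpow_add hX0]
          norm_num
        have h4 : (2 : ℝ) ≤ (X : ℝ) ^ (1 / 2 : ℝ) := by
          rw [← Real.sqrt_eq_rpow]
          apply Real.le_sqrt_of_sq_le
          linarith
        nlinarith
      linarith
    have hZ2' : Z ≤ (X : ℝ) ^ (2 : ℕ) := by nlinarith
    obtain ⟨P, w, h1, h2, h3⟩ := hW1 Z hZv hZ2'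
    refine ⟨P, w, fun p hp => ⟨(h1 p hp).1, (h1 p hp).2.1, (h1 p hp).2.2.1⟩, h2,
      fun q hq χ hχ => ?_⟩
    have h4 := h3 q hq χ hχ
    have h5 := hε₁ q χ
    linarith

end Pool.Agent.LSP
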